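import Mathlib

set_option autoImplicit false

namespace Pool.Agent.H14.Agree

/-! ### summing over permutations through lists of values -/

/-- the lists of values of all permutations of `{0, …, n-1}` -/
def pl : ℕ → List (List ℕ)
  | 0 => [[]]
  | n + 1 => (List.range (n + 1)).flatMap fun p =>
      (pl n).map fun l => p :: l.map fun v => if v + 1 = p then 0 else v + 1

/-- the list of values of a permutation -/
def vals {n : ℕ} (σ : Equiv.Perm (Fin n)) : List ℕ := List.ofFn (fun i => (σ i : ℕ))

theorem vals_decompose {n : ℕ} (p : Fin (n + 1)) (τ : Equiv.Perm (Fin n)) :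
    vals (Equiv.Perm.decomposeFin.symm (p, τ)) =
      (p : ℕ) :: (vals τ).map (fun v => if v + 1 = (p : ℕ) then 0 else v + 1) := by
  unfold vals
  rw [List.ofFn_succ]
  congr 1
  · simp
  · rw [List.map_ofFn]
    congr 1
    funext i
    simp only [Equiv.Perm.decomposeFin_symm_apply_succ, Function.comp]
    by_cases h : ((τ i : ℕ) + 1) = (p : ℕ)
    · have : (τ i).succ = p := Fin.ext (by simpa using h)
      rw [if_pos h, this, Equiv.swap_apply_right]
      rfl
    · have h1 : (τ i).succ ≠ p := by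
        intro h2
        apply h
        rw [← h2]
        rfl
      have h0 : (τ i).succ ≠ 0 := Fin.succ_ne_zero _
      rw [if_neg h, Equiv.swap_apply_of_ne_of_ne h0 h1]
      rfl

theorem sum_fm (l : List ℕ) (f : ℕ → List (List ℕ)) (F : List ℕ → ℕ) :
    ((l.flatMap f).map F).sum = (l.map (fun p => ((f p).map F).sum)).sum := by
  induction l with
  | nil => simp
  | cons a l ih => simp [List.flatMap_cons, ih]

theorem sum_rg (m : ℕ) (g : ℕ → ℕ) : ((List.range m).map g).sum = ∑ i ∈ Finset.range m, g i := by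
  induction m with
  | zero => simp
  | succ m ih => simp [List.range_succ, Finset.sum_range_succ, ih]

theorem sum_perm (n : ℕ) : ∀ F : List ℕ → ℕ,
    ∑ σ : Equiv.Perm (Fin n), F (vals σ) = ((pl n).map F).sum := by
  induction n with
  | zero =>
    intro F
    simp [pl, vals]
  | succ n ih =>
    intro F
    rw [← Equiv.sum_comp (Equiv.Perm.decomposeFin (n := n)).symm, Fintype.sum_prod_type]
    simp only [vals_decompose]
    have h1 : ∀ p : Fin (n + 1),
        ∑ τ : Equiv.Perm (Fin n), F ((p : ℕ) :: (vals τ).map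
          (fun v => if v + 1 = (p : ℕ) then 0 else v + 1)) =
        ((pl n).map (fun l => F ((p : ℕ) :: l.map
          (fun v => if v + 1 = (p : ℕ) then 0 else v + 1)))).sum := fun p =>
      ih (fun l => F ((p : ℕ) :: l.map (fun v => if v + 1 = (p : ℕ) then 0 else v + 1)))
    rw [Finset.sum_congr rfl (fun p _ => h1 p)]
    rw [Fin.sum_univ_eq_sum_range (fun p => ((pl n).map (fun l => F (p :: l.map
          (fun v => if v + 1 = p then 0 else v + 1)))).sum)]
    rw [← sum_rg]
    simp only [pl]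
    rw [sum_fm]
    simp only [List.map_map]
    rfl

/-! ### the poset on seven points -/

/-- the list of comparable pairs `(x, y)`, `x < y` -/
def prs : List (Fin 7 × Fin 7) :=
  [(0, 3), (0, 4), (1, 4), (2, 4), (0, 5), (1, 5), (3, 5), (0, 6), (2, 6), (3, 6)]

/-- the seven-point poset -/
@[reducible] def P7 : PartialOrder (Fin 7) where
  le x y := x = y ∨ (x, y) ∈ prs
  lt x y := (x, y) ∈ prs
  le_refl x := Or.inl rfl
  le_trans := by decide +kernel
  le_antisymm := by decide +kernel
  lt_iff_le_not_ge := by decide +kernel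

/-- the number of agreeing pairs, from the list of positions -/
def agr (l : List ℕ) : ℕ :=
  (if l.getD 0 0 < l.getD 3 0 then 1 else 0) + (if l.getD 0 0 < l.getD 4 0 then 1 else 0) +
  (if l.getD 1 0 < l.getD 4 0 then 1 else 0) + (if l.getD 2 0 < l.getD 4 0 then 1 else 0) +
  (if l.getD 0 0 < l.getD 5 0 then 1 else 0) + (if l.getD 1 0 < l.getD 5 0 then 1 else 0) +
  (if l.getD 3 0 < l.getD 5 0 then 1 else 0) + (if l.getD 0 0 < l.getD 6 0 then 1 else 0) +
  (if l.getD 2 0 < l.getD 6 0 then 1 else 0) + (if l.getD 3 0 < l.getD 6 0 then 1 else 0)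

theorem cnt4 : ((pl 7).map (fun l => if agr l = 4 then 1 else 0)).sum = 792 := by decide +kernel
theorem cnt5 : ((pl 7).map (fun l => if agr l = 5 then 1 else 0)).sum = 764 := by decide +kernel
theorem cnt6 : ((pl 7).map (fun l => if agr l = 6 then 1 else 0)).sum = 792 := by decide +kernel

theorem vals_getD (σ : Equiv.Perm (Fin 7)) (i : Fin 7) :
    (vals σ).getD (i : ℕ) 0 = (σ i : ℕ) := by
  unfold vals
  rw [List.getD_eq_getElem _ _ (by simp)]
  exact List.getElem_ofFn _

theorem length_eq (σ : Equiv.Perm (Fin 7)) :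
    (prs.filter (fun p => decide (σ p.1 < σ p.2))).length = agr (vals σ) := by
  rw [← List.countP_eq_length_filter]
  have h0 := vals_getD σ 0
  have h1 := vals_getD σ 1
  have h2 := vals_getD σ 2
  have h3 := vals_getD σ 3
  have h4 := vals_getD σ 4
  have h5 := vals_getD σ 5
  have h6 := vals_getD σ 6
  simp only [Fin.isValue, Fin.coe_ofNat_eq_mod, Nat.reduceMod, Nat.zero_mod] at h0 h1 h2 h3 h4 h5 h6
  simp only [prs, List.countP_cons, List.countP_nil, decide_eq_true_eq, Fin.lt_def, agr, h0, h1, h2,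
    h3, h4, h5, h6]
  ring

theorem inner_eq (σ : Equiv.Perm (Fin 7)) (q : Fin 7 × Fin 7 → Prop) [DecidablePred q]
    (hq : ∀ p, q p ↔ (p ∈ prs ∧ σ p.1 < σ p.2)) :
    (Finset.univ.filter q).card = agr (vals σ) := by
  have h : Finset.univ.filter q = (prs.filter (fun p => decide (σ p.1 < σ p.2))).toFinset := by
    ext p
    simp [hq]
  rw [h, List.toFinset_card_of_nodup, length_eq]
  exact List.Nodup.filter _ (by decide)

theorem outer_eq (N : ℕ) (hN : N = 7) (i : ℕ) [Fintype (Fin 7 ≃ Fin N)]
    [∀ σ : Fin 7 ≃ Fin N, DecidablePred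
      (fun p : Fin 7 × Fin 7 => (p.1, p.2) ∈ prs ∧ σ p.1 < σ p.2)]
    [DecidablePred (fun σ : Fin 7 ≃ Fin N => (Finset.univ.filter
      (fun p : Fin 7 × Fin 7 => (p.1, p.2) ∈ prs ∧ σ p.1 < σ p.2)).card = i)] :
    (Finset.univ.filter (fun σ : Fin 7 ≃ Fin N => (Finset.univ.filter
      (fun p : Fin 7 × Fin 7 => (p.1, p.2) ∈ prs ∧ σ p.1 < σ p.2)).card = i)).card =
      ((pl 7).map (fun l => if agr l = i then 1 else 0)).sum := by
  subst hN
  rw [← sum_perm, Finset.card_filter]
  have h : ∀ σ : Equiv.Perm (Fin 7),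
      (if (Finset.univ.filter
      (fun p : Fin 7 × Fin 7 => (p.1, p.2) ∈ prs ∧ σ p.1 < σ p.2)).card = i then 1 else 0) =
      (if agr (vals σ) = i then 1 else 0) := by
    intro σ
    have e := inner_eq σ (fun p : Fin 7 × Fin 7 => (p.1, p.2) ∈ prs ∧ σ p.1 < σ p.2)
      (fun p => Iff.rfl)
    by_cases h : agr (vals σ) = i
    · rw [if_pos h, if_pos (e.trans h)]
    · rw [if_neg h, if_neg (fun h2 => h (e.symm.trans h2))]
  convert Finset.sum_congr rfl (fun σ _ => h σ)

theorem card_lt [DecidablePred (fun p : Fin 7 × Fin 7 => (p.1, p.2) ∈ prs)] :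
    (Finset.univ.filter (fun p : Fin 7 × Fin 7 => (p.1, p.2) ∈ prs)).card = 10 := by
  have h : Finset.univ.filter (fun p : Fin 7 × Fin 7 => (p.1, p.2) ∈ prs) = prs.toFinset := by
    ext p
    simp
  rw [h, List.toFinset_card_of_nodup (by decide)]
  rfl

end Pool.Agent.H14.Agree
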