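import Mathlib

namespace H14EW

open Finset

theorem sum1 (n N : ℕ) (h : n ≤ N) : 2 * ∑ j ∈ range N, (n - 1 - j) = n * (n - 1) := by
  obtain ⟨d, rfl⟩ := Nat.exists_eq_add_of_le h
  rw [sum_range_add]
  have h0 : ∑ x ∈ range d, (n - 1 - (n + x)) = 0 := by
    apply sum_eq_zero; intro x _; omega
  rw [h0, add_zero]
  have h1 := Finset.sum_range_reflect (fun j => j) n
  rw [h1]
  have := Finset.sum_range_id_mul_two n
  rw [mul_comm]; exact this

def QQ (b g : ℕ) : ℕ := ∑ j ∈ range g, min b (2 * j - b)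

theorem QQ_zero (b g : ℕ) (h : 2 * g ≤ b + 2) : QQ b g = 0 := by
  unfold QQ
  apply sum_eq_zero
  intro j hj
  rw [mem_range] at hj
  have : 2 * j - b = 0 := by omega
  rw [this]; simp

theorem QQ_b0 (g : ℕ) : QQ 0 g = 0 := by
  unfold QQ
  apply sum_eq_zero
  intro j _
  simp

theorem QQ_a (b g : ℕ) (h : b + 1 ≤ 2 * g) : (4 * QQ b g : ℤ) ≤ (2 * g - b - 1) ^ 2 := by
  induction g with
  | zero => omega
  | succ g ih =>
    by_cases hg : b + 1 ≤ 2 * g
    · have h1 := ih hg
      unfold QQ at h1 ⊢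
      rw [sum_range_succ]
      have h2 : min b (2 * g - b) ≤ 2 * g - b := min_le_right _ _
      have h3 : ((min b (2 * g - b) : ℕ) : ℤ) ≤ 2 * (g : ℤ) - b := by
        have : (((2 * g - b : ℕ)) : ℤ) = 2 * (g : ℤ) - b := by
          rw [Nat.cast_sub (by omega)]; push_cast; ring
        rw [← this]; exact_mod_cast h2
      push_cast at h1 h3 ⊢
      nlinarith
    · rw [QQ_zero b (g + 1) (by omega)]
      push_cast
      nlinarith [sq_nonneg (2 * ((g : ℤ) + 1) - b - 1)]

theorem QQ_bb (b g : ℕ) (h : b ≤ g) :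
    (4 * QQ b g : ℤ) ≤ 4 * b * g - 3 * b ^ 2 - 2 * b + 1 := by
  obtain ⟨d, rfl⟩ := Nat.exists_eq_add_of_le h
  clear h
  induction d with
  | zero =>
    rcases Nat.eq_zero_or_pos b with h0 | h0
    · subst h0; rw [QQ_b0]; simp
    · have := QQ_a b b (by omega)
      rw [add_zero]
      nlinarith
  | succ d ih =>
    unfold QQ at ih ⊢
    rw [← add_assoc, sum_range_succ]
    have h2 : min b (2 * (b + d) - b) ≤ b := min_le_left _ _
    have h3 : ((min b (2 * (b + d) - b) : ℕ) : ℤ) ≤ b := by exact_mod_cast h2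
    push_cast at ih h3 ⊢
    nlinarith

/-- `Φ = β t + n (n-1) - 2 γ ρ - Q` in the case `n = γ + ρ - β ≥ 0`. -/
theorem phi_pos (r g p b n : ℕ) (hn : n + b = g + p) :
    (2 * g * p + QQ b g : ℤ) ≤ b * (r + g + p) + n * (n - 1) ∧
    (1 ≤ b → 8 ≤ 2 * (n + r) + b →
      (2 * g * p + QQ b g : ℤ) + 2 ≤ b * (r + g + p) + n * (n - 1)) ∧
    (1 ≤ b → 7 ≤ 2 * (n + r) + b →
      (2 * g * p + QQ b g : ℤ) + 1 ≤ b * (r + g + p) + n * (n - 1)) ∧
    (b = 0 → 3 ≤ n →
      (2 * g * p + QQ b g : ℤ) + 2 ≤ b * (r + g + p) + n * (n - 1)) := by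
  have hp : (p : ℤ) = n + b - g := by omega
  have hr : (0 : ℤ) ≤ r := by positivity
  have hb : (0 : ℤ) ≤ b := by positivity
  have hnn : (0 : ℤ) ≤ n := by positivity
  have hg : (0 : ℤ) ≤ g := by positivity
  have hp0 : (0 : ℤ) ≤ (n : ℤ) + b - g := by omega
  have hbr : (0 : ℤ) ≤ b * r := mul_nonneg hb hr
  rw [hp]
  set Q : ℤ := ((QQ b g : ℕ) : ℤ) with hQ
  -- the quantity 4Φ
  obtain ⟨F, hF⟩ : ∃ F : ℤ, F = b * (r + g + (n + b - g)) + n * (n - 1)
      - (2 * g * (n + b - g) + Q) := ⟨_, rfl⟩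
  suffices hs : 0 ≤ F ∧ (1 ≤ b → 8 ≤ 2 * (n + r) + b → 2 ≤ F) ∧
      (1 ≤ b → 7 ≤ 2 * (n + r) + b → 1 ≤ F) ∧ (b = 0 → 3 ≤ n → 2 ≤ F) by
    obtain ⟨h1, h2, h3, h4⟩ := hs
    refine ⟨by linarith, fun a b => ?_, fun a b => ?_, fun a b => ?_⟩
    · have := h2 a b; linarith
    · have := h3 a b; linarith
    · have := h4 a b; linarith
  rcases Nat.eq_zero_or_pos b with h0 | h0
  · -- b = 0
    subst h0
    have hQ0 : Q = 0 := by rw [hQ, QQ_b0]; rfl
    rw [hQ0] at hF
    push_cast at hF hp0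
    have hF2 : 2 * F ≥ (n : ℤ) ^ 2 - 2 * n := by nlinarith [sq_nonneg ((n : ℤ) - 2 * g)]
    refine ⟨?_, by omega, by omega, ?_⟩
    · by_contra hneg
      have : (n : ℤ) ^ 2 - 2 * n ≤ -2 := by omega
      nlinarith [sq_nonneg ((n : ℤ) - 1)]
    · intro _ h3
      have h3' : (3 : ℤ) ≤ n := by exact_mod_cast h3
      by_contra hneg
      have : (n : ℤ) ^ 2 - 2 * n ≤ 2 := by omega
      nlinarith
  · -- b ≥ 1
    have hb1 : (1 : ℤ) ≤ b := by exact_mod_cast h0
    -- three regimes for `g`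
    have key : (Q = 0 ∧ 2 * (g : ℤ) ≤ b + 1) ∨
        (4 * F ≥ (2 * n + b - 2 * g - 1) ^ 2 + 2 * b ^ 2 - 2 + 4 * b * r
          ∧ (b : ℤ) + 2 ≤ 2 * g ∧ (g : ℤ) + 1 ≤ b) ∨
        (8 * F ≥ (2 * n - b - 2) ^ 2 + 4 * b ^ 2 - 6 + 8 * b * r ∧ (b : ℤ) ≤ g) := by
      rcases Nat.lt_or_ge (2 * g) (b + 2) with h1 | h1
      · left
        have hQ0 : Q = 0 := by rw [hQ, QQ_zero b g (by omega)]; rfl
        exact ⟨hQ0, by omega⟩
      · rcases Nat.lt_or_ge g b with h2 | h2
        · right; left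
          have hQa := QQ_a b g (by omega)
          rw [← hQ] at hQa
          refine ⟨?_, by omega, by omega⟩
          rw [hF]
          nlinarith
        · right; right
          have hQb := QQ_bb b g h2
          rw [← hQ] at hQb
          refine ⟨?_, by omega⟩
          rw [hF]
          nlinarith [sq_nonneg (4 * (g : ℤ) - 2 * n - 3 * b)]
    rcases Nat.lt_or_ge b 3 with hb3 | hb3
    · have hb12 : b = 1 ∨ b = 2 := by omega
      rcases hb12 with rfl | rfl
      · -- b = 1
        push_cast at key hF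
        have key' : 8 * F ≥ (2 * n - 3) ^ 2 - 2 + 8 * r ∨ F ≥ r + ((n : ℤ) - 1) ^ 2 := by
          rcases key with ⟨k1, k2⟩ | ⟨k1, k2, k3⟩ | ⟨k1, _⟩
          · right
            have hg2 : (g : ℤ) = 0 ∨ (g : ℤ) = 1 := by omega
            rcases hg2 with hg2 | hg2
            · rw [hF, k1, hg2]; nlinarith
            · rw [hF, k1, hg2]; nlinarith
          · omega
          · left; nlinarith
        clear key hF
        have hsq := sq_nonneg (2 * (n : ℤ) - 3)
        have hsq' := sq_nonneg ((n : ℤ) - 1)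
        refine ⟨?_, fun _ h8 => ?_, fun _ h7 => ?_, fun h => by omega⟩
        · rcases key' with k | k
          · omega
          · omega
        · have hnr : (4 : ℤ) ≤ n + r := by omega
          rcases key' with k | k
          · rcases le_or_gt 2 (r : ℤ) with h | h
            · omega
            · have hn3 : (3 : ℤ) ≤ n := by omega
              have h9 : (2 * (n : ℤ) - 3) ^ 2 ≥ 9 + 12 * (n - 3) := by nlinarith
              omega
          · rcases le_or_gt 2 (r : ℤ) with h | h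
            · omega
            · have hn3 : (3 : ℤ) ≤ n := by omega
              have h9 : ((n : ℤ) - 1) ^ 2 ≥ 4 := by nlinarith
              omega
        · have hnr : (3 : ℤ) ≤ n + r := by omega
          rcases key' with k | k
          · rcases le_or_gt 1 (r : ℤ) with h | h
            · omega
            · have hn3 : (3 : ℤ) ≤ n := by omega
              have h9 : (2 * (n : ℤ) - 3) ^ 2 ≥ 9 := by nlinarith
              omega
          · rcases le_or_gt 1 (r : ℤ) with h | h
            · omega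
            · have hn3 : (3 : ℤ) ≤ n := by omega
              have h9 : ((n : ℤ) - 1) ^ 2 ≥ 4 := by nlinarith
              omega
      · -- b = 2
        push_cast at key hF
        have hF2 : 2 ≤ F := by
          rcases key with ⟨k1, k2⟩ | ⟨k1, k2, k3⟩ | ⟨k1, _⟩
          · have hg2 : (g : ℤ) = 0 ∨ (g : ℤ) = 1 := by omega
            rcases hg2 with hg2 | hg2
            · rw [hF, k1, hg2]; nlinarith [sq_nonneg ((n : ℤ) - 1)]
            · rw [hF, k1, hg2]
              have : (n : ℤ) * (n - 1) ≥ 0 := by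
                rcases le_or_gt 1 (n : ℤ) with h | h
                · exact mul_nonneg hnn (by omega)
                · have : (n : ℤ) = 0 := by omega
                  rw [this]; norm_num
              nlinarith
          · omega
          · have := sq_nonneg (2 * (n : ℤ) - 2 - 2)
            omega
        exact ⟨by omega, fun _ _ => hF2, fun _ _ => by omega, fun h => by omega⟩
    · have h3' : (3 : ℤ) ≤ b := by exact_mod_cast hb3
      have hbb : (9 : ℤ) ≤ b ^ 2 := by nlinarith
      have big : 3 ≤ F := by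
        clear hQ
        rcases key with ⟨k1, k2⟩ | ⟨k1, _, _⟩ | ⟨k1, _⟩
        · -- 4F = 4br+2b²+4(n-1)²-2+4s(n-1)+2s²,  s = b+1-2g
          obtain ⟨s, hs⟩ : ∃ s : ℤ, s = b + 1 - 2 * g := ⟨_, rfl⟩
          have e : 4 * F = 4 * (b * r) + 2 * b ^ 2 - 2 + (s + 2 * (n - 1)) ^ 2 + s ^ 2 := by
            rw [hF, k1, hs]; ring
          have e1 := sq_nonneg (s + 2 * ((n : ℤ) - 1))
          have e2 := sq_nonneg s
          omega
        · have e1 := sq_nonneg (2 * (n : ℤ) + b - 2 * g - 1)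
          have e2 : 4 * (b : ℤ) * r = 4 * (b * r) := by ring
          rw [e2] at k1
          omega
        · have e1 := sq_nonneg (2 * (n : ℤ) - b - 2)
          have e2 : 8 * (b : ℤ) * r = 8 * (b * r) := by ring
          rw [e2] at k1
          omega
      exact ⟨by omega, fun _ _ => by omega, fun _ _ => by omega, fun h => by omega⟩

/-- the case `γ + ρ < β` -/
theorem phi_neg (a g p b : ℕ) (hn : g + p < b) :
    (2 * g * p + QQ b g : ℤ) + b * a + 1 ≤ b * (a + b) := by
  have hb : (0 : ℤ) ≤ b := by positivity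
  have hg : (0 : ℤ) ≤ g := by positivity
  have hp : (0 : ℤ) ≤ p := by positivity
  have h1 : (g : ℤ) + p + 1 ≤ b := by exact_mod_cast hn
  have hQ : (4 * QQ b g : ℤ) ≤ (b - 1) ^ 2 := by
    rcases Nat.lt_or_ge (2 * g) (b + 2) with h | h
    · rw [QQ_zero b g (by omega)]; push_cast; nlinarith [sq_nonneg ((b : ℤ) - 1)]
    · have := QQ_a b g (by omega)
      have h2 : (0 : ℤ) ≤ 2 * g - b - 1 := by omega
      have h3 : (2 * (g : ℤ) - b - 1) ≤ b - 1 := by omega
      nlinarith
  have h4 : (4 : ℤ) * (2 * g * p) ≤ 2 * (b - 1) ^ 2 := by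
    have : (g : ℤ) + p ≤ b - 1 := by omega
    nlinarith [sq_nonneg ((g : ℤ) - p), mul_nonneg (sub_nonneg.2 this) (add_nonneg hg hp)]
  nlinarith

end H14EW
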