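import Mathlib

/-! Definitions for the maximum effective weight problem. -/

namespace H14EW

/-- A numerical semigroup, in the convention of the problem: a set of positive integers, closed
under addition, whose complement in the positive integers is finite. -/
structure NumSgp where
  carrier : Set ℕ
  pos : ∀ x ∈ carrier, 0 < x
  add_mem : ∀ x ∈ carrier, ∀ y ∈ carrier, x + y ∈ carrier
  finite_gaps : {n : ℕ | 0 < n ∧ n ∉ carrier}.Finite

namespace NumSgp

/-- the set `G` of gaps -/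
def gaps (S : NumSgp) : Set ℕ := {n | 0 < n ∧ n ∉ S.carrier}

/-- the genus, the number of gaps -/
noncomputable def genus (S : NumSgp) : ℕ := S.gaps.ncard

/-- the irreducible elements: those that are not the sum of two elements of `S` -/
def irred (S : NumSgp) : Set ℕ :=
  {x | x ∈ S.carrier ∧ ¬ ∃ a ∈ S.carrier, ∃ b ∈ S.carrier, a + b = x}

/-- the effective weight: the number of pairs `(x, y)` with `x` irreducible, `y` a gap, `x < y` -/
noncomputable def effWeight (S : NumSgp) : ℕ :=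
  {p : ℕ × ℕ | p.1 ∈ S.irred ∧ p.2 ∈ S.gaps ∧ p.1 < p.2}.ncard

/-- `S` is a maximiser: no numerical semigroup of the same genus has larger effective weight -/
def IsMaximiser (S : NumSgp) : Prop :=
  ∀ S' : NumSgp, S'.genus = S.genus → S'.effWeight ≤ S.effWeight

/-- `S = ⟨a, a+1, …, b⟩` -/
def IsGenByInterval (S : NumSgp) (a b : ℕ) : Prop :=
  S.carrier = (AddSubsemigroup.closure (Set.Icc a b) : Set ℕ)

end NumSgp

/-- The gap sets of the maximisers of genus `0, 1, …, 9`. -/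
def smallTable : ℕ → List (List ℕ)
  | 0 => [[]]
  | 1 => [[1]]
  | 2 => [[1, 3]]
  | 3 => [[1, 2, 5], [1, 3, 5]]
  | 4 => [[1, 2, 3, 7], [1, 2, 4, 7], [1, 3, 5, 7]]
  | 5 => [[1, 2, 3, 4, 9], [1, 2, 3, 5, 9], [1, 2, 3, 6, 7], [1, 2, 4, 5, 8], [1, 3, 5, 7, 9]]
  | 6 => [[1, 2, 3, 4, 8, 9], [1, 2, 3, 5, 7, 11], [1, 2, 3, 6, 7, 11], [1, 2, 4, 5, 8, 11]]
  | 7 => [[1, 2, 3, 4, 5, 10, 11], [1, 2, 3, 5, 7, 9, 13]]
  | 8 => [[1, 2, 3, 4, 5, 6, 12, 13], [1, 2, 3, 5, 7, 9, 11, 15]]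
  | 9 => [[1, 2, 3, 4, 5, 6, 7, 14, 15], [1, 2, 3, 4, 5, 6, 11, 12, 13],
      [1, 2, 3, 4, 5, 9, 10, 11, 17], [1, 2, 3, 5, 7, 9, 11, 13, 17]]
  | _ => []

/-- The explicit list of maximisers. In genus `g ≤ 9` they are given by their gap sets. In genus
`g ≥ 10` they are the semigroups `⟨g + 1 - h, …, 2 g + 1 - 3 h⟩` with `|g + 1 - 4 h| ≤ 2`. -/
def NumSgp.Listed (S : NumSgp) : Prop :=
  (S.genus ≤ 9 ∧ ∃ L ∈ smallTable S.genus, S.gaps = {x | x ∈ L}) ∨
  (10 ≤ S.genus ∧ ∃ h : ℕ, |(S.genus : ℤ) + 1 - 4 * h| ≤ 2 ∧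
    S.IsGenByInterval (S.genus + 1 - h) (2 * S.genus + 1 - 3 * h))

/-- `M(g)`, the maximum effective weight among numerical semigroups of genus `g`. -/
noncomputable def maxEffWeight (g : ℕ) : ℕ :=
  sSup {w | ∃ S : NumSgp, S.genus = g ∧ S.effWeight = w}

end H14EW
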