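import Pool.Agent.H14.EWCaseI
import Pool.Agent.H14.EWDefs

namespace H14EW

open Finset Classical

variable {S : Set ℕ} {m : ℕ}

/-- gaps `≥ m`, class by class -/
theorem NS.sum_gaps (h : NS S m) (G : Finset ℕ) (hG : ∀ x, x ∈ G ↔ 0 < x ∧ x ∉ S) (f : ℕ → ℕ) :
    ∑ y ∈ G.filter (fun y => m ≤ y), f y =
      ∑ z ∈ TT S m, ∑ j ∈ range (kap S m z + 1), f (z + j * m) := by
  rw [sum_sigma']
  symm
  refine sum_bij (fun (p : (_ : ℕ) × ℕ) _ => p.1 + p.2 * m) ?_ ?_ ?_ ?_
  · rintro ⟨z, j⟩ hp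
    rw [mem_sigma, mem_range, mem_TT] at hp
    simp only at hp ⊢
    rw [mem_filter, hG]
    have hmp := h.m_pos
    refine ⟨⟨by omega, ?_⟩, by omega⟩
    rcases Nat.eq_zero_or_pos j with h0 | h0
    · subst h0; simpa using hp.1.2.2
    · exact kap_not h0 (by omega)
  · rintro ⟨z, j⟩ hp ⟨z', j'⟩ hp' heq
    rw [mem_sigma, mem_range, mem_TT] at hp hp'
    simp only at hp hp' heq
    have hj : j = j' := by
      rcases lt_trichotomy j j' with hl | hl | hl
      · have : (j + 1) * m ≤ j' * m := Nat.mul_le_mul_right _ hl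
        rw [Nat.add_mul] at this
        omega
      · exact hl
      · have : (j' + 1) * m ≤ j * m := Nat.mul_le_mul_right _ hl
        rw [Nat.add_mul] at this
        omega
    subst hj
    have : z = z' := by omega
    subst this
    rfl
  · intro y hy
    rw [mem_filter, hG] at hy
    have hlt := Nat.mod_lt y h.m_pos
    have hdm := Nat.div_add_mod y m
    have hd1 : 1 ≤ y / m := (Nat.one_le_div_iff h.m_pos).2 hy.2
    obtain ⟨q, hq⟩ := Nat.exists_eq_add_of_le' hd1
    have hyq : y = (m + y % m) + q * m := by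
      rw [hq] at hdm
      have e : m * (q + 1) = q * m + m := by ring
      omega
    have hmod : m + y % m ≡ y [MOD m] := by
      unfold Nat.ModEq; simp
    have hzS : m + y % m ∉ S := by
      intro hS
      exact hy.1.2 (h.of_modEq hS (by omega) hmod)
    have hzT : m + y % m ∈ TT S m := mem_TT.2 ⟨by omega, by omega, hzS⟩
    refine ⟨⟨m + y % m, q⟩, ?_, hyq.symm⟩
    rw [mem_sigma, mem_range]
    refine ⟨hzT, ?_⟩
    simp only
    by_contra hcon
    push Not at hcon
    have h1 := h.kap_mem (m + y % m)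
    apply hy.1.2
    apply h.of_modEq h1
    · have : (kap S m (m + y % m) + 1) * m ≤ q * m := Nat.mul_le_mul_right _ hcon
      omega
    · refine Nat.ModEq.trans ?_ hmod
      unfold Nat.ModEq; simp
  · rintro ⟨z, j⟩ _
    rfl

theorem NumSgp.exists_NS (T : NumSgp) : ∃ m, NS T.carrier m := by
  have hcof : ∃ N, ∀ x, N ≤ x → x ∈ T.carrier := by
    obtain ⟨N, hN⟩ := T.finite_gaps.bddAbove
    refine ⟨N + 1, ?_⟩
    intro x hx
    by_contra hcon
    have := hN (show x ∈ {n : ℕ | 0 < n ∧ n ∉ T.carrier} from ⟨by omega, hcon⟩)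
    omega
  have hne : T.carrier.Nonempty := by
    obtain ⟨N, hN⟩ := hcof; exact ⟨N, hN N le_rfl⟩
  refine ⟨sInf T.carrier, ?_⟩
  exact
    { m_pos := T.pos _ (Nat.sInf_mem hne)
      m_mem := Nat.sInf_mem hne
      le := fun x hx => Nat.sInf_le hx
      add := T.add_mem
      cof := hcof }

theorem NumSgp.irred_iff (T : NumSgp) (x : ℕ) : x ∈ T.irred ↔ Irr T.carrier x := by
  unfold NumSgp.irred Irr
  simp only [Set.mem_setOf_eq]
  refine and_congr_right fun _ => ?_
  push Not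
  rfl

noncomputable def NumSgp.gapF (T : NumSgp) : Finset ℕ := T.finite_gaps.toFinset

theorem NumSgp.mem_gapF (T : NumSgp) (x : ℕ) : x ∈ T.gapF ↔ 0 < x ∧ x ∉ T.carrier := by
  unfold NumSgp.gapF
  rw [Set.Finite.mem_toFinset]
  rfl

theorem NumSgp.genus_eq_card (T : NumSgp) : T.genus = T.gapF.card := by
  unfold NumSgp.genus NumSgp.gapF
  exact Set.ncard_eq_toFinset_card _ T.finite_gaps

theorem NumSgp.effWeight_eq (T : NumSgp) :
    T.effWeight = ∑ y ∈ T.gapF, nn T.carrier y := by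
  unfold NumSgp.effWeight
  have : {p : ℕ × ℕ | p.1 ∈ T.irred ∧ p.2 ∈ T.gaps ∧ p.1 < p.2} =
      ((T.gapF.sigma (fun y => (range y).filter (fun x => Irr T.carrier x))).image
        (fun p => (p.2, p.1)) : Finset (ℕ × ℕ)) := by
    ext ⟨x, y⟩
    simp only [Set.mem_setOf_eq, coe_image, coe_sigma, Set.mem_image]
    rw [T.irred_iff]
    constructor
    · rintro ⟨h1, h2, h3⟩
      refine ⟨⟨y, x⟩, ?_, rfl⟩
      rw [Set.mem_sigma_iff]
      refine ⟨?_, ?_⟩
      · rw [mem_coe, T.mem_gapF]; exact h2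
      · rw [mem_coe, mem_filter, mem_range]; exact ⟨h3, h1⟩
    · rintro ⟨⟨y', x'⟩, h1, h2⟩
      simp only [Prod.mk.injEq] at h2
      obtain ⟨rfl, rfl⟩ := h2
      rw [Set.mem_sigma_iff] at h1
      obtain ⟨h3, h4⟩ := h1
      rw [mem_coe, T.mem_gapF] at h3
      rw [mem_coe, mem_filter, mem_range] at h4
      exact ⟨h4.2, h3, h4.1⟩
  rw [this, Set.ncard_coe_finset, card_image_of_injective, card_sigma]
  · rfl
  · rintro ⟨a, b⟩ ⟨c, d⟩ hh
    simp only [Prod.mk.injEq] at hh
    obtain ⟨rfl, rfl⟩ := hh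
    rfl

theorem NumSgp.genus_eq (T : NumSgp) (h : NS T.carrier m) :
    T.genus + 1 = m + htot T.carrier m := by
  rw [T.genus_eq_card]
  have h1 := h.sum_gaps T.gapF T.mem_gapF (fun _ => 1)
  have h2 : ∑ z ∈ TT T.carrier m, ∑ j ∈ range (kap T.carrier m z + 1), 1 = htot T.carrier m := by
    unfold htot
    apply sum_congr rfl
    intro z _
    simp
  rw [h2, ← card_eq_sum_ones] at h1
  have h3 := card_filter_add_card_filter_not (s := T.gapF) (fun y => m ≤ y)
  have h4 : T.gapF.filter (fun y => ¬ m ≤ y) = Ico 1 m := by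
    ext x
    rw [mem_filter, T.mem_gapF, mem_Ico]
    constructor
    · rintro ⟨⟨a, b⟩, c⟩; omega
    · rintro ⟨a, b⟩
      refine ⟨⟨by omega, ?_⟩, by omega⟩
      intro hx
      have := h.le x hx
      omega
  rw [h4, Nat.card_Ico] at h3
  have := h.m_pos
  omega

theorem NumSgp.effWeight_eq_wtot (T : NumSgp) (h : NS T.carrier m) :
    T.effWeight = wtot T.carrier m := by
  rw [T.effWeight_eq]
  have h1 := h.sum_gaps T.gapF T.mem_gapF (fun y => nn T.carrier y)
  unfold wtot
  rw [← h1, ← sum_filter_add_sum_filter_not T.gapF (fun y => m ≤ y)]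
  have : ∑ y ∈ T.gapF.filter (fun y => ¬ m ≤ y), nn T.carrier y = 0 := by
    apply sum_eq_zero
    intro y hy
    rw [mem_filter] at hy
    unfold nn
    rw [card_eq_zero, filter_eq_empty_iff]
    intro x hx hI
    rw [mem_range] at hx
    have := h.le x hI.1
    omega
  rw [this, add_zero]

/-! ### the interval family -/

/-- the semigroup `[m, 2m-h) ∪ [2m, ∞)` -/
def fam (m h : ℕ) (hm : h < m) : NumSgp where
  carrier := {x | (m ≤ x ∧ x < 2 * m - h) ∨ 2 * m ≤ x}
  pos := by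
    rintro x (⟨h1, _⟩ | h1) <;> omega
  add_mem := by
    rintro x hx y hy
    simp only [Set.mem_setOf_eq] at hx hy ⊢
    omega
  finite_gaps := by
    apply (Set.finite_Iio (2 * m)).subset
    rintro x ⟨_, h2⟩
    simp only [Set.mem_setOf_eq] at h2
    simp only [Set.mem_Iio]
    omega

theorem fam_NS (m h : ℕ) (hm : h < m) : NS (fam m h hm).carrier m where
  m_pos := by omega
  m_mem := by
    show (m ≤ m ∧ m < 2 * m - h) ∨ 2 * m ≤ m
    omega
  le := by
    rintro x (⟨h1, _⟩ | h1) <;> omega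
  add := (fam m h hm).add_mem
  cof := ⟨2 * m, fun x hx => Or.inr hx⟩

theorem fam_kap (m h : ℕ) (hm : h < m) {z : ℕ} (hz : z ∈ TT (fam m h hm).carrier m) :
    kap (fam m h hm).carrier m z = 0 := by
  rw [mem_TT] at hz
  unfold kap
  have : 0 ∈ {k | z + (k + 1) * m ∈ (fam m h hm).carrier} := by
    show (m ≤ z + (0 + 1) * m ∧ z + (0 + 1) * m < 2 * m - h) ∨ 2 * m ≤ z + (0 + 1) * m
    omega
  have := Nat.sInf_le this
  omega

theorem fam_TT (m h : ℕ) (hm : h < m) : TT (fam m h hm).carrier m = Ico (2 * m - h) (2 * m) := by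
  ext x
  rw [mem_TT, mem_Ico]
  show (m ≤ x ∧ x < 2 * m ∧ ¬ ((m ≤ x ∧ x < 2 * m - h) ∨ 2 * m ≤ x)) ↔ _
  omega

theorem fam_AA (m h : ℕ) (hm : h < m) : AA (fam m h hm).carrier m = Ico m (2 * m - h) := by
  ext x
  rw [mem_AA, mem_Ico]
  show (m ≤ x ∧ x < 2 * m ∧ ((m ≤ x ∧ x < 2 * m - h) ∨ 2 * m ≤ x)) ↔ _
  omega

theorem fam_htot (m h : ℕ) (hm : h < m) : htot (fam m h hm).carrier m = h := by
  rw [htot_eq, sum_eq_zero (fun z hz => fam_kap m h hm hz), fam_TT, Nat.card_Ico]
  omega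

theorem fam_wtot (m h : ℕ) (hm : h < m) : wtot (fam m h hm).carrier m = h * (m - h) := by
  have hNS := fam_NS m h hm
  unfold wtot
  have : ∀ z ∈ TT (fam m h hm).carrier m,
      ∑ j ∈ range (kap (fam m h hm).carrier m z + 1), nn (fam m h hm).carrier (z + j * m)
        = m - h := by
    intro z hz
    rw [fam_kap m h hm hz]
    have hz' := mem_TT.1 hz
    rw [zero_add, sum_range_one, zero_mul, add_zero, hNS.nn_small hz'.2.1]
    unfold aa
    rw [fam_AA]
    rw [fam_TT, mem_Ico] at hz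
    rw [filter_true_of_mem (by intro x hx; rw [mem_Ico] at hx; omega), Nat.card_Ico]
    omega
  rw [sum_congr rfl this, sum_const, smul_eq_mul, fam_TT, Nat.card_Ico]
  congr 1
  omega

theorem fam_genus (m h : ℕ) (hm : h < m) : (fam m h hm).genus + 1 = m + h := by
  rw [(fam m h hm).genus_eq (fam_NS m h hm), fam_htot]

theorem fam_weight (m h : ℕ) (hm : h < m) : (fam m h hm).effWeight = h * (m - h) := by
  rw [(fam m h hm).effWeight_eq_wtot (fam_NS m h hm), fam_wtot]

theorem NumSgp.ext' {T T' : NumSgp} (h : T.carrier = T'.carrier) : T = T' := by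
  cases T; cases T'
  simp only at h
  subst h
  rfl

end H14EW
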