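import Pool.Agent.H14.EWTheory

namespace H14EW

open Finset Classical

variable {S : Set ℕ} {m : ℕ}

theorem NS.big3 (h : NS S m) (h1 : m < 2 * (AA S m).card) {y : ℕ} (hy : 3 * m ≤ y) :
    y ∈ S ∧ ¬ Irr S y := by
  have : NeZero m := ⟨h.m_pos.ne'⟩
  have hex : ∃ a ∈ AA S m, ∃ b ∈ AA S m, a + b ≡ y [MOD m] := by
    by_contra hcon
    push Not at hcon
    have := card_DD (S := S) (m := m) y (fun a ha b hb => hcon a ha b hb)
    omega
  obtain ⟨a, ha, b, hb, hab⟩ := hex
  rw [mem_AA] at ha hb
  have hle : a + b ≤ y := by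
    by_contra hlt
    push Not at hlt
    obtain ⟨j, hj⟩ := (Nat.modEq_iff_dvd' hlt.le).1 hab.symm
    have hj0 : j ≠ 0 := by rintro rfl; omega
    have : m * 1 ≤ m * j := Nat.mul_le_mul_left _ (Nat.one_le_iff_ne_zero.2 hj0)
    omega
  obtain ⟨j, hj⟩ := (Nat.modEq_iff_dvd' hle).1 hab
  have hy' : y = (a + j * m) + b := by rw [mul_comm]; omega
  have haj := h.add_mul ha.2.2 j
  constructor
  · rw [hy']; exact h.add _ haj _ hb.2.2
  · intro hI
    exact hI.2 _ haj _ hb.2.2 hy'.symm

theorem NS.kap_le1 (h : NS S m) (h1 : m < 2 * (AA S m).card) {z : ℕ} (hz : z ∈ TT S m) :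
    kap S m z ≤ 1 := by
  have hz' := mem_TT.1 hz
  unfold kap
  apply Nat.sInf_le
  show z + (1 + 1) * m ∈ S
  exact (h.big3 h1 (by omega)).1

theorem NS.irr_kap0 (h : NS S m) (h1 : m < 2 * (AA S m).card) {z : ℕ} (hz : z ∈ TT S m)
    (hI : Irr S (WW S m z)) : kap S m z = 0 := by
  have hz' := mem_TT.1 hz
  have hk := h.kap_le1 h1 hz
  by_contra hne
  have hk1 : kap S m z = 1 := by omega
  refine (h.big3 h1 ?_).2 hI
  unfold WW
  rw [hk1]; omega

theorem NS.class_I (h : NS S m) (h1 : m < 2 * (AA S m).card) {z : ℕ} (hz : z ∈ TT S m) :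
    ∑ j ∈ range (kap S m z + 1), nn S (z + j * m) ≤
      aa S m z + (if ¬ Irr S (WW S m z) ∧ kap S m z ≠ 0 then
        (AA S m).card + ((GG S m).filter (fun z' => z' < z)).card else 0) := by
  rw [h.class_sum hz]
  have hk := h.kap_le1 h1 hz
  rcases Nat.eq_zero_or_pos (kap S m z) with h0 | h0
  · rw [h0]
    have : ∑ x ∈ UU S m (z + 0 * m), cc m z 0 x = 0 := by
      apply sum_eq_zero
      intro x _
      have := cc_le m z 0 x
      omega
    rw [this]; simp
  · have hk1 : kap S m z = 1 := by omega
    have hnI : ¬ Irr S (WW S m z) := fun hI => by have := h.irr_kap0 h1 hz hI; omega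
    rw [if_pos ⟨hnI, by omega⟩, hk1]
    have hC : ∑ x ∈ UU S m (z + 1 * m), cc m z 1 x ≤ (UU S m (z + 1 * m)).card := by
      rw [card_eq_sum_ones]
      apply sum_le_sum
      intro x _
      exact cc_le m z 1 x
    have hU := h.card_UU_le (z + 1 * m)
    have hU2 : ((GG S m).filter (fun z' => WW S m z' < z + 1 * m)).card ≤
        ((GG S m).filter (fun z' => z' < z)).card := by
      apply card_le_card
      intro x hx
      rw [mem_filter] at hx ⊢
      refine ⟨hx.1, ?_⟩
      have : x + 1 * m ≤ WW S m x := by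
        unfold WW
        have : 1 * m ≤ (kap S m x + 1) * m := Nat.mul_le_mul_right _ (by omega)
        omega
      omega
    omega

theorem NS.htot_I (h : NS S m) (h1 : m < 2 * (AA S m).card) :
    htot S m = (TT S m).card + (R3 S m).card := by
  rw [htot_eq]
  congr 1
  unfold R3
  rw [card_filter]
  apply sum_congr rfl
  intro z hz
  have hk := h.kap_le1 h1 hz
  by_cases hI : Irr S (WW S m z)
  · rw [if_neg (by tauto), h.irr_kap0 h1 hz hI]
  · rcases Nat.eq_zero_or_pos (kap S m z) with h0 | h0
    · rw [h0, if_neg (by tauto)]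
    · rw [if_pos ⟨hI, by omega⟩]; omega

theorem sum_TT (f : ℕ → ℕ) :
    ∑ z ∈ TT S m, f z = ∑ z ∈ GG S m, f z + ∑ z ∈ R2 S m, f z + ∑ z ∈ R3 S m, f z := by
  rw [TT_eq, sum_union, sum_union]
  · ring
  · rw [disjoint_left]
    intro z hz hz2
    simp only [R2, R3, mem_filter] at hz hz2
    exact hz2.2.2 hz.2.2
  · rw [disjoint_left]
    intro z hz hz2
    simp only [GG, R2, R3, mem_union, mem_filter] at hz hz2
    tauto

theorem NS.total_I (h : NS S m) (h1 : m < 2 * (AA S m).card) :
    wtot S m ≤ ∑ z ∈ R2 S m, aa S m z +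
      ∑ z' ∈ GG S m, (aa S m z' + ((R3 S m).filter (fun z => z' < z)).card) +
      (∑ z ∈ R3 S m, aa S m z + (R3 S m).card * (AA S m).card) := by
  have hsum := sum_le_sum (fun z (hz : z ∈ TT S m) => h.class_I h1 hz)
  rw [sum_add_distrib, ← sum_filter] at hsum
  have e2 : (TT S m).filter (fun z => ¬ Irr S (WW S m z) ∧ kap S m z ≠ 0) = R3 S m := rfl
  rw [e2, sum_add_distrib, sum_const, smul_eq_mul, sum_TT (aa S m)] at hsum
  have hswap : ∑ z ∈ R3 S m, ((GG S m).filter (fun z' => z' < z)).card =
      ∑ z' ∈ GG S m, ((R3 S m).filter (fun z => z' < z)).card := by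
    simp_rw [card_filter]
    exact sum_comm
  rw [hswap] at hsum
  rw [sum_add_distrib]
  unfold wtot
  omega

theorem NS.refl_R3 (h : NS S m) {z : ℕ} (hz : z ∈ R3 S m) :
    aa S m z ≤ ((TT S m).filter (fun z' => z' ≤ z)).card := by
  apply h.refl_TN
  simp only [R3, TN, mem_filter] at hz ⊢
  exact ⟨hz.1, by tauto⟩

theorem NS.refl_GG (h : NS S m) {z : ℕ} (hz : z ∈ GG S m) :
    aa S m z ≤ ((TT S m).filter (fun z' => z' ≤ z)).card := by
  apply h.refl_TN
  simp only [GG, TN, mem_filter] at hz ⊢
  exact ⟨hz.1, by tauto⟩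

theorem aa_mono {z z' : ℕ} (hle : z ≤ z') : aa S m z ≤ aa S m z' := by
  unfold aa
  apply card_le_card
  intro x hx
  rw [mem_filter] at hx ⊢
  exact ⟨hx.1, by omega⟩

/-- polynomial inequality (A) -/
theorem polyA (α r g p : ℕ) (hg : 1 ≤ g) (ha : r + g + p + 1 ≤ α) :
    8 * (r * α + g * (r + g + p) + p * (r + g + p + α)) + 8 ≤ (α + 2 * (r + g + p) + p) ^ 2 := by
  obtain ⟨a, rfl⟩ := Nat.exists_eq_add_of_le ha
  -- α = r + g + p + 1 + a
  have key : ((r + g + p + 1 + a + 2 * (r + g + p) + p : ℤ)) ^ 2 -
      8 * (r * (r + g + p + 1 + a) + g * (r + g + p) + p * (r + g + p + (r + g + p + 1 + a)))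
      = ((1 + a : ℤ) - r) ^ 2 + g ^ 2 + 6 * (1 + a) * g + 2 * r * g := by ring
  have hg' : (1 : ℤ) ≤ g := by exact_mod_cast hg
  have hr : (0 : ℤ) ≤ r := by positivity
  have ha' : (0 : ℤ) ≤ a := by positivity
  have h8 : (8 : ℤ) ≤ ((1 + a : ℤ) - r) ^ 2 + g ^ 2 + 6 * (1 + a) * g + 2 * r * g := by
    rcases Nat.eq_zero_or_pos r with h0 | h0
    · subst h0
      push_cast
      nlinarith [mul_nonneg ha' (sub_nonneg.2 hg')]
    · have hr' : (1 : ℤ) ≤ r := by exact_mod_cast h0
      nlinarith [mul_nonneg ha' (sub_nonneg.2 hg'), sq_nonneg ((1 + a : ℤ) - r),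
        mul_nonneg (sub_nonneg.2 hr') (sub_nonneg.2 hg')]
  have : (8 * (r * (r + g + p + 1 + a) + g * (r + g + p) + p * (r + g + p + (r + g + p + 1 + a))) + 8
      : ℤ) ≤ (r + g + p + 1 + a + 2 * (r + g + p) + p) ^ 2 := by linarith
  exact_mod_cast this

/-- polynomial inequality (B) -/
theorem polyB (α rm rp p : ℕ) (hp : 1 ≤ p) (hr : 1 ≤ rm + rp) (ha : rm + rp + p + 1 ≤ α) :
    8 * (rm * (rm + rp + p) + rp * α + p * (rm + p + α)) + 8 ≤
      (α + 2 * (rm + rp + p) + p) ^ 2 := by
  obtain ⟨a, rfl⟩ := Nat.exists_eq_add_of_le ha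
  have key : ((rm + rp + p + 1 + a + 2 * (rm + rp + p) + p : ℤ)) ^ 2 -
      8 * (rm * (rm + rp + p) + rp * (rm + rp + p + 1 + a) + p * (rm + p + (rm + rp + p + 1 + a)))
      = ((1 + a : ℤ) - (rm + rp)) ^ 2 + 8 * rm * (1 + a) + 8 * p * rp := by ring
  have h1 : (0 : ℤ) ≤ a := by positivity
  have h2 : (1 : ℤ) ≤ p := by exact_mod_cast hp
  have h3 : (0 : ℤ) ≤ rm := by positivity
  have h4 : (0 : ℤ) ≤ rp := by positivity
  have h5 : (1 : ℤ) ≤ rm + rp := by exact_mod_cast hr
  have h6 := mul_nonneg h3 h1
  have h7 := mul_nonneg (sub_nonneg.2 h2) h4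
  have h8 := sq_nonneg ((1 + a : ℤ) - (rm + rp))
  have : (8 * (rm * (rm + rp + p) + rp * (rm + rp + p + 1 + a) +
      p * (rm + p + (rm + rp + p + 1 + a))) + 8 : ℤ) ≤
      (rm + rp + p + 1 + a + 2 * (rm + rp + p) + p) ^ 2 := by nlinarith
  exact_mod_cast this

theorem polyC (α t : ℕ) (ht : 1 ≤ t) (ha : t + 1 ≤ α) (hb : 15 ≤ α + 3 * t) :
    4 * (t * (t + 1) + 2 * (t * α)) + 8 ≤ (α + 3 * t) ^ 2 := by
  obtain ⟨a, rfl⟩ := Nat.exists_eq_add_of_le ha
  have key : ((t + 1 + a + 3 * t : ℤ)) ^ 2 - 4 * (t * (t + 1) + 2 * (t * (t + 1 + a)))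
      = (1 + a : ℤ) ^ 2 + 4 * t * (t - 1) := by ring
  have h1 : (0 : ℤ) ≤ a := by positivity
  have h8 : (8 : ℤ) ≤ (1 + a : ℤ) ^ 2 + 4 * t * (t - 1) := by
    rcases Nat.lt_or_ge t 2 with h | h
    · have : t = 1 := by omega
      subst this
      have h2 : (10 : ℤ) ≤ a := by omega
      push_cast
      nlinarith
    · have h2 : (2 : ℤ) ≤ t := by exact_mod_cast h
      nlinarith
  have : (4 * (t * (t + 1) + 2 * (t * (t + 1 + a))) + 8 : ℤ) ≤ (t + 1 + a + 3 * t) ^ 2 := by
    linarith
  exact_mod_cast this

theorem polyD (α t w : ℕ) (hw : w + 1 ≤ t * α) : 8 * w + 8 ≤ (α + 2 * t) ^ 2 := by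
  have h1 : (8 * (t * α) : ℤ) ≤ (α + 2 * t) ^ 2 := by nlinarith [sq_nonneg ((α : ℤ) - 2 * t)]
  have h2 : 8 * (t * α) ≤ (α + 2 * t) ^ 2 := by exact_mod_cast h1
  omega

theorem polyE (α t : ℕ) (hc : ¬ (α ≤ 2 * t + 2 ∧ 2 * t ≤ α + 2)) :
    8 * (t * α) + 8 ≤ (α + 2 * t) ^ 2 := by
  have key : ((α : ℤ) + 2 * t) ^ 2 - 8 * (t * α) = ((α : ℤ) - 2 * t) ^ 2 := by ring
  have h9 : (9 : ℤ) ≤ ((α : ℤ) - 2 * t) ^ 2 := by
    have : (3 : ℤ) ≤ (α : ℤ) - 2 * t ∨ (α : ℤ) - 2 * t ≤ -3 := by omega
    rcases this with h | h <;> nlinarith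
  have h2 : (8 * (t * α) + 8 : ℤ) ≤ (α + 2 * t) ^ 2 := by linarith
  exact_mod_cast h2

theorem sum_le_filter (s : Finset ℕ) :
    2 * ∑ z ∈ s, (s.filter (fun z' => z' ≤ z)).card = s.card * (s.card + 1) := by
  have h1 : ∀ z ∈ s, (s.filter (fun z' => z' ≤ z)).card = (s.filter (fun z' => z' < z)).card + 1 := by
    intro z hz
    have : s.filter (fun z' => z' ≤ z) = insert z (s.filter (fun z' => z' < z)) := by
      ext x
      simp only [mem_filter, mem_insert]
      constructor
      · rintro ⟨a, b⟩
        rcases lt_or_eq_of_le b with c | c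
        · exact Or.inr ⟨a, c⟩
        · exact Or.inl c
      · rintro (rfl | ⟨a, b⟩)
        · exact ⟨hz, le_rfl⟩
        · exact ⟨a, b.le⟩
    rw [this, card_insert_of_notMem]
    simp
  rw [sum_congr rfl h1, sum_add_distrib, sum_const, smul_eq_mul, mul_one]
  have h2 := sum_rank id (fun j => j) s (Set.injOn_id _)
  simp only [id] at h2
  rw [h2, mul_add, mul_comm 2 (∑ j ∈ range s.card, j), Finset.sum_range_id_mul_two]
  rcases Nat.eq_zero_or_pos s.card with h0 | h0
  · rw [h0]
  · obtain ⟨k, hk⟩ : ∃ k, s.card = k + 1 := ⟨s.card - 1, by omega⟩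
    rw [hk]; simp only [Nat.add_sub_cancel]; ring

theorem NS.caseI (h : NS S m) (h1 : m < 2 * (AA S m).card) (hbig : 15 ≤ m + htot S m) :
    8 * wtot S m + 8 ≤ (m + htot S m) ^ 2 ∨
      ((m ≤ 3 * htot S m + 2 ∧ 3 * htot S m ≤ m + 2) ∧
        wtot S m = htot S m * (m - htot S m) ∧
        ∀ x, x ∈ S ↔ (m ≤ x ∧ x < 2 * m - htot S m) ∨ 2 * m ≤ x) := by
  have hα := h.card_AA_pos
  have hmt := card_AA_TT (S := S) (m := m)
  have hT := card_TT_eq (S := S) (m := m)
  have hH := h.htot_I h1
  have hW := h.total_I h1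
  obtain ⟨α, hαd⟩ : ∃ α, α = (AA S m).card := ⟨_, rfl⟩
  obtain ⟨t, htd⟩ : ∃ t, t = (TT S m).card := ⟨_, rfl⟩
  obtain ⟨g, hgd⟩ : ∃ g, g = (GG S m).card := ⟨_, rfl⟩
  obtain ⟨r, hrd⟩ : ∃ r, r = (R2 S m).card := ⟨_, rfl⟩
  obtain ⟨p, hpd⟩ : ∃ p, p = (R3 S m).card := ⟨_, rfl⟩
  have hmH : m + htot S m = α + 2 * t + p := by omega
  have hrA : ∀ z, aa S m z ≤ α := fun z => by rw [hαd]; exact aa_le z
  have hR2 : ∑ z ∈ R2 S m, aa S m z ≤ r * α := by
    rw [hrd, ← smul_eq_mul]; exact sum_le_card_nsmul _ _ _ (fun z _ => hrA z)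
  have hR3t : ∀ z ∈ R3 S m, aa S m z ≤ t := by
    intro z hz
    have h3 := h.refl_R3 hz
    have h4 : ((TT S m).filter (fun z' => z' ≤ z)).card ≤ (TT S m).card := card_filter_le _ _
    omega
  have hR3 : ∑ z ∈ R3 S m, aa S m z ≤ p * t := by
    rw [hpd, ← smul_eq_mul]; exact sum_le_card_nsmul _ _ _ hR3t
  have hGG : ∑ z' ∈ GG S m, (aa S m z' + ((R3 S m).filter (fun z => z' < z)).card) ≤ g * t := by
    rw [hgd, ← smul_eq_mul]
    apply sum_le_card_nsmul
    intro z hz
    have h2 := h.refl_GG hz
    have h3 : ((TT S m).filter (fun z' => z' ≤ z)).card +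
        ((R3 S m).filter (fun z' => z < z')).card ≤ (TT S m).card := by
      rw [← card_union_of_disjoint]
      · apply card_le_card
        intro x hx
        simp only [mem_union, mem_filter, R3] at hx
        tauto
      · rw [disjoint_left]
        intro x hx hx2
        rw [mem_filter] at hx hx2
        omega
    omega
  rw [← hpd, ← hαd] at hW
  rcases Nat.eq_zero_or_pos g with hg0 | hg0
  · -- no large generators
    have hGe : GG S m = ∅ := by rw [← card_eq_zero]; omega
    have hGG0 : ∑ z' ∈ GG S m, (aa S m z' + ((R3 S m).filter (fun z => z' < z)).card) = 0 := by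
      rw [hGe]; simp
    rw [hGG0] at hW
    rcases Nat.eq_zero_or_pos p with hp0 | hp0
    · -- all gaps below `2m`
      have hR3e : R3 S m = ∅ := by rw [← card_eq_zero]; omega
      have hR2e : R2 S m = TT S m := by
        rw [TT_eq, hGe, hR3e]; simp
      have hkap0 : ∀ z ∈ TT S m, kap S m z = 0 := by
        intro z hz
        rw [← hR2e] at hz
        exact (mem_filter.1 hz).2.2
      by_cases hinv : ∃ z ∈ TT S m, ∃ x ∈ AA S m, z < x
      · left
        rw [hmH, hp0, add_zero]
        apply polyD
        obtain ⟨z, hz, x, hx, hzx⟩ := hinv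
        have h2 : ∑ z ∈ TT S m, aa S m z < ∑ z ∈ TT S m, α := by
          apply sum_lt_sum (fun z _ => hrA z)
          refine ⟨z, hz, ?_⟩
          rw [hαd]
          unfold aa
          apply card_lt_card
          rw [ssubset_iff_subset_ne]
          refine ⟨filter_subset _ _, ?_⟩
          intro heq
          rw [← heq] at hx
          have := (mem_filter.1 hx).2
          omega
        rw [sum_const, smul_eq_mul, ← htd] at h2
        rw [hR2e, hR3e] at hW
        simp only [sum_empty, hp0, zero_mul, add_zero] at hW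
        omega
      · push Not at hinv
        by_cases hc : α ≤ 2 * t + 2 ∧ 2 * t ≤ α + 2
        · right
          have hHt : htot S m = t := by omega
          rw [hHt]
          -- structure
          have hAA : AA S m = Ico m (m + α) := by
            have hsub : ∀ x ∈ AA S m, x < m + α := by
              intro x hx
              have hx' := mem_AA.1 hx
              -- all of `[m, x]` is in AA
              have h3 : Icc m x ⊆ AA S m := by
                intro y hy
                rw [mem_Icc] at hy
                by_contra hcon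
                have hyT : y ∈ TT S m := by
                  rw [mem_TT]
                  refine ⟨hy.1, by omega, ?_⟩
                  intro hyS
                  exact hcon (mem_AA.2 ⟨hy.1, by omega, hyS⟩)
                have h5 := hinv y hyT x hx
                have hyx : y ≠ x := by rintro rfl; exact hcon hx
                omega
              have h4 := card_le_card h3
              rw [Nat.card_Icc] at h4
              omega
            apply eq_of_subset_of_card_le
            · intro x hx
              rw [mem_Ico]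
              exact ⟨(mem_AA.1 hx).1, hsub x hx⟩
            · rw [Nat.card_Ico]; omega
          have hmem : ∀ x, m ≤ x → x < 2 * m → (x ∈ S ↔ x < m + α) := by
            intro x hx1 hx2
            constructor
            · intro hxS
              have : x ∈ AA S m := mem_AA.2 ⟨hx1, hx2, hxS⟩
              rw [hAA, mem_Ico] at this
              exact this.2
            · intro hx3
              have : x ∈ AA S m := by rw [hAA, mem_Ico]; exact ⟨hx1, hx3⟩
              exact (mem_AA.1 this).2.2
          refine ⟨by omega, ?_, ?_⟩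
          · -- weight
            have hw : wtot S m = ∑ z ∈ TT S m, α := by
              unfold wtot
              apply sum_congr rfl
              intro z hz
              rw [hkap0 z hz]
              have hz' := mem_TT.1 hz
              rw [zero_add, sum_range_one, zero_mul, add_zero, h.nn_small hz'.2.1, hαd]
              unfold aa
              congr 1
              apply filter_true_of_mem
              intro x hx
              have h5 := hinv z hz x hx
              have hx' := mem_AA.1 hx
              rcases Nat.lt_or_ge x z with h6 | h6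
              · exact h6
              · have : x = z := le_antisymm h5 h6
                subst this
                exact absurd hx'.2.2 hz'.2.2
            rw [hw, sum_const, smul_eq_mul, ← htd]
            congr 1
            omega
          · intro x
            constructor
            · intro hx
              have := h.le x hx
              rcases Nat.lt_or_ge x (2 * m) with h6 | h6
              · left
                have := (hmem x this h6).1 hx
                omega
              · right; exact h6
            · rintro (⟨h6, h7⟩ | h6)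
              · exact (hmem x h6 (by omega)).2 (by omega)
              · -- x ≥ 2m
                have hlt := Nat.mod_lt x h.m_pos
                have hmod : m + x % m ≡ x [MOD m] := by
                  unfold Nat.ModEq; simp
                by_cases hzS : m + x % m ∈ S
                · exact h.of_modEq hzS (by omega) hmod
                · have hzT : m + x % m ∈ TT S m := mem_TT.2 ⟨by omega, by omega, hzS⟩
                  have hk := hkap0 _ hzT
                  have h8 := h.kap_mem (m + x % m)
                  rw [hk] at h8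
                  have hmod2 : m + x % m + (0 + 1) * m ≡ x [MOD m] := by
                    unfold Nat.ModEq; simp
                  apply h.of_modEq h8 _ hmod2
                  -- m + x % m + m ≤ x
                  have h9 : m + x % m ≤ x := by omega
                  obtain ⟨j, hj⟩ := (Nat.modEq_iff_dvd' h9).1 hmod
                  have hj0 : j ≠ 0 := by rintro rfl; omega
                  have : m * 1 ≤ m * j := Nat.mul_le_mul_left _ (Nat.one_le_iff_ne_zero.2 hj0)
                  omega
        · left
          rw [hmH, hp0, add_zero]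
          have h2 := polyE α t hc
          rw [hR3e] at hW
          simp only [sum_empty, hp0, zero_mul, add_zero] at hW
          have : r = t := by omega
          rw [this] at hR2
          omega
    · -- some gap above `2m`
      left
      have hne : (R3 S m).Nonempty := by rw [← card_pos]; omega
      obtain ⟨zs, hzs, hmax⟩ := exists_max_image (R3 S m) id hne
      simp only [id] at hmax
      obtain ⟨rm, hrm⟩ : ∃ rm, rm = ((R2 S m).filter (fun z => z < zs)).card := ⟨_, rfl⟩
      obtain ⟨rp, hrp⟩ : ∃ rp, rp = ((R2 S m).filter (fun z => ¬ z < zs)).card := ⟨_, rfl⟩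
      have hrs : rm + rp = r := by
        rw [hrm, hrp, hrd]; exact card_filter_add_card_filter_not _
      have hzsT : zs ∈ TT S m := (mem_filter.1 hzs).1
      have haz : aa S m zs ≤ rm + p := by
        have h3 := h.refl_R3 hzs
        have h4 : ((TT S m).filter (fun z' => z' ≤ zs)).card ≤
            ((R2 S m).filter (fun z => z < zs)).card + (R3 S m).card := by
          refine le_trans (card_le_card ?_) (card_union_le _ _)
          intro x hx
          rw [mem_filter] at hx
          have hx1 := hx.1
          rw [TT_eq, hGe, empty_union, mem_union] at hx1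
          rw [mem_union, mem_filter]
          rcases hx1 with h5 | h5
          · left
            refine ⟨h5, lt_of_le_of_ne hx.2 ?_⟩
            rintro rfl
            simp only [R2, R3, mem_filter] at h5 hzs
            exact hzs.2.2 h5.2.2
          · right; exact h5
        omega
      have hR3' : ∑ z ∈ R3 S m, aa S m z ≤ p * (rm + p) := by
        have h7 : ∑ z ∈ R3 S m, aa S m z ≤ (R3 S m).card • (rm + p) := by
          apply sum_le_card_nsmul
          intro z hz
          exact (aa_mono (hmax z hz)).trans haz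
        rw [smul_eq_mul, ← hpd] at h7
        exact h7
      rcases Nat.eq_zero_or_pos r with hr0 | hr0
      · -- T = R3
        have hR2e : R2 S m = ∅ := by rw [← card_eq_zero]; omega
        have hR3e : R3 S m = TT S m := by
          rw [TT_eq, hGe, hR2e]; simp
        have h3 : ∑ z ∈ R3 S m, aa S m z ≤
            ∑ z ∈ TT S m, ((TT S m).filter (fun z' => z' ≤ z)).card := by
          rw [← hR3e]
          apply sum_le_sum
          intro z hz
          have h4 := h.refl_R3 hz
          rw [← hR3e] at h4
          exact h4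
        have h5 := sum_le_filter (TT S m)
        rw [← htd] at h5
        have hpt : p = t := by omega
        have h6 := polyC α t (by omega) (by omega) (by omega)
        rw [hmH, hpt, show α + 2 * t + t = α + 3 * t by ring]
        rw [hR2e, hpt] at hW
        simp only [sum_empty, zero_add, add_zero] at hW
        omega
      · have h3 : ∑ z ∈ R2 S m, aa S m z ≤ rm * t + rp * α := by
          rw [← sum_filter_add_sum_filter_not (R2 S m) (fun z => z < zs)]
          apply Nat.add_le_add
          · rw [hrm, ← smul_eq_mul]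
            apply sum_le_card_nsmul
            intro z hz
            rw [mem_filter] at hz
            have h4 := aa_mono (S := S) (m := m) (z := z) (z' := zs) (by omega)
            exact h4.trans (hR3t zs hzs)
          · rw [hrp, ← smul_eq_mul]
            exact sum_le_card_nsmul _ _ _ (fun z _ => hrA z)
        have h6 := polyB α rm rp p (by omega) (by omega) (by omega)
        have htr : rm + rp + p = t := by omega
        rw [htr] at h6
        rw [hmH]
        have e : p * (rm + p + α) = p * (rm + p) + p * α := by ring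
        rw [e] at h6
        omega
  · left
    have h6 := polyA α r g p hg0 (by omega)
    have htr : r + g + p = t := by omega
    rw [htr] at h6
    rw [hmH]
    have e : p * (t + α) = p * t + p * α := by ring
    rw [e] at h6
    omega

/-- **Main dichotomy**, for `g + 1 = m + h ≥ 15`. -/
theorem NS.main (h : NS S m) (hbig : 15 ≤ m + htot S m) :
    8 * wtot S m + 8 ≤ (m + htot S m) ^ 2 ∨
      ((m ≤ 3 * htot S m + 2 ∧ 3 * htot S m ≤ m + 2) ∧
        wtot S m = htot S m * (m - htot S m) ∧
        ∀ x, x ∈ S ↔ (m ≤ x ∧ x < 2 * m - htot S m) ∨ 2 * m ≤ x) := by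
  rcases Nat.lt_or_ge m (2 * (AA S m).card) with h1 | h1
  · exact h.caseI h1 hbig
  · left; exact h.caseII h1 hbig

end H14EW
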