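import Mathlib

/-! Core lemmas on numerical semigroups (Apéry classes modulo the multiplicity), used for the
maximum effective weight. -/

namespace H14EW

open Finset Classical

/-- `S` is a numerical semigroup (of positive integers) with multiplicity `m`. -/
structure NS (S : Set ℕ) (m : ℕ) : Prop where
  m_pos : 0 < m
  m_mem : m ∈ S
  le : ∀ x ∈ S, m ≤ x
  add : ∀ x ∈ S, ∀ y ∈ S, x + y ∈ S
  cof : ∃ N, ∀ x, N ≤ x → x ∈ S

variable {S : Set ℕ} {m : ℕ}

/-- irreducible elements -/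
def Irr (S : Set ℕ) (x : ℕ) : Prop := x ∈ S ∧ ∀ a ∈ S, ∀ b ∈ S, a + b ≠ x

theorem NS.add_mul (h : NS S m) {x : ℕ} (hx : x ∈ S) (j : ℕ) : x + j * m ∈ S := by
  induction j with
  | zero => simpa
  | succ j ih =>
    have := h.add _ ih _ h.m_mem
    rwa [show x + j * m + m = x + (j + 1) * m by ring] at this

theorem NS.of_modEq (h : NS S m) {x y : ℕ} (hx : x ∈ S) (hxy : x ≤ y)
    (hmod : x ≡ y [MOD m]) : y ∈ S := by
  obtain ⟨j, hj⟩ := (Nat.modEq_iff_dvd' hxy).1 hmod
  have : y = x + j * m := by rw [mul_comm]; omega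
  rw [this]; exact h.add_mul hx j

/-- an element of `S` strictly below an irreducible element is in another class -/
theorem NS.irr_unique (h : NS S m) {x s : ℕ} (hx : Irr S x) (hs : s ∈ S) (hlt : s < x)
    (hmod : s ≡ x [MOD m]) : False := by
  obtain ⟨j, hj⟩ := (Nat.modEq_iff_dvd' hlt.le).1 hmod
  have hj0 : j ≠ 0 := by rintro rfl; omega
  obtain ⟨i, rfl⟩ := Nat.exists_eq_succ_of_ne_zero hj0
  have h1 : x = (s + i * m) + m := by
    have : x = s + m * (i + 1) := by simp only [Nat.succ_eq_add_one] at hj; omega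
    rw [this]; ring
  exact hx.2 _ (h.add_mul hs i) _ h.m_mem h1.symm

/-- number of gaps `z + j m`, `j ≥ 1`. -/
noncomputable def kap (S : Set ℕ) (m z : ℕ) : ℕ := sInf {k | z + (k + 1) * m ∈ S}

theorem NS.kap_mem (h : NS S m) (z : ℕ) : z + (kap S m z + 1) * m ∈ S := by
  have : {k | z + (k + 1) * m ∈ S}.Nonempty := by
    obtain ⟨N, hN⟩ := h.cof
    exact ⟨N, hN _ (by nlinarith [h.m_pos])⟩
  exact Nat.sInf_mem this

theorem kap_not {z j : ℕ} (h1 : 1 ≤ j) (h2 : j ≤ kap S m z) : z + j * m ∉ S := by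
  obtain ⟨i, rfl⟩ := Nat.exists_eq_add_of_le' h1
  have : i < sInf {k | z + (k + 1) * m ∈ S} := by unfold kap at h2; omega
  have := Nat.notMem_of_lt_sInf this
  simpa using this

/-- elements of `S` in `[m, 2m)` -/
noncomputable def AA (S : Set ℕ) (m : ℕ) : Finset ℕ := (Ico m (2 * m)).filter (· ∈ S)
/-- gaps in `[m, 2m)` -/
noncomputable def TT (S : Set ℕ) (m : ℕ) : Finset ℕ := (Ico m (2 * m)).filter (· ∉ S)

theorem mem_AA {x : ℕ} : x ∈ AA S m ↔ m ≤ x ∧ x < 2 * m ∧ x ∈ S := by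
  simp [AA, and_assoc]
theorem mem_TT {x : ℕ} : x ∈ TT S m ↔ m ≤ x ∧ x < 2 * m ∧ x ∉ S := by
  simp [TT, and_assoc]

theorem card_AA_TT : (AA S m).card + (TT S m).card = m := by
  have := Finset.card_filter_add_card_filter_not (s := Ico m (2 * m)) (fun x => x ∈ S)
  simp only [Nat.card_Ico] at this
  unfold AA TT
  omega

/-- a sum of two elements of `S` in the class of `z ∈ T` is at least the Apéry element -/
theorem NS.apery_le (h : NS S m) {z s : ℕ} (hz : z ∈ TT S m) (hs : s ∈ S)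
    (hmod : s ≡ z [MOD m]) : z + (kap S m z + 1) * m ≤ s := by
  rw [mem_TT] at hz
  by_contra hlt
  push Not at hlt
  have hms := h.le s hs
  rcases le_total s z with hsz | hzs
  · -- s ≤ z
    exact hz.2.2 (h.of_modEq hs hsz hmod)
  · obtain ⟨j, hj⟩ := (Nat.modEq_iff_dvd' hzs).1 hmod.symm
    have hs' : s = z + j * m := by rw [mul_comm]; omega
    have hjk : j ≤ kap S m z := by
      by_contra hcon
      push Not at hcon
      have : (kap S m z + 1) * m ≤ j * m := Nat.mul_le_mul_right _ hcon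
      omega
    rcases Nat.eq_zero_or_pos j with h0 | hpos
    · subst h0; simp at hs'; subst hs'; exact hz.2.2 hs
    · exact kap_not hpos hjk (hs' ▸ hs)

/-- if moreover the Apéry element is irreducible, a sum is at least `m` more -/
theorem NS.apery_lt (h : NS S m) {z a b : ℕ} (hz : z ∈ TT S m)
    (hirr : Irr S (z + (kap S m z + 1) * m)) (ha : a ∈ S) (hb : b ∈ S)
    (hmod : a + b ≡ z [MOD m]) : z + (kap S m z + 2) * m ≤ a + b := by
  have h1 := h.apery_le hz (h.add a ha b hb) hmod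
  have h2 : a + b ≠ z + (kap S m z + 1) * m := hirr.2 a ha b hb
  have h3 : z + (kap S m z + 1) * m ≡ z [MOD m] := by
    unfold Nat.ModEq; simp
  have h4 : z + (kap S m z + 1) * m ≡ a + b [MOD m] := h3.trans hmod.symm
  obtain ⟨j, hj⟩ := (Nat.modEq_iff_dvd' h1).1 h4
  have hj0 : j ≠ 0 := by rintro rfl; omega
  have : m * 1 ≤ m * j := Nat.mul_le_mul_left _ (Nat.one_le_iff_ne_zero.2 hj0)
  have e : (kap S m z + 2) * m = (kap S m z + 1) * m + m := by ring
  omega

/-- irreducible elements in `[2m, y)` -/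
noncomputable def UU (S : Set ℕ) (m y : ℕ) : Finset ℕ :=
  (Ico (2 * m) y).filter (fun x => Irr S x)

theorem mem_UU {x y : ℕ} : x ∈ UU S m y ↔ 2 * m ≤ x ∧ x < y ∧ Irr S x := by
  simp [UU, and_assoc]

/-- number of gaps `z + j m`, `1 ≤ j ≤ κ`, above `x` -/
noncomputable def cc (m z k x : ℕ) : ℕ := ((Icc 1 k).filter (fun j => x < z + j * m)).card

theorem cc_le (m z k x : ℕ) : cc m z k x ≤ k := by
  unfold cc
  refine (card_filter_le _ _).trans ?_
  simp

theorem cc_lt {m z k x : ℕ} (hc : 1 ≤ cc m z k x) :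
    x + (cc m z k x - 1) * m < z + k * m := by
  by_contra hcon
  push Not at hcon
  have hck := cc_le m z k x
  set c := cc m z k x with hcdef
  have hsub : (Icc 1 k).filter (fun j => x < z + j * m) ⊆ Icc (k + 2 - c) k := by
    intro j hj
    rw [mem_filter, mem_Icc] at hj
    rw [mem_Icc]
    refine ⟨?_, hj.1.2⟩
    by_contra hjj
    push Not at hjj
    -- j + c - 1 ≤ k
    have : j + (c - 1) ≤ k := by omega
    have h2 : (j + (c - 1)) * m ≤ k * m := Nat.mul_le_mul_right _ this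
    rw [Nat.add_mul] at h2
    omega
  have := card_le_card hsub
  rw [Nat.card_Icc] at this
  have : cc m z k x ≤ k + 1 - (k + 2 - c) := this
  omega

theorem sum_g_eq (S : Set ℕ) (m z k : ℕ) :
    ∑ j ∈ Icc 1 k, (UU S m (z + j * m)).card = ∑ x ∈ UU S m (z + k * m), cc m z k x := by
  have h1 : ∀ j ∈ Icc 1 k, (UU S m (z + j * m)).card =
      ∑ x ∈ UU S m (z + k * m), if x < z + j * m then 1 else 0 := by
    intro j hj
    rw [mem_Icc] at hj
    rw [← card_filter]
    congr 1
    ext x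
    simp only [mem_filter, mem_UU]
    have : j * m ≤ k * m := Nat.mul_le_mul_right _ hj.2
    constructor
    · rintro ⟨a, b, c⟩; exact ⟨⟨a, by omega, c⟩, b⟩
    · rintro ⟨⟨a, b, c⟩, d⟩; exact ⟨a, d, c⟩
  rw [sum_congr rfl h1, sum_comm]
  refine sum_congr rfl ?_
  intro x hx
  unfold cc
  rw [card_filter]

end H14EW
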