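import Pool.Agent.H14.EWBridge

/-! Verified enumeration of the numerical semigroups of small genus, as bit masks of gaps. -/

namespace H14EW

/-- `x` is an element of the semigroup with gap mask `G` -/
def el (G x : ℕ) : Bool := decide (0 < x) && !(G.testBit x)

/-- `x` is irreducible in the semigroup with gap mask `G` -/
def irrB (G x : ℕ) : Bool := el G x && (List.range x).all (fun a => !(el G a && el G (x - a)))

/-- all gap masks of numerical semigroups of genus `g` -/
def enum : ℕ → List ℕ
  | 0 => [0]
  | g + 1 => (enum g).flatMap (fun G =>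
      ((List.range (2 * g + 2)).filter (fun x => irrB G x && decide (G < 2 ^ x))).map
        (fun x => G ||| 2 ^ x))

/-- one step of the computation of the weight -/
def wStep (G n : ℕ) (p : ℕ × ℕ) : ℕ × ℕ :=
  (if G.testBit n then p.1 + p.2 else p.1, if irrB G n then p.2 + 1 else p.2)

/-- (weight, number of irreducibles), counting below `n` -/
def wAux (G : ℕ) : ℕ → ℕ × ℕ
  | 0 => (0, 0)
  | n + 1 => wStep G n (wAux G n)

/-- mask of a list -/
def maskL (L : List ℕ) : ℕ := L.foldr (fun x acc => acc ||| 2 ^ x) 0

open Finset Classical

/-- the mask `G` represents the gap set of `T` -/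
def Rep (T : NumSgp) (G : ℕ) : Prop := ∀ x, G.testBit x = true ↔ x ∈ T.gapF

theorem Rep.el_iff {T : NumSgp} {G : ℕ} (h : Rep T G) (x : ℕ) :
    el G x = true ↔ x ∈ T.carrier := by
  unfold el
  rw [Bool.and_eq_true, decide_eq_true_iff, Bool.not_eq_true', ← Bool.not_eq_true, h x,
    T.mem_gapF]
  constructor
  · rintro ⟨h1, h2⟩
    by_contra hcon
    exact h2 ⟨h1, hcon⟩
  · intro hx
    exact ⟨T.pos x hx, fun h2 => h2.2 hx⟩

theorem Rep.irr_iff {T : NumSgp} {G : ℕ} (h : Rep T G) (x : ℕ) :
    irrB G x = true ↔ Irr T.carrier x := by
  unfold irrB Irr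
  rw [Bool.and_eq_true, h.el_iff, List.all_eq_true]
  refine and_congr_right fun hx => ?_
  constructor
  · intro h1 a ha b hb hab
    have hbpos := T.pos b hb
    have h2 := h1 a (List.mem_range.2 (by omega))
    rw [Bool.not_eq_true', ← Bool.not_eq_true, Bool.and_eq_true, h.el_iff, h.el_iff] at h2
    exact h2 ⟨ha, by rw [show x - a = b by omega]; exact hb⟩
  · intro h1 a ha
    rw [List.mem_range] at ha
    rw [Bool.not_eq_true', ← Bool.not_eq_true, Bool.and_eq_true, h.el_iff, h.el_iff]
    rintro ⟨h2, h3⟩
    exact h1 a h2 _ h3 (by omega)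

theorem Rep.wAux_eq {T : NumSgp} {G : ℕ} (h : Rep T G) (n : ℕ) :
    wAux G n = (∑ y ∈ T.gapF.filter (fun y => y < n), nn T.carrier y, nn T.carrier n) := by
  induction n with
  | zero =>
    unfold wAux nn
    simp
  | succ n ih =>
    unfold wAux
    rw [ih]
    unfold wStep
    have h2 : nn T.carrier (n + 1) = if Irr T.carrier n then nn T.carrier n + 1
        else nn T.carrier n := by
      unfold nn
      rw [range_add_one, filter_insert]
      split_ifs with hI
      · rw [card_insert_of_notMem]
        simp
      · rfl
    have h1 : ∑ y ∈ T.gapF.filter (fun y => y < n + 1), nn T.carrier y =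
        if n ∈ T.gapF then ∑ y ∈ T.gapF.filter (fun y => y < n), nn T.carrier y + nn T.carrier n
        else ∑ y ∈ T.gapF.filter (fun y => y < n), nn T.carrier y := by
      split_ifs with hn
      · have : T.gapF.filter (fun y => y < n + 1) =
            insert n (T.gapF.filter (fun y => y < n)) := by
          ext x
          rw [mem_filter, mem_insert, mem_filter]
          constructor
          · rintro ⟨a, b⟩
            rcases lt_or_eq_of_le (Nat.lt_succ_iff.1 b) with c | c
            · exact Or.inr ⟨a, c⟩
            · exact Or.inl c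
          · rintro (rfl | ⟨a, b⟩)
            · exact ⟨hn, Nat.lt_succ_self _⟩
            · exact ⟨a, by omega⟩
        rw [this, sum_insert (by simp)]
        ring
      · apply sum_congr _ (fun _ _ => rfl)
        ext x
        rw [mem_filter, mem_filter]
        constructor
        · rintro ⟨a, b⟩
          refine ⟨a, lt_of_le_of_ne (Nat.lt_succ_iff.1 b) ?_⟩
          rintro rfl; exact hn a
        · rintro ⟨a, b⟩; exact ⟨a, by omega⟩
    rw [h1, h2]
    have e1 : (G.testBit n = true) = (n ∈ T.gapF) := propext (h n)
    have e2 : (irrB G n = true) = (Irr T.carrier n) := propext (h.irr_iff n)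
    simp only [e1, e2]

/-- gaps are less than `2 g` -/
theorem NumSgp.gap_lt (T : NumSgp) {x : ℕ} (hx : x ∈ T.gapF) : x < 2 * T.genus := by
  rw [T.genus_eq_card]
  rw [T.mem_gapF] at hx
  -- pairs `a`, `x - a`
  by_contra hcon
  push Not at hcon
  -- elements of S below x
  have h1 : ((Ico 1 x).filter (fun a => a ∈ T.carrier)).card ≤
      ((Ico 1 x).filter (fun a => a ∉ T.carrier)).card := by
    apply card_le_card_of_injOn (fun a => x - a)
    · intro a ha
      rw [mem_coe, mem_filter, mem_Ico] at ha ⊢
      beta_reduce
      refine ⟨by omega, ?_⟩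
      intro hS
      apply hx.2
      have := T.add_mem a ha.2 _ hS
      rwa [show a + (x - a) = x by omega] at this
    · intro a ha b hb hab
      rw [mem_coe, mem_filter, mem_Ico] at ha hb
      simp only at hab
      omega
  have h2 := card_filter_add_card_filter_not (s := Ico 1 x) (fun a => a ∈ T.carrier)
  rw [Nat.card_Ico] at h2
  have h3 : ((Ico 1 x).filter (fun a => a ∉ T.carrier)).card + 1 ≤ T.gapF.card := by
    rw [← card_insert_of_notMem (a := x) (s := (Ico 1 x).filter (fun a => a ∉ T.carrier))
      (by simp)]
    apply card_le_card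
    intro y hy
    rw [mem_insert, mem_filter, mem_Ico] at hy
    rw [T.mem_gapF]
    rcases hy with rfl | hy
    · exact hx
    · exact ⟨by omega, hy.2⟩
  omega

theorem Rep.weight {T : NumSgp} {G : ℕ} (h : Rep T G) {n : ℕ} (hn : 2 * T.genus ≤ n) :
    (wAux G n).1 = T.effWeight := by
  rw [h.wAux_eq, T.effWeight_eq]
  apply sum_congr _ (fun _ _ => rfl)
  apply filter_true_of_mem
  intro x hx
  have := T.gap_lt hx
  omega

/-- adding the largest gap `F` to the semigroup -/
theorem enum_complete (g : ℕ) : ∀ T : NumSgp, T.genus = g → ∃ G ∈ enum g, Rep T G := by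
  induction g with
  | zero =>
    intro T hT
    refine ⟨0, by simp [enum], ?_⟩
    rw [T.genus_eq_card, card_eq_zero] at hT
    intro x
    rw [hT]; simp
  | succ g ih =>
    intro T hT
    have hcard := hT
    rw [T.genus_eq_card] at hcard
    have hne : T.gapF.Nonempty := by rw [← card_pos]; omega
    obtain ⟨F, hF, hmax⟩ := exists_max_image T.gapF id hne
    simp only [id] at hmax
    have hF' := (T.mem_gapF F).1 hF
    -- everything above `F` is in the semigroup
    have habove : ∀ x, F < x → x ∈ T.carrier := by
      intro x hx
      by_contra hcon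
      have := hmax x ((T.mem_gapF x).2 ⟨by omega, hcon⟩)
      omega
    let T' : NumSgp :=
      { carrier := insert F T.carrier
        pos := by
          rintro x (rfl | hx)
          · exact hF'.1
          · exact T.pos x hx
        add_mem := by
          rintro x hx y hy
          have hx0 : 0 < x := by
            rcases hx with rfl | hx
            · exact hF'.1
            · exact T.pos x hx
          have hy0 : 0 < y := by
            rcases hy with rfl | hy
            · exact hF'.1
            · exact T.pos y hy
          rcases hx with rfl | hx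
          · exact Or.inr (habove _ (by omega))
          · rcases hy with rfl | hy
            · exact Or.inr (habove _ (by omega))
            · exact Or.inr (T.add_mem x hx y hy)
        finite_gaps := by
          apply T.finite_gaps.subset
          rintro x ⟨h1, h2⟩
          exact ⟨h1, fun h3 => h2 (Or.inr h3)⟩ }
    have hgap : T'.gapF = T.gapF.erase F := by
      ext x
      rw [T'.mem_gapF, mem_erase, T.mem_gapF]
      show (0 < x ∧ ¬ (x = F ∨ x ∈ T.carrier)) ↔ _
      tauto
    have hT' : T'.genus = g := by
      rw [T'.genus_eq_card, hgap, card_erase_of_mem hF]; omega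
    obtain ⟨G, hG, hrep⟩ := ih T' hT'
    refine ⟨G ||| 2 ^ F, ?_, ?_⟩
    · simp only [enum, List.mem_flatMap, List.mem_map, List.mem_filter, List.mem_range,
        Bool.and_eq_true, decide_eq_true_iff]
      refine ⟨G, hG, F, ⟨?_, ?_, ?_⟩, rfl⟩
      · have := T.gap_lt hF; omega
      · rw [hrep.irr_iff]
        refine ⟨Or.inl rfl, ?_⟩
        intro a ha b hb hab
        have ha0 := T'.pos a ha
        have hb0 := T'.pos b hb
        have ha1 : a ∈ T.carrier := by
          rcases ha with rfl | ha
          · omega
          · exact ha
        have hb1 : b ∈ T.carrier := by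
          rcases hb with rfl | hb
          · omega
          · exact hb
        exact hF'.2 (hab ▸ T.add_mem a ha1 b hb1)
      · apply Nat.lt_pow_two_of_testBit
        intro i hi
        rw [← Bool.not_eq_true, hrep i, hgap, mem_erase]
        rintro ⟨h1, h2⟩
        have := hmax i h2
        omega
    · intro x
      rw [Nat.testBit_or, Nat.testBit_two_pow, Bool.or_eq_true, hrep x, hgap, mem_erase,
        decide_eq_true_iff]
      constructor
      · rintro (h1 | h1)
        · exact h1.2
        · exact h1 ▸ hF
      · intro h1
        by_cases hx : F = x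
        · exact Or.inr hx
        · exact Or.inl ⟨fun h => hx h.symm, h1⟩

theorem testBit_maskL (L : List ℕ) (x : ℕ) : (maskL L).testBit x = true ↔ x ∈ L := by
  induction L with
  | nil => simp [maskL]
  | cons a L ih =>
    have : maskL (a :: L) = maskL L ||| 2 ^ a := rfl
    rw [this, Nat.testBit_or, Nat.testBit_two_pow, Bool.or_eq_true, ih, decide_eq_true_iff,
      List.mem_cons]
    constructor
    · rintro (h | h)
      · exact Or.inr h
      · exact Or.inl h.symm
    · rintro (h | h)
      · exact Or.inr h.symm
      · exact Or.inl h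

theorem Rep.mask_iff {T : NumSgp} {G : ℕ} (h : Rep T G) (L : List ℕ) :
    maskL L = G ↔ T.gaps = {x | x ∈ L} := by
  have hg : ∀ x, x ∈ T.gaps ↔ x ∈ T.gapF := by
    intro x; rw [T.mem_gapF]; rfl
  constructor
  · intro h1
    ext x
    rw [hg, ← h x, ← h1, testBit_maskL]; rfl
  · intro h1
    apply Nat.eq_of_testBit_eq
    intro x
    rw [Bool.eq_iff_iff, testBit_maskL, h x, ← hg, h1]
    rfl

end H14EW
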