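import Pool.Agent.H14.EWSmall

namespace H14EW

open Finset Classical

/-- the threshold statement: `8 w + 8 > (g+1)^2` -/
def Big (T : NumSgp) : Prop := (T.genus + 1) ^ 2 < 8 * T.effWeight + 8

theorem mem_famL (m h x : ℕ) (hm : h < m) :
    x ∈ famL m h ↔ x ∈ (fam m h hm).gaps := by
  unfold famL
  rw [List.mem_filter, List.mem_range, Bool.or_eq_true, Bool.and_eq_true, decide_eq_true_iff,
    decide_eq_true_iff, decide_eq_true_iff]
  show _ ↔ (0 < x ∧ ¬ ((m ≤ x ∧ x < 2 * m - h) ∨ 2 * m ≤ x))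
  omega

theorem carrier_of_gaps {T T' : NumSgp} (h : T.gaps = T'.gaps) : T.carrier = T'.carrier := by
  ext x
  have h1 : x ∈ T.gaps ↔ x ∈ T'.gaps := by rw [h]
  unfold NumSgp.gaps at h1
  change (0 < x ∧ x ∉ T.carrier) ↔ (0 < x ∧ x ∉ T'.carrier) at h1
  constructor
  · intro hx
    have := T.pos x hx
    by_contra hcon
    exact (h1.2 ⟨this, hcon⟩).2 hx
  · intro hx
    have := T'.pos x hx
    by_contra hcon
    exact (h1.1 ⟨this, hcon⟩).2 hx

/-- upper bound and structure in genus `≤ 13` -/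
theorem small_genus (T : NumSgp) (hg : T.genus ≤ 13) :
    8 * T.effWeight ≤ (T.genus + 1) ^ 2 ∧
      (Big T ↔ ∃ L ∈ tableL T.genus, T.gaps = {x | x ∈ L}) := by
  obtain ⟨G, hG, hrep⟩ := enum_complete T.genus T rfl
  have hc := chk_all
  rw [List.all_eq_true] at hc
  have h1 := hc T.genus (List.mem_range.2 (by omega))
  unfold chk at h1
  rw [List.all_eq_true] at h1
  have h2 := h1 G hG
  rw [Bool.and_eq_true, decide_eq_true_iff, hrep.weight (by omega), beq_iff_eq] at h2
  refine ⟨h2.1, ?_⟩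
  unfold Big
  rw [← decide_eq_true_iff (p := (T.genus + 1) ^ 2 < 8 * T.effWeight + 8), h2.2, List.any_eq_true]
  constructor
  · rintro ⟨L, hL, hm⟩
    exact ⟨L, hL, (hrep.mask_iff L).1 (by simpa using hm)⟩
  · rintro ⟨L, hL, hm⟩
    exact ⟨L, hL, by simpa using (hrep.mask_iff L).2 hm⟩

/-- upper bound for all genera -/
theorem upper (T : NumSgp) : 8 * T.effWeight ≤ (T.genus + 1) ^ 2 := by
  rcases Nat.lt_or_ge T.genus 14 with hg | hg
  · exact (small_genus T (by omega)).1
  · obtain ⟨m, hm⟩ := T.exists_NS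
    have h1 := T.genus_eq hm
    have h2 := T.effWeight_eq_wtot hm
    rw [h1, h2]
    rcases hm.main (by omega) with h3 | ⟨⟨h3, h4⟩, h5, _⟩
    · omega
    · rw [h5]
      obtain ⟨H, hH⟩ : ∃ H, H = htot T.carrier m := ⟨_, rfl⟩
      rw [← hH] at h3 h4 ⊢
      rcases Nat.lt_or_ge m H with h6 | h6
      · have : m - H = 0 := by omega
        rw [this]; simp
      · obtain ⟨d, rfl⟩ := Nat.exists_eq_add_of_le h6
        rw [Nat.add_sub_cancel_left]
        have : (8 * (H * d) : ℤ) ≤ (H + d + H) ^ 2 := by nlinarith [sq_nonneg ((d : ℤ) - 2 * H)]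
        exact_mod_cast this

/-- the weight of a member of the family -/
theorem fam_big (g h : ℕ) (h1 : g + 1 ≤ 4 * h + 2) (h2 : 4 * h ≤ g + 3) (hm : h < g + 1 - h) :
    (fam (g + 1 - h) h hm).genus = g ∧ Big (fam (g + 1 - h) h hm) := by
  have hgen := fam_genus (g + 1 - h) h hm
  have hg : (fam (g + 1 - h) h hm).genus = g := by omega
  refine ⟨hg, ?_⟩
  unfold Big
  rw [hg, fam_weight]
  obtain ⟨d, hd⟩ : ∃ d, g + 1 - h - h = d := ⟨_, rfl⟩
  rw [hd]
  have hgd : g + 1 = d + 2 * h := by omega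
  rw [hgd]
  have h3 : (d : ℤ) - 2 * h ≤ 2 := by omega
  have h4 : -2 ≤ (d : ℤ) - 2 * h := by omega
  have h5 : ((d : ℤ) - 2 * h) ^ 2 ≤ 4 := by nlinarith
  have : ((d : ℤ) + 2 * h) ^ 2 < 8 * (h * d) + 8 := by nlinarith
  exact_mod_cast this

theorem exists_big (g : ℕ) : ∃ T : NumSgp, T.genus = g ∧ Big T := by
  have hm : (g + 2) / 4 < g + 1 - (g + 2) / 4 := by omega
  obtain ⟨h1, h2⟩ := fam_big g ((g + 2) / 4) (by omega) (by omega) hm
  exact ⟨_, h1, h2⟩

theorem big_iff_max (T : NumSgp) : T.IsMaximiser ↔ Big T := by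
  constructor
  · intro h
    obtain ⟨T', h1, h2⟩ := exists_big T.genus
    have h3 := h T' h1
    unfold Big at h2 ⊢
    rw [h1] at h2
    omega
  · intro h T' hT'
    have h1 := upper T'
    rw [hT'] at h1
    unfold Big at h
    omega

theorem greatest (g : ℕ) :
    IsGreatest {w | ∃ S : NumSgp, S.genus = g ∧ S.effWeight = w} ((g + 1) ^ 2 / 8) := by
  constructor
  · obtain ⟨T, h1, h2⟩ := exists_big g
    refine ⟨T, h1, ?_⟩
    have h3 := upper T
    unfold Big at h2
    rw [h1] at h2 h3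
    omega
  · rintro w ⟨T, h1, rfl⟩
    have h3 := upper T
    rw [h1] at h3
    omega

/-- the interval semigroups -/
theorem fam_closure (m h : ℕ) (hm : h < m) (h2 : 2 * h + 1 ≤ m) :
    (fam m h hm).IsGenByInterval m (2 * m - h - 1) := by
  unfold NumSgp.IsGenByInterval
  apply Set.Subset.antisymm
  · intro x
    induction x using Nat.strong_induction_on with
    | _ x ih =>
      intro hx
      have hx' : (m ≤ x ∧ x < 2 * m - h) ∨ 2 * m ≤ x := hx
      rcases hx' with hx' | hx'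
      · exact AddSubsemigroup.subset_closure ⟨hx'.1, by omega⟩
      · have hfm : m ∈ AddSubsemigroup.closure (Set.Icc m (2 * m - h - 1)) :=
          AddSubsemigroup.subset_closure ⟨le_rfl, by omega⟩
        have hfb : 2 * m - h - 1 ∈ AddSubsemigroup.closure (Set.Icc m (2 * m - h - 1)) :=
          AddSubsemigroup.subset_closure ⟨by omega, le_rfl⟩
        by_cases h3 : x - m ∈ (fam m h hm).carrier
        · have h4 := ih (x - m) (by omega) h3
          have h5 := AddSubsemigroup.add_mem _ h4 hfm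
          rwa [show x - m + m = x by omega] at h5
        · have h3' : ¬ ((m ≤ x - m ∧ x - m < 2 * m - h) ∨ 2 * m ≤ x - m) := h3
          have h4 : x - (2 * m - h - 1) ∈ (fam m h hm).carrier := by
            show (m ≤ x - (2 * m - h - 1) ∧ x - (2 * m - h - 1) < 2 * m - h) ∨
              2 * m ≤ x - (2 * m - h - 1)
            omega
          have h5 := ih _ (by omega) h4
          have h6 := AddSubsemigroup.add_mem _ h5 hfb
          rwa [show x - (2 * m - h - 1) + (2 * m - h - 1) = x by omega] at h6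
  · intro x hx
    let A : AddSubsemigroup ℕ :=
      { carrier := (fam m h hm).carrier
        add_mem' := fun {a b} ha hb => (fam m h hm).add_mem a ha b hb }
    have h3 : AddSubsemigroup.closure (Set.Icc m (2 * m - h - 1)) ≤ A := by
      rw [AddSubsemigroup.closure_le]
      rintro y ⟨h4, h5⟩
      show (m ≤ y ∧ y < 2 * m - h) ∨ 2 * m ≤ y
      omega
    exact h3 hx

theorem listed_ge10 (T : NumSgp) (hg : 10 ≤ T.genus) :
    Big T ↔ ∃ h : ℕ, |(T.genus : ℤ) + 1 - 4 * h| ≤ 2 ∧
      T.IsGenByInterval (T.genus + 1 - h) (2 * T.genus + 1 - 3 * h) := by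
  -- reduction to the family
  have hfam : (∃ h : ℕ, |(T.genus : ℤ) + 1 - 4 * h| ≤ 2 ∧
      T.IsGenByInterval (T.genus + 1 - h) (2 * T.genus + 1 - 3 * h)) ↔
      ∃ h, ∃ hm : h < T.genus + 1 - h, T.genus + 1 ≤ 4 * h + 2 ∧ 4 * h ≤ T.genus + 3 ∧
        T.carrier = (fam (T.genus + 1 - h) h hm).carrier := by
    constructor
    · rintro ⟨h, habs, hgen⟩
      rw [abs_le] at habs
      have hm : h < T.genus + 1 - h := by omega
      refine ⟨h, hm, by omega, by omega, ?_⟩
      have := fam_closure (T.genus + 1 - h) h hm (by omega)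
      have e : 2 * T.genus + 1 - 3 * h = 2 * (T.genus + 1 - h) - h - 1 := by omega
      rw [e] at hgen
      unfold NumSgp.IsGenByInterval at this hgen
      rw [this, hgen]
    · rintro ⟨h, hm, h1, h2, h3⟩
      refine ⟨h, by rw [abs_le]; omega, ?_⟩
      have := fam_closure (T.genus + 1 - h) h hm (by omega)
      have e : 2 * T.genus + 1 - 3 * h = 2 * (T.genus + 1 - h) - h - 1 := by omega
      rw [e]
      unfold NumSgp.IsGenByInterval at this ⊢
      rw [h3, this]
  rw [hfam]
  constructor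
  · intro hB
    rcases Nat.lt_or_ge T.genus 14 with hg14 | hg14
    · obtain ⟨L, hL, hgaps⟩ := (small_genus T (by omega)).2.1 hB
      unfold tableL at hL
      rw [if_neg (by omega), List.mem_map] at hL
      obtain ⟨h, hh, rfl⟩ := hL
      rw [List.mem_filter, Bool.and_eq_true, decide_eq_true_iff, decide_eq_true_iff] at hh
      have hm : h < T.genus + 1 - h := by omega
      refine ⟨h, hm, hh.2.1, hh.2.2, ?_⟩
      apply carrier_of_gaps
      rw [hgaps]
      ext x
      exact mem_famL _ _ _ hm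
    · obtain ⟨m, hm⟩ := T.exists_NS
      have h1 := T.genus_eq hm
      have h2 := T.effWeight_eq_wtot hm
      rcases hm.main (by omega) with h3 | ⟨⟨h3, h4⟩, h5, h6⟩
      · unfold Big at hB
        rw [h1, h2] at hB
        omega
      · obtain ⟨H, hH⟩ : ∃ H, H = htot T.carrier m := ⟨_, rfl⟩
        rw [← hH] at h1 h3 h4 h5 h6
        have hmH : m = T.genus + 1 - H := by omega
        refine ⟨H, by omega, by omega, by omega, ?_⟩
        ext x
        show _ ↔ ((T.genus + 1 - H ≤ x ∧ x < 2 * (T.genus + 1 - H) - H) ∨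
          2 * (T.genus + 1 - H) ≤ x)
        rw [h6 x]
        omega
  · rintro ⟨h, hm, h1, h2, h3⟩
    obtain ⟨h4, h5⟩ := fam_big T.genus h h1 h2 hm
    have : T = fam (T.genus + 1 - h) h hm := NumSgp.ext' h3
    rw [this]
    exact h5

theorem classification (T : NumSgp) : T.IsMaximiser ↔ T.Listed := by
  rw [big_iff_max]
  unfold NumSgp.Listed
  rcases Nat.lt_or_ge T.genus 10 with hg | hg
  · rw [(small_genus T (by omega)).2]
    unfold tableL
    rw [if_pos (by omega)]
    constructor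
    · intro h; exact Or.inl ⟨by omega, h⟩
    · rintro (h | h)
      · exact h.2
      · omega
  · rw [listed_ge10 T hg]
    constructor
    · intro h; exact Or.inr ⟨hg, h⟩
    · rintro (h | h)
      · omega
      · exact h.2

theorem maxEffWeight_eq (g : ℕ) : maxEffWeight g = (g + 1) ^ 2 / 8 :=
  (greatest g).csSup_eq

theorem limit : Filter.Tendsto (fun g : ℕ => (maxEffWeight g : ℝ) / (g : ℝ) ^ 2) Filter.atTop
    (nhds (1 / 8)) := by
  rw [tendsto_iff_norm_sub_tendsto_zero]
  have h1 : Filter.Tendsto (fun g : ℕ => (1 : ℝ) / (g : ℝ)) Filter.atTop (nhds 0) :=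
    tendsto_const_div_atTop_nhds_zero_nat 1
  refine squeeze_zero' (Filter.Eventually.of_forall fun _ => norm_nonneg _) ?_ h1
  filter_upwards [Filter.eventually_ge_atTop 7] with g hg
  rw [maxEffWeight_eq]
  have hg0 : (7 : ℝ) ≤ g := by exact_mod_cast hg
  have hgp : (0 : ℝ) < g := by linarith
  obtain ⟨M, hM⟩ : ∃ M, M = (g + 1) ^ 2 / 8 := ⟨_, rfl⟩
  rw [← hM]
  have h2 : 8 * M ≤ (g + 1) ^ 2 := by omega
  have h3 : (g + 1) ^ 2 ≤ 8 * M + 7 := by omega
  have h2' : (8 * M : ℝ) ≤ (g + 1) ^ 2 := by exact_mod_cast h2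
  have h3' : ((g : ℝ) + 1) ^ 2 ≤ 8 * M + 7 := by exact_mod_cast h3
  rw [Real.norm_eq_abs, abs_le]
  have e : (M : ℝ) / (g : ℝ) ^ 2 - 1 / 8 = (8 * M - (g : ℝ) ^ 2) / (8 * (g : ℝ) ^ 2) := by
    field_simp
  have e1 : (1 : ℝ) / g = (8 * g) / (8 * (g : ℝ) ^ 2) := by
    field_simp
  rw [e, e1, ← neg_div]
  constructor
  · apply div_le_div_of_nonneg_right _ (by positivity)
    nlinarith
  · apply div_le_div_of_nonneg_right _ (by positivity)
    nlinarith

theorem intervals (T : NumSgp) (hg : 10 ≤ T.genus) (hT : T.IsMaximiser) :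
    ∃ a b, 2 ≤ a ∧ a < b ∧ b < 2 * a ∧ T.IsGenByInterval a b := by
  obtain ⟨h, h1, h2⟩ := (listed_ge10 T hg).1 ((big_iff_max T).1 hT)
  rw [abs_le] at h1
  exact ⟨_, _, by omega, by omega, by omega, h2⟩

end H14EW
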