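import Pool.Agent.H14.EWCore

namespace H14EW

open Finset Classical

variable {S : Set ℕ} {m : ℕ}

/-- residues of `AA` -/
noncomputable def RA (S : Set ℕ) (m : ℕ) : Finset (ZMod m) := (AA S m).image (fun x : ℕ => (x : ZMod m))

theorem card_RA : (RA S m).card = (AA S m).card := by
  unfold RA
  apply card_image_of_injOn
  intro x hx y hy hxy
  simp only [mem_coe, mem_AA] at hx hy
  have hxy' : x ≡ y [MOD m] := (ZMod.natCast_eq_natCast_iff _ _ _).1 hxy
  rcases le_total x y with h | h
  · obtain ⟨j, hj⟩ := (Nat.modEq_iff_dvd' h).1 hxy'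
    rcases Nat.eq_zero_or_pos j with h0 | h0
    · subst h0; omega
    · have : m * 1 ≤ m * j := Nat.mul_le_mul_left _ h0
      omega
  · obtain ⟨j, hj⟩ := (Nat.modEq_iff_dvd' h).1 hxy'.symm
    rcases Nat.eq_zero_or_pos j with h0 | h0
    · subst h0; omega
    · have : m * 1 ≤ m * j := Nat.mul_le_mul_left _ h0
      omega

/-- weighted fiber sums -/
noncomputable def FF (S : Set ℕ) (m z k : ℕ) (l : ZMod m) : ℕ :=
  ∑ x ∈ (UU S m (z + k * m)).filter (fun x => ((x : ℕ) : ZMod m) = l), cc m z k x
noncomputable def uu (S : Set ℕ) (m z k : ℕ) (l : ZMod m) : ℕ :=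
  ((UU S m (z + k * m)).filter (fun x => ((x : ℕ) : ZMod m) = l)).card

theorem NS.fiber (h : NS S m) (z k : ℕ) (l : ZMod m) :
    (FF S m z k l = 0 ∧ uu S m z k l = 0) ∨
      ∃ x ∈ UU S m (z + k * m), ((x : ℕ) : ZMod m) = l ∧ FF S m z k l = cc m z k x ∧
        uu S m z k l = 1 := by
  rcases ((UU S m (z + k * m)).filter (fun x => ((x : ℕ) : ZMod m) = l)).eq_empty_or_nonempty
    with he | ⟨x, hx⟩
  · left; unfold FF uu; rw [he]; simp
  · right
    have hx' := mem_filter.1 hx
    refine ⟨x, hx'.1, hx'.2, ?_⟩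
    have : (UU S m (z + k * m)).filter (fun x => ((x : ℕ) : ZMod m) = l) = {x} := by
      ext y
      rw [mem_singleton]
      constructor
      · intro hy
        have hy' := mem_filter.1 hy
        have hmod : x ≡ y [MOD m] :=
          (ZMod.natCast_eq_natCast_iff _ _ _).1 (hx'.2.trans hy'.2.symm)
        have hxi := (mem_UU.1 hx'.1).2.2
        have hyi := (mem_UU.1 hy'.1).2.2
        rcases lt_trichotomy x y with hlt | heq | hlt
        · exact (h.irr_unique hyi hxi.1 hlt hmod).elim
        · exact heq.symm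
        · exact (h.irr_unique hxi hyi.1 hlt hmod.symm).elim
      · rintro rfl; exact hx
    unfold FF uu; rw [this]; simp

theorem sum_FF [NeZero m] (z k : ℕ) :
    ∑ l : ZMod m, FF S m z k l = ∑ x ∈ UU S m (z + k * m), cc m z k x := by
  unfold FF
  exact sum_fiberwise _ _ _

theorem sum_uu [NeZero m] (z k : ℕ) :
    ∑ l : ZMod m, uu S m z k l = (UU S m (z + k * m)).card := by
  unfold uu
  exact (card_eq_sum_card_fiberwise (f := fun x : ℕ => (x : ZMod m)) (by intro x _; simp)).symm

theorem sum_refl [NeZero m] (f : ZMod m → ℕ) (z : ZMod m) :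
    ∑ l : ZMod m, (f l + f (z - l)) = 2 * ∑ l : ZMod m, f l := by
  rw [sum_add_distrib]
  have : ∑ l : ZMod m, f (z - l) = ∑ l : ZMod m, f l :=
    Equiv.sum_comp (Equiv.subLeft z) f
  rw [this]; ring

/-- the set of residues `l` such that neither `l` nor `z - l` is the residue of an element of
`S ∩ [m,2m)`. -/
noncomputable def DD (S : Set ℕ) (m : ℕ) [NeZero m] (z : ZMod m) : Finset (ZMod m) :=
  univ.filter (fun l => l ∉ RA S m ∧ z - l ∉ RA S m)

theorem card_DD [NeZero m] (z : ℕ)
    (hdis : ∀ a ∈ AA S m, ∀ b ∈ AA S m, ¬ (a + b ≡ z [MOD m])) :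
    (DD S m (z : ZMod m)).card + 2 * (AA S m).card = m := by
  have h1 : (univ : Finset (ZMod m)).card = m := by
    rw [card_univ, ZMod.card]
  have h2 : Disjoint (RA S m) ((RA S m).image (fun l => (z : ZMod m) - l)) := by
    rw [disjoint_left]
    intro l hl hl2
    obtain ⟨l', hl', rfl⟩ := mem_image.1 hl2
    obtain ⟨a, ha, hal⟩ := mem_image.1 hl'
    obtain ⟨b, hb, hbl⟩ := mem_image.1 hl
    refine hdis a ha b hb ?_
    apply (ZMod.natCast_eq_natCast_iff _ _ _).1
    push_cast
    rw [hal, hbl]; ring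
  have h3 : (DD S m (z : ZMod m)) = univ \ (RA S m ∪ (RA S m).image (fun l => (z : ZMod m) - l)) := by
    ext l
    simp only [DD, mem_filter, mem_univ, true_and, mem_sdiff, mem_union, not_or]
    refine and_congr_right fun _ => ?_
    refine not_congr ?_
    rw [mem_image]
    constructor
    · intro hl; exact ⟨_, hl, by ring⟩
    · rintro ⟨l', hl', rfl⟩; simpa using hl'
  have h4 : ((RA S m).image (fun l => (z : ZMod m) - l)).card = (RA S m).card := by
    apply card_image_of_injective
    intro a b hab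
    simpa using hab
  have h5 := card_sdiff_add_card_eq_card (subset_univ
    (RA S m ∪ (RA S m).image (fun l => (z : ZMod m) - l)))
  rw [← h3, card_union_of_disjoint h2, h4, h1, card_RA] at h5
  omega

theorem cast_modEq {a b z : ℕ} {l : ZMod m} (h1 : (a : ZMod m) = l)
    (h2 : (b : ZMod m) = (z : ZMod m) - l) : a + b ≡ z [MOD m] := by
  apply (ZMod.natCast_eq_natCast_iff _ _ _).1
  push_cast
  rw [h1, h2]; ring

/-- an element of `UU` never lies in the class of an element of `AA` -/
theorem NS.UU_not_RA (h : NS S m) {y x : ℕ} (hx : x ∈ UU S m y) : (x : ZMod m) ∉ RA S m := by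
  intro hcon
  obtain ⟨a, ha, hax⟩ := mem_image.1 hcon
  rw [mem_UU] at hx
  rw [mem_AA] at ha
  exact h.irr_unique hx.2.2 ha.2.2 (by omega) ((ZMod.natCast_eq_natCast_iff _ _ _).1 hax)

/-- reducible Apéry element -/
theorem NS.pair_R (h : NS S m) {z : ℕ} (hz : z ∈ TT S m) (hk : 2 ≤ kap S m z) :
    2 * ∑ x ∈ UU S m (z + kap S m z * m), cc m z (kap S m z) x + 2 * kap S m z * (AA S m).card
      ≤ kap S m z * m + 2 * (UU S m (z + kap S m z * m)).card := by
  have : NeZero m := ⟨h.m_pos.ne'⟩
  set k := kap S m z with hkdef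
  have hzz := mem_TT.1 hz
  have hD := card_DD (S := S) (m := m) z (by
    intro a ha b hb hab
    rw [mem_AA] at ha hb
    have := h.apery_le hz (h.add a ha.2.2 b hb.2.2) hab
    have h3 : (2 + 1) * m ≤ (kap S m z + 1) * m := Nat.mul_le_mul_right _ (by omega)
    omega)
  have key : ∀ l : ZMod m, FF S m z k l + FF S m z k ((z : ZMod m) - l) ≤
      (if l ∈ DD S m (z : ZMod m) then k else 0) +
        (uu S m z k l + uu S m z k ((z : ZMod m) - l)) := by
    intro l
    have hmemD : l ∈ DD S m (z : ZMod m) ↔ l ∉ RA S m ∧ (z : ZMod m) - l ∉ RA S m := by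
      simp [DD]
    rcases h.fiber z k l with ⟨h1, h1'⟩ | ⟨x, hx, hxl, h1, h1'⟩ <;>
    rcases h.fiber z k ((z : ZMod m) - l) with ⟨h2, h2'⟩ | ⟨x', hx', hxl', h2, h2'⟩
    · rw [h1, h2]; simp
    · rw [h1, h2, h1', h2']
      have hc := cc_le m z k x'
      have hn := h.UU_not_RA hx'
      rw [hxl'] at hn
      split_ifs with hd
      · omega
      · have hl : l ∈ RA S m := by
          by_contra hl; exact hd (hmemD.2 ⟨hl, hn⟩)
        obtain ⟨a, ha, hal⟩ := mem_image.1 hl
        have ha' := mem_AA.1 ha
        have hx'' := mem_UU.1 hx'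
        have hle := h.apery_le hz (h.add a ha'.2.2 x' hx''.2.2.1) (cast_modEq hal hxl')
        have : cc m z k x' ≤ 1 := by
          by_contra hcc
          push Not at hcc
          have h5 := cc_lt (m := m) (z := z) (k := k) (x := x') (by omega)
          have h6 : 1 * m ≤ (cc m z k x' - 1) * m := Nat.mul_le_mul_right _ (by omega)
          have e : (k + 1) * m = k * m + m := by ring
          rw [← hkdef] at hle
          omega
        omega
    · rw [h1, h2, h1', h2']
      have hc := cc_le m z k x
      have hn := h.UU_not_RA hx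
      rw [hxl] at hn
      split_ifs with hd
      · omega
      · have hl : (z : ZMod m) - l ∈ RA S m := by
          by_contra hl; exact hd (hmemD.2 ⟨hn, hl⟩)
        obtain ⟨a, ha, hal⟩ := mem_image.1 hl
        have ha' := mem_AA.1 ha
        have hx'' := mem_UU.1 hx
        have hle := h.apery_le hz (h.add x hx''.2.2.1 a ha'.2.2) (cast_modEq hxl hal)
        have : cc m z k x ≤ 1 := by
          by_contra hcc
          push Not at hcc
          have h5 := cc_lt (m := m) (z := z) (k := k) (x := x) (by omega)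
          have h6 : 1 * m ≤ (cc m z k x - 1) * m := Nat.mul_le_mul_right _ (by omega)
          have e : (k + 1) * m = k * m + m := by ring
          rw [← hkdef] at hle
          omega
        omega
    · rw [h1, h2, h1', h2']
      have hn := h.UU_not_RA hx
      rw [hxl] at hn
      have hn' := h.UU_not_RA hx'
      rw [hxl'] at hn'
      rw [if_pos (hmemD.2 ⟨hn, hn'⟩)]
      have hx1 := mem_UU.1 hx
      have hx2 := mem_UU.1 hx'
      have hle := h.apery_le hz (h.add x hx1.2.2.1 x' hx2.2.2.1) (cast_modEq hxl hxl')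
      by_contra hcon
      push Not at hcon
      have hc1 := cc_le m z k x
      have hc2 := cc_le m z k x'
      have h5 := cc_lt (m := m) (z := z) (k := k) (x := x) (by omega)
      have h6 := cc_lt (m := m) (z := z) (k := k) (x := x') (by omega)
      -- c + c' ≥ k + 3
      have h7 : (k + 1) * m ≤ ((cc m z k x - 1) + (cc m z k x' - 1)) * m :=
        Nat.mul_le_mul_right _ (by omega)
      rw [Nat.add_mul (cc m z k x - 1)] at h7
      have e : (k + 1) * m = k * m + m := by ring
      rw [← hkdef] at hle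
      omega
  have hsum := sum_le_sum (fun l (_ : l ∈ (univ : Finset (ZMod m))) => key l)
  rw [sum_add_distrib (f := fun l => if l ∈ DD S m (z : ZMod m) then k else 0)] at hsum
  rw [sum_refl, sum_refl, sum_FF, sum_uu] at hsum
  rw [← sum_filter, sum_const, smul_eq_mul] at hsum
  have e1 : (univ.filter (fun l => l ∈ DD S m (z : ZMod m))) = DD S m (z : ZMod m) := by
    ext l; simp
  rw [e1] at hsum
  have e2 : ((DD S m (z : ZMod m)).card + 2 * (AA S m).card) * k = m * k := by
    rw [hD]
  nlinarith [hsum, e2]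

/-- irreducible Apéry element -/
theorem NS.pair_G (h : NS S m) {z : ℕ} (hz : z ∈ TT S m) (hk : 1 ≤ kap S m z)
    (hirr : Irr S (z + (kap S m z + 1) * m)) :
    2 * ∑ x ∈ UU S m (z + kap S m z * m), cc m z (kap S m z) x
        + 2 * (kap S m z + 1) * (AA S m).card ≤ (kap S m z + 1) * m ∧
    2 * ∑ x ∈ UU S m (z + kap S m z * m), cc m z (kap S m z) x + m
        + 2 * kap S m z * (AA S m).card
      ≤ kap S m z * m + 2 * (UU S m (z + kap S m z * m)).card + 2 * (AA S m).card := by
  have : NeZero m := ⟨h.m_pos.ne'⟩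
  set k := kap S m z with hkdef
  have hzz := mem_TT.1 hz
  have hD := card_DD (S := S) (m := m) z (by
    intro a ha b hb hab
    rw [mem_AA] at ha hb
    have := h.apery_lt hz hirr ha.2.2 hb.2.2 hab
    have h3 : (1 + 2) * m ≤ (kap S m z + 2) * m := Nat.mul_le_mul_right _ (by omega)
    omega)
  have key : ∀ l : ZMod m,
      (FF S m z k l + FF S m z k ((z : ZMod m) - l) ≤
        (if l ∈ DD S m (z : ZMod m) then k + 1 else 0)) ∧
      (FF S m z k l + FF S m z k ((z : ZMod m) - l) + (if l ∈ DD S m (z : ZMod m) then 1 else 0)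
        ≤ (if l ∈ DD S m (z : ZMod m) then k else 0) +
        (uu S m z k l + uu S m z k ((z : ZMod m) - l))) := by
    intro l
    have hmemD : l ∈ DD S m (z : ZMod m) ↔ l ∉ RA S m ∧ (z : ZMod m) - l ∉ RA S m := by
      simp [DD]
    rcases h.fiber z k l with ⟨h1, h1'⟩ | ⟨x, hx, hxl, h1, h1'⟩ <;>
    rcases h.fiber z k ((z : ZMod m) - l) with ⟨h2, h2'⟩ | ⟨x', hx', hxl', h2, h2'⟩
    · rw [h1, h2]
      split_ifs <;> omega
    · rw [h1, h2, h1', h2']
      have hc := cc_le m z k x'
      have hn := h.UU_not_RA hx'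
      rw [hxl'] at hn
      split_ifs with hd
      · omega
      · have hl : l ∈ RA S m := by
          by_contra hl; exact hd (hmemD.2 ⟨hl, hn⟩)
        obtain ⟨a, ha, hal⟩ := mem_image.1 hl
        have ha' := mem_AA.1 ha
        have hx'' := mem_UU.1 hx'
        have hle := h.apery_lt hz hirr ha'.2.2 hx''.2.2.1 (cast_modEq hal hxl')
        have e : (k + 2) * m = k * m + 2 * m := by ring
        rw [← hkdef] at hle
        omega
    · rw [h1, h2, h1', h2']
      have hc := cc_le m z k x
      have hn := h.UU_not_RA hx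
      rw [hxl] at hn
      split_ifs with hd
      · omega
      · have hl : (z : ZMod m) - l ∈ RA S m := by
          by_contra hl; exact hd (hmemD.2 ⟨hn, hl⟩)
        obtain ⟨a, ha, hal⟩ := mem_image.1 hl
        have ha' := mem_AA.1 ha
        have hx'' := mem_UU.1 hx
        have hle := h.apery_lt hz hirr hx''.2.2.1 ha'.2.2 (cast_modEq hxl hal)
        have e : (k + 2) * m = k * m + 2 * m := by ring
        rw [← hkdef] at hle
        omega
    · rw [h1, h2, h1', h2']
      have hn := h.UU_not_RA hx
      rw [hxl] at hn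
      have hn' := h.UU_not_RA hx'
      rw [hxl'] at hn'
      rw [if_pos (hmemD.2 ⟨hn, hn'⟩), if_pos (hmemD.2 ⟨hn, hn'⟩), if_pos (hmemD.2 ⟨hn, hn'⟩)]
      have hx1 := mem_UU.1 hx
      have hx2 := mem_UU.1 hx'
      have hle := h.apery_lt hz hirr hx1.2.2.1 hx2.2.2.1 (cast_modEq hxl hxl')
      have hmain : cc m z k x + cc m z k x' ≤ k + 1 := by
        by_contra hcon
        push Not at hcon
        have hc1 := cc_le m z k x
        have hc2 := cc_le m z k x'
        have h5 := cc_lt (m := m) (z := z) (k := k) (x := x) (by omega)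
        have h6 := cc_lt (m := m) (z := z) (k := k) (x := x') (by omega)
        -- c + c' ≥ k + 2
        have h7 : k * m ≤ ((cc m z k x - 1) + (cc m z k x' - 1)) * m :=
          Nat.mul_le_mul_right _ (by omega)
        rw [Nat.add_mul (cc m z k x - 1)] at h7
        have e : (k + 2) * m = k * m + 2 * m := by ring
        rw [← hkdef] at hle
        omega
      omega
  have e1 : (univ.filter (fun l => l ∈ DD S m (z : ZMod m))) = DD S m (z : ZMod m) := by
    ext l; simp
  constructor
  · have hsum := sum_le_sum (fun l (_ : l ∈ (univ : Finset (ZMod m))) => (key l).1)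
    rw [sum_refl, sum_FF] at hsum
    rw [← sum_filter, sum_const, smul_eq_mul, e1] at hsum
    have e2 : ((DD S m (z : ZMod m)).card + 2 * (AA S m).card) * (k + 1) = m * (k + 1) := by
      rw [hD]
    nlinarith [hsum, e2]
  · have hsum := sum_le_sum (fun l (_ : l ∈ (univ : Finset (ZMod m))) => (key l).2)
    rw [sum_add_distrib (f := fun l => if l ∈ DD S m (z : ZMod m) then k else 0),
      sum_add_distrib (g := fun l => if l ∈ DD S m (z : ZMod m) then 1 else 0)] at hsum
    rw [sum_refl, sum_refl, sum_FF, sum_uu] at hsum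
    rw [← sum_filter, sum_const, smul_eq_mul, ← sum_filter, sum_const, smul_eq_mul, e1] at hsum
    have e2 : ((DD S m (z : ZMod m)).card + 2 * (AA S m).card) * k = m * k := by
      rw [hD]
    nlinarith [hsum, e2]

end H14EW
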