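import Pool.Agent.H14.EWEnum

/-! The finite check for genus at most 13. -/

namespace H14EW

/-- gap list of `fam m h` -/
def famL (m h : ℕ) : List ℕ :=
  (List.range (2 * m)).filter (fun x => (decide (0 < x) && decide (x < m)) || decide (2 * m - h ≤ x))

/-- table for genus at most `13` -/
def tableL (g : ℕ) : List (List ℕ) :=
  if g ≤ 9 then smallTable g
  else ((List.range 6).filter (fun h => decide (g + 1 ≤ 4 * h + 2) && decide (4 * h ≤ g + 3))).map
    (fun h => famL (g + 1 - h) h)

def chk (g : ℕ) : Bool :=
  (enum g).all (fun G => decide (8 * (wAux G 28).1 ≤ (g + 1) ^ 2) &&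
    (decide ((g + 1) ^ 2 < 8 * (wAux G 28).1 + 8) == (tableL g).any (fun L => maskL L == G)))

set_option maxRecDepth 100000 in
theorem chk_all : (List.range 14).all chk = true := by decide +kernel

end H14EW
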