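import Pool.Agent.H14.EWPair

namespace H14EW

open Finset Classical

variable {S : Set ℕ} {m : ℕ}

/-- number of irreducible elements below `y` -/
noncomputable def nn (S : Set ℕ) (y : ℕ) : ℕ := ((range y).filter (fun x => Irr S x)).card
/-- number of elements of `AA` below `z` -/
noncomputable def aa (S : Set ℕ) (m z : ℕ) : ℕ := ((AA S m).filter (fun x => x < z)).card

theorem NS.irr_of_AA (h : NS S m) {x : ℕ} (hx : x ∈ AA S m) : Irr S x := by
  rw [mem_AA] at hx
  refine ⟨hx.2.2, ?_⟩
  intro a ha b hb hab
  have := h.le a ha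
  have := h.le b hb
  omega

theorem NS.nn_small (h : NS S m) {z : ℕ} (hz : z < 2 * m) : nn S z = aa S m z := by
  unfold nn aa
  congr 1
  ext x
  simp only [mem_filter, mem_range]
  constructor
  · rintro ⟨h1, h2⟩
    exact ⟨mem_AA.2 ⟨h.le x h2.1, by omega, h2.1⟩, h1⟩
  · rintro ⟨h1, h2⟩
    exact ⟨h2, h.irr_of_AA h1⟩

theorem NS.nn_big (h : NS S m) {y : ℕ} (hy : 2 * m ≤ y) :
    nn S y = (AA S m).card + (UU S m y).card := by
  unfold nn
  rw [← card_union_of_disjoint]
  · congr 1
    ext x
    simp only [mem_filter, mem_range, mem_union, mem_UU]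
    constructor
    · rintro ⟨h1, h2⟩
      rcases lt_or_ge x (2 * m) with h3 | h3
      · exact Or.inl (mem_AA.2 ⟨h.le x h2.1, h3, h2.1⟩)
      · exact Or.inr ⟨h3, h1, h2⟩
    · rintro (h1 | h1)
      · have := mem_AA.1 h1
        exact ⟨by omega, h.irr_of_AA h1⟩
      · exact ⟨h1.2.1, h1.2.2⟩
  · rw [disjoint_left]
    intro x hx hx2
    rw [mem_AA] at hx
    rw [mem_UU] at hx2
    omega

theorem sum_Icc_range (k : ℕ) (f : ℕ → ℕ) : ∑ j ∈ Icc 1 k, f j = ∑ j ∈ range k, f (j + 1) := by
  induction k with
  | zero => simp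
  | succ k ih => rw [sum_range_succ, ← ih, Finset.sum_Icc_succ_top (by omega)]

/-- contribution of a class -/
theorem NS.class_sum (h : NS S m) {z : ℕ} (hz : z ∈ TT S m) (k : ℕ) :
    ∑ j ∈ range (k + 1), nn S (z + j * m) =
      aa S m z + k * (AA S m).card + ∑ x ∈ UU S m (z + k * m), cc m z k x := by
  rw [mem_TT] at hz
  rw [sum_range_succ', ← sum_g_eq, sum_Icc_range]
  have h1 : ∀ j ∈ range k, nn S (z + (j + 1) * m) =
      (AA S m).card + (UU S m (z + (j + 1) * m)).card := by
    intro j _
    apply h.nn_big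
    nlinarith [Nat.zero_le (j * m)]
  rw [sum_congr rfl h1, sum_add_distrib, sum_const, card_range, smul_eq_mul]
  have h2 : nn S (z + 0 * m) = aa S m z := by
    rw [zero_mul, add_zero]; exact h.nn_small hz.2.1
  rw [h2]; ring

/-- Apéry element of the class of `z` -/
noncomputable def WW (S : Set ℕ) (m z : ℕ) : ℕ := z + (kap S m z + 1) * m

noncomputable def GG (S : Set ℕ) (m : ℕ) : Finset ℕ := (TT S m).filter (fun z => Irr S (WW S m z))
noncomputable def R2 (S : Set ℕ) (m : ℕ) : Finset ℕ :=
  (TT S m).filter (fun z => ¬ Irr S (WW S m z) ∧ kap S m z = 0)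
noncomputable def R3 (S : Set ℕ) (m : ℕ) : Finset ℕ :=
  (TT S m).filter (fun z => ¬ Irr S (WW S m z) ∧ kap S m z ≠ 0)
noncomputable def TN (S : Set ℕ) (m : ℕ) : Finset ℕ :=
  (TT S m).filter (fun z => ¬ (¬ Irr S (WW S m z) ∧ kap S m z = 0))

theorem NS.WW_modEq (z : ℕ) : WW S m z ≡ z [MOD m] := by
  unfold WW Nat.ModEq; simp

/-- the class representative of an irreducible element `≥ 2m` -/
theorem NS.rep (h : NS S m) {x : ℕ} (hx : Irr S x) (h2 : 2 * m ≤ x) :
    m + x % m ∈ GG S m ∧ WW S m (m + x % m) = x := by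
  have hmod : x ≡ m + x % m [MOD m] := by
    unfold Nat.ModEq; simp
  have hlt := Nat.mod_lt x h.m_pos
  have hT : m + x % m ∈ TT S m := by
    rw [mem_TT]
    refine ⟨by omega, by omega, ?_⟩
    intro hS
    exact h.irr_unique hx hS (by omega) hmod.symm
  have h3 := h.apery_le hT hx.1 hmod
  have h4 := h.kap_mem (m + x % m)
  have hW : WW S m (m + x % m) = x := by
    unfold WW
    by_contra hne
    exact h.irr_unique hx h4 (by omega) ((NS.WW_modEq (S := S) _).trans hmod.symm)
  refine ⟨?_, hW⟩
  unfold GG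
  rw [mem_filter, hW]
  exact ⟨hT, hx⟩

theorem NS.card_UU_le (h : NS S m) (y : ℕ) :
    (UU S m y).card ≤ ((GG S m).filter (fun z' => WW S m z' < y)).card := by
  apply card_le_card_of_injOn (fun x => m + x % m)
  · intro x hx
    rw [mem_coe, mem_UU] at hx
    obtain ⟨h1, h2⟩ := h.rep hx.2.2 hx.1
    rw [mem_coe, mem_filter]
    exact ⟨h1, by rw [h2]; exact hx.2.1⟩
  · intro x hx y hy hxy
    rw [mem_coe, mem_UU] at hx hy
    obtain ⟨_, h2⟩ := h.rep hx.2.2 hx.1
    obtain ⟨_, h3⟩ := h.rep hy.2.2 hy.1
    simp only at hxy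
    rw [← h2, hxy, h3]

theorem sum_rank (w f : ℕ → ℕ) (s : Finset ℕ) (hinj : Set.InjOn w s) :
    ∑ z ∈ s, f ((s.filter (fun z' => w z' < w z)).card) = ∑ j ∈ range s.card, f j := by
  revert hinj
  refine Finset.induction_on_max_value w s ?_ ?_
  · simp
  · intro a s ha hmax ih hinj
    have hinj' : Set.InjOn w (s : Set ℕ) := hinj.mono (by simp)
    have hlt : ∀ x ∈ s, w x < w a := by
      intro x hx
      refine lt_of_le_of_ne (hmax x hx) ?_
      intro heq
      have := hinj (by simp [hx]) (by simp) heq
      subst this; exact ha hx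
    rw [sum_insert ha, card_insert_of_notMem ha, sum_range_succ, ← ih hinj']
    have h1 : (insert a s).filter (fun z' => w z' < w a) = s := by
      ext x
      simp only [mem_filter, mem_insert]
      constructor
      · rintro ⟨rfl | h1, h2⟩
        · omega
        · exact h1
      · intro hx; exact ⟨Or.inr hx, hlt x hx⟩
    have h2 : ∀ z ∈ s, (insert a s).filter (fun z' => w z' < w z) =
        s.filter (fun z' => w z' < w z) := by
      intro z hz
      ext x
      simp only [mem_filter, mem_insert]
      constructor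
      · rintro ⟨rfl | h1, h2⟩
        · have := hlt z hz; omega
        · exact ⟨h1, h2⟩
      · rintro ⟨h1, h2⟩; exact ⟨Or.inr h1, h2⟩
    rw [h1, sum_congr rfl (fun z hz => by rw [h2 z hz])]
    ring

/-- the reflection bound -/
theorem refl_bound {z : ℕ} (hz : z ∈ TT S m)
    (hr : ∀ a ∈ S, a < z → z + m - a ∉ S) :
    aa S m z ≤ ((TT S m).filter (fun z' => z' ≤ z)).card := by
  rw [mem_TT] at hz
  apply card_le_card_of_injOn (fun a => z + m - a)
  · intro a ha
    rw [mem_coe, mem_filter, mem_AA] at ha
    rw [mem_coe, mem_filter, mem_TT]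
    simp only
    refine ⟨⟨by omega, by omega, hr a ha.1.2.2 ha.2⟩, by omega⟩
  · intro a ha b hb hab
    rw [mem_coe, mem_filter, mem_AA] at ha hb
    simp only at hab
    omega

theorem NS.refl_TN (h : NS S m) {z : ℕ} (hz : z ∈ TN S m) :
    aa S m z ≤ ((TT S m).filter (fun z' => z' ≤ z)).card := by
  unfold TN at hz
  rw [mem_filter] at hz
  obtain ⟨hz1, hz2⟩ := hz
  apply refl_bound hz1
  intro a ha haz haS
  have hsum : a + (z + m - a) = z + m := by omega
  by_cases hk : kap S m z = 0
  · have hirr : Irr S (WW S m z) := by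
      by_contra hcon; exact hz2 ⟨hcon, hk⟩
    unfold WW at hirr
    rw [hk] at hirr
    exact hirr.2 a ha _ haS (by rw [hsum]; ring)
  · have := kap_not (S := S) (m := m) (z := z) (j := 1) le_rfl (Nat.one_le_iff_ne_zero.2 hk)
    have h2 := h.add a ha _ haS
    rw [hsum] at h2
    exact this (by simpa using h2)

theorem aa_le (z : ℕ) : aa S m z ≤ (AA S m).card := card_filter_le _ _

theorem TT_eq : TT S m = GG S m ∪ (R2 S m ∪ R3 S m) := by
  ext z
  simp only [GG, R2, R3, mem_union, mem_filter]
  tauto

theorem card_TT_eq : (TT S m).card = (GG S m).card + (R2 S m).card + (R3 S m).card := by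
  rw [TT_eq, card_union_of_disjoint, card_union_of_disjoint]
  · ring
  · rw [disjoint_left]
    intro z hz hz2
    simp only [R2, R3, mem_filter] at hz hz2
    exact hz2.2.2 hz.2.2
  · rw [disjoint_left]
    intro z hz hz2
    simp only [GG, R2, R3, mem_union, mem_filter] at hz hz2
    tauto

theorem card_TN_eq : (TN S m).card = (GG S m).card + (R3 S m).card := by
  have : TN S m = GG S m ∪ R3 S m := by
    ext z
    simp only [TN, GG, R3, mem_union, mem_filter]
    tauto
  rw [this, card_union_of_disjoint]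
  rw [disjoint_left]
  intro z hz hz2
  simp only [GG, R3, mem_filter] at hz hz2
  tauto

/-- the level-1 loss -/
theorem NS.loss (h : NS S m) :
    ∑ j ∈ range (TN S m).card, ((AA S m).card - (R2 S m).card - 1 - j) ≤
      ∑ z ∈ TT S m, ((AA S m).card - aa S m z) := by
  rw [← sum_rank id _ (TN S m) (Set.injOn_id _)]
  have hsub : TN S m ⊆ TT S m := filter_subset _ _
  refine le_trans ?_ (sum_le_sum_of_subset hsub)
  apply sum_le_sum
  intro z hz
  have h1 := h.refl_TN hz
  have h2 : ((TT S m).filter (fun z' => z' ≤ z)).card ≤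
      (R2 S m).card + 1 + ((TN S m).filter (fun z' => z' < z)).card := by
    have : (TT S m).filter (fun z' => z' ≤ z) ⊆
        (R2 S m ∪ {z}) ∪ (TN S m).filter (fun z' => z' < z) := by
      intro x hx
      rw [mem_filter] at hx
      simp only [mem_union, mem_singleton, mem_filter, R2, TN]
      rcases lt_or_eq_of_le hx.2 with h3 | h3
      · by_cases h4 : ¬ Irr S (WW S m x) ∧ kap S m x = 0
        · left; left; exact ⟨hx.1, h4⟩
        · right; exact ⟨⟨hx.1, h4⟩, h3⟩
      · left; right; exact h3
    refine (card_le_card this).trans ((card_union_le _ _).trans ?_)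
    have := card_union_le (R2 S m) {z}
    simp only [card_singleton] at this
    omega
  simp only [id]
  omega

/-- the weight and the number of large gaps, class by class -/
noncomputable def wtot (S : Set ℕ) (m : ℕ) : ℕ :=
  ∑ z ∈ TT S m, ∑ j ∈ range (kap S m z + 1), nn S (z + j * m)
noncomputable def htot (S : Set ℕ) (m : ℕ) : ℕ := ∑ z ∈ TT S m, (kap S m z + 1)

/-- per class inequality, case II -/
theorem NS.class_II (h : NS S m) (h2 : 2 * (AA S m).card ≤ m) {z : ℕ} (hz : z ∈ TT S m) :
    2 * ∑ j ∈ range (kap S m z + 1), nn S (z + j * m) + (m - 2 * (AA S m).card)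
      + 2 * ((AA S m).card - aa S m z) ≤ m * (kap S m z + 1) +
      ((if Irr S (WW S m z) then min (m - 2 * (AA S m).card)
        (2 * ((GG S m).filter (fun z' => WW S m z' < WW S m z)).card - (m - 2 * (AA S m).card))
          else 0) +
       (if ¬ Irr S (WW S m z) ∧ kap S m z ≠ 0 then 2 * (GG S m).card else 0)) := by
  rw [h.class_sum hz]
  set k := kap S m z with hk
  set α := (AA S m).card with hα
  have haa : aa S m z ≤ α := aa_le z
  have hWlt : z + k * m < WW S m z := by
    unfold WW; rw [← hk]; have := h.m_pos; have : (k + 1) * m = k * m + m := by ring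
    omega
  have hU1 := h.card_UU_le (z + k * m)
  have hU2 : ((GG S m).filter (fun z' => WW S m z' < z + k * m)).card ≤
      ((GG S m).filter (fun z' => WW S m z' < WW S m z)).card := by
    apply card_le_card
    intro x hx
    rw [mem_filter] at hx ⊢
    exact ⟨hx.1, by omega⟩
  have hU3 : ((GG S m).filter (fun z' => WW S m z' < z + k * m)).card ≤ (GG S m).card :=
    card_filter_le _ _
  set U := (UU S m (z + k * m)).card with hU
  set rk := ((GG S m).filter (fun z' => WW S m z' < WW S m z)).card with hrk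
  set C := ∑ x ∈ UU S m (z + k * m), cc m z k x with hC
  have hkm : m * (k + 1) = k * m + m := by ring
  -- it is enough to bound `2 C + 2 k α`
  suffices hs : 2 * C + 2 * k * α ≤ k * m +
      ((if Irr S (WW S m z) then min (m - 2 * α) (2 * rk - (m - 2 * α)) else 0) +
       (if ¬ Irr S (WW S m z) ∧ k ≠ 0 then 2 * (GG S m).card else 0)) by
    rw [hkm]
    have e : 2 * k * α = 2 * (k * α) := by ring
    omega
  by_cases hI : Irr S (WW S m z)
  · rw [if_pos hI, if_neg (by tauto), add_zero]
    rcases Nat.eq_zero_or_pos k with h0 | h0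
    · have : C = 0 := by
        rw [hC]
        apply sum_eq_zero
        intro x _
        have := cc_le m z k x
        omega
      rw [this, h0]; simp
    · obtain ⟨p1, p2⟩ := h.pair_G hz h0 hI
      rw [← hk, ← hC, ← hα] at p1 p2
      rw [← hU] at p2
      have e1 : 2 * (k + 1) * α = 2 * k * α + 2 * α := by ring
      have e2 : (k + 1) * m = k * m + m := by ring
      have q1 : 2 * C + 2 * k * α ≤ k * m + (m - 2 * α) := by omega
      have q2 : 2 * C + 2 * k * α ≤ k * m + (2 * rk - (m - 2 * α)) := by omega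
      rcases min_choice (m - 2 * α) (2 * rk - (m - 2 * α)) with h3 | h3 <;> rw [h3]
      · exact q1
      · exact q2
  · rw [if_neg hI]
    rcases Nat.eq_zero_or_pos k with h0 | h0
    · have : C = 0 := by
        rw [hC]
        apply sum_eq_zero
        intro x _
        have := cc_le m z k x
        omega
      rw [this, h0]; simp
    · rw [if_pos ⟨hI, by omega⟩]
      rcases Nat.lt_or_ge k 2 with h1 | h1
      · have hk1 : k = 1 := by omega
        have : C ≤ U := by
          rw [hC, hU, card_eq_sum_ones]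
          apply sum_le_sum
          intro x _
          have := cc_le m z k x
          omega
        rw [hk1]
        omega
      · have p := h.pair_R hz h1
        rw [← hk, ← hC, ← hα, ← hU] at p
        omega

theorem WW_inj : Set.InjOn (WW S m) (TT S m : Set ℕ) := by
  intro x hx y hy hxy
  rw [mem_coe, mem_TT] at hx hy
  have h1 : x ≡ y [MOD m] := by
    have h2 := (NS.WW_modEq (S := S) (m := m) x).symm
    rw [hxy] at h2
    exact h2.trans (NS.WW_modEq y)
  rcases le_total x y with hle | hle
  · obtain ⟨j, hj⟩ := (Nat.modEq_iff_dvd' hle).1 h1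
    rcases Nat.eq_zero_or_pos j with h0 | h0
    · subst h0; omega
    · have : m * 1 ≤ m * j := Nat.mul_le_mul_left _ h0
      omega
  · obtain ⟨j, hj⟩ := (Nat.modEq_iff_dvd' hle).1 h1.symm
    rcases Nat.eq_zero_or_pos j with h0 | h0
    · subst h0; omega
    · have : m * 1 ≤ m * j := Nat.mul_le_mul_left _ h0
      omega

theorem NS.total_IIL (h : NS S m) (h2 : 2 * (AA S m).card ≤ m) :
    2 * wtot S m + (m - 2 * (AA S m).card) * (TT S m).card
      + 2 * ∑ z ∈ TT S m, ((AA S m).card - aa S m z)
      ≤ m * htot S m + 2 * (GG S m).card * (R3 S m).card +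
        ∑ j ∈ range (GG S m).card,
          min (m - 2 * (AA S m).card) (2 * j - (m - 2 * (AA S m).card)) := by
  have hsum := sum_le_sum (fun z (hz : z ∈ TT S m) => h.class_II h2 hz)
  rw [sum_add_distrib, sum_add_distrib, sum_add_distrib, sum_add_distrib, ← mul_sum, ← mul_sum,
    ← mul_sum, sum_const, smul_eq_mul] at hsum
  rw [← sum_filter, ← sum_filter, sum_const, smul_eq_mul] at hsum
  have hr := sum_rank (WW S m) (fun j => min (m - 2 * (AA S m).card)
    (2 * j - (m - 2 * (AA S m).card))) (GG S m)
    (WW_inj.mono (by intro x hx; rw [mem_coe] at hx ⊢; exact (mem_filter.1 hx).1))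
  have e1 : (TT S m).filter (fun z => Irr S (WW S m z)) = GG S m := rfl
  have e2 : (TT S m).filter (fun z => ¬ Irr S (WW S m z) ∧ kap S m z ≠ 0) = R3 S m := rfl
  rw [e1, e2, hr] at hsum
  unfold wtot htot
  have e3 : 2 * (GG S m).card * (R3 S m).card = (R3 S m).card * (2 * (GG S m).card) := by ring
  have e4 : (m - 2 * (AA S m).card) * (TT S m).card = (TT S m).card * (m - 2 * (AA S m).card) := by
    ring
  rw [e3, e4]
  omega

theorem NS.total_II (h : NS S m) (h2 : 2 * (AA S m).card ≤ m) :
    2 * wtot S m + (m - 2 * (AA S m).card) * (TT S m).card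
      + 2 * ∑ j ∈ range ((GG S m).card + (R3 S m).card), ((AA S m).card - (R2 S m).card - 1 - j)
      ≤ m * htot S m + 2 * (GG S m).card * (R3 S m).card +
        ∑ j ∈ range (GG S m).card,
          min (m - 2 * (AA S m).card) (2 * j - (m - 2 * (AA S m).card)) := by
  have h1 := h.total_IIL h2
  have hl := h.loss
  rw [card_TN_eq] at hl
  omega

/-- a class with at least two gaps above `2m` -/
theorem NS.aa_kap2 (h : NS S m) {z : ℕ} (hz : z ∈ TT S m) (hk : 2 ≤ kap S m z) :
    aa S m z ≤ (TN S m).card := by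
  have hz' := mem_TT.1 hz
  have hgap := kap_not (S := S) (m := m) (z := z) (j := 2) (by omega) hk
  apply card_le_card_of_injOn (fun a => z + m - a)
  · intro a ha
    rw [mem_coe, mem_filter, mem_AA] at ha
    have h1 : (z + m - a) + m ∉ S := by
      intro hS
      have := h.add a ha.1.2.2 _ hS
      rw [show a + (z + m - a + m) = z + 2 * m by omega] at this
      exact hgap this
    have h2 : (z + m - a) ∉ S := by
      intro hS
      exact h1 (h.add _ hS _ h.m_mem)
    simp only [mem_coe, TN, mem_filter, mem_TT]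
    refine ⟨⟨by omega, by omega, h2⟩, ?_⟩
    rintro ⟨_, h0⟩
    have := h.kap_mem (z + m - a)
    rw [h0] at this
    exact h1 (by simpa using this)
  · intro a ha b hb hab
    rw [mem_coe, mem_filter, mem_AA] at ha hb
    simp only at hab
    omega

end H14EW
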