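import Pool.Agent.H14.EWSum
import Pool.Agent.H14.EWArith

namespace H14EW

open Finset Classical

variable {S : Set ℕ} {m : ℕ}

theorem NS.card_AA_pos (h : NS S m) : 1 ≤ (AA S m).card := by
  apply card_pos.2
  exact ⟨m, mem_AA.2 ⟨le_rfl, by have := h.m_pos; omega, h.m_mem⟩⟩

theorem htot_eq : htot S m = (TT S m).card + ∑ z ∈ TT S m, kap S m z := by
  unfold htot
  rw [sum_add_distrib, sum_const, smul_eq_mul, mul_one]; ring

theorem mul_le_one_of_add_le_two (a b : ℕ) (h : a + b ≤ 2) : a * b ≤ 1 := by
  have ha : a ≤ 2 := by omega
  have hb : b ≤ 2 := by omega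
  interval_cases a <;> interval_cases b <;> omega

theorem sqA (m H : ℕ) (h : H + 3 ≤ m) : 4 * (m * H) + 9 ≤ (m + H) ^ 2 := by
  obtain ⟨d, rfl⟩ := Nat.exists_eq_add_of_le h
  nlinarith [Nat.zero_le (d * d), Nat.zero_le d]

theorem sqB (m H : ℕ) : 4 * (m * H) ≤ (m + H) ^ 2 := by
  have : (4 * (m * H) : ℤ) ≤ (m + H) ^ 2 := by nlinarith [sq_nonneg ((m : ℤ) - H)]
  exact_mod_cast this

theorem NS.caseII (h : NS S m) (h2 : 2 * (AA S m).card ≤ m) (hbig : 15 ≤ m + htot S m) :
    8 * wtot S m + 8 ≤ (m + htot S m) ^ 2 := by
  have hα := h.card_AA_pos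
  have hmt := card_AA_TT (S := S) (m := m)
  have hT := card_TT_eq (S := S) (m := m)
  have htL := h.total_IIL h2
  have ht := h.total_II h2
  have hQQ : ∑ j ∈ range (GG S m).card,
          min (m - 2 * (AA S m).card) (2 * j - (m - 2 * (AA S m).card)) =
        QQ (m - 2 * (AA S m).card) (GG S m).card := rfl
  rw [hQQ] at htL ht
  -- main claim
  have hmain : 2 * wtot S m ≤ m * htot S m ∧
      (m ≤ htot S m + 2 → htot S m ≤ m + 2 → 8 ≤ m → 2 * wtot S m + 2 ≤ m * htot S m) ∧
      (m ≤ htot S m + 2 → htot S m ≤ m + 2 → m = 7 → 2 * wtot S m + 1 ≤ m * htot S m) := by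
    obtain ⟨b, hb⟩ : ∃ b, b = m - 2 * (AA S m).card := ⟨_, rfl⟩
    rw [← hb] at htL ht
    rcases Nat.lt_or_ge (AA S m).card (R2 S m).card with hr | hr
    · -- γ + ρ < β
      have hn : (GG S m).card + (R3 S m).card < b := by omega
      have hphi := phi_neg (AA S m).card (GG S m).card (R3 S m).card b hn
      have hphi' : 2 * (GG S m).card * (R3 S m).card + QQ b (GG S m).card
          + b * (AA S m).card + 1 ≤ b * ((AA S m).card + b) := by exact_mod_cast hphi
      have hb1 : 1 ≤ b := by omega
      have hba : 1 ≤ b * (AA S m).card := Nat.mul_pos hb1 hα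
      have htt : (TT S m).card = (AA S m).card + b := by omega
      rw [htt] at ht
      refine ⟨?_, fun _ _ _ => ?_, fun _ _ _ => ?_⟩ <;> omega
    · obtain ⟨n, hn⟩ : ∃ n, n = (AA S m).card - (R2 S m).card := ⟨_, rfl⟩
      have hnb : n + b = (GG S m).card + (R3 S m).card := by omega
      have hs1 := sum1 n ((GG S m).card + (R3 S m).card) (by omega)
      rw [← hn, hs1] at ht
      obtain ⟨p1, p2, p3, p4⟩ := phi_pos (R2 S m).card (GG S m).card (R3 S m).card b n hnb
      have hnn : ((n * (n - 1) : ℕ) : ℤ) = (n : ℤ) * (n - 1) := by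
        rcases Nat.eq_zero_or_pos n with h0 | h0
        · rw [h0]; simp
        · rw [Nat.cast_mul, Nat.cast_sub h0]; push_cast; ring
      have htZ : (2 * wtot S m + b * (TT S m).card + (n : ℤ) * (n - 1) : ℤ) ≤
          m * htot S m + 2 * (GG S m).card * (R3 S m).card + QQ b (GG S m).card := by
        rw [← hnn]; exact_mod_cast ht
      have hTZ : ((TT S m).card : ℤ) = (R2 S m).card + (GG S m).card + (R3 S m).card := by
        rw [hT]; push_cast; ring
      rw [hTZ] at htZ
      refine ⟨?_, fun g1 g2 g3 => ?_, fun g1 g2 g3 => ?_⟩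
      · have : (2 * wtot S m : ℤ) ≤ m * htot S m := by linarith
        exact_mod_cast this
      · rcases Nat.eq_zero_or_pos b with hb0 | hb0
        · rcases Nat.lt_or_ge n 3 with hn3 | hn3
          · -- special case
            subst hb0
            have hQ0 : QQ 0 (GG S m).card = 0 := QQ_b0 _
            rw [hQ0] at htL
            have hTN := card_TN_eq (S := S) (m := m)
            by_cases hex : ∃ z ∈ TT S m, 2 ≤ kap S m z
            · obtain ⟨z, hz, hk⟩ := hex
              have ha := h.aa_kap2 hz hk
              have hle : (AA S m).card - aa S m z ≤ ∑ z ∈ TT S m, ((AA S m).card - aa S m z) :=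
                single_le_sum (f := fun z => (AA S m).card - aa S m z)
                  (fun _ _ => Nat.zero_le _) hz
              have hgr : (GG S m).card * (R3 S m).card ≤ 1 := by
                exact mul_le_one_of_add_le_two _ _ (by omega)
              have e : 2 * (GG S m).card * (R3 S m).card = 2 * ((GG S m).card * (R3 S m).card) := by
                ring
              rw [e] at htL
              omega
            · exfalso
              push Not at hex
              have hk1 : ∑ z ∈ TT S m, kap S m z ≤ (TN S m).card := by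
                unfold TN
                rw [card_filter]
                apply sum_le_sum
                intro z hz
                have := hex z hz
                split_ifs with hc
                · omega
                · push Not at hc
                  omega
              have := htot_eq (S := S) (m := m)
              omega
          · have p := p4 hb0 hn3
            have : (2 * wtot S m + 2 : ℤ) ≤ m * htot S m := by linarith
            exact_mod_cast this
        · have p := p2 hb0 (by omega)
          have : (2 * wtot S m + 2 : ℤ) ≤ m * htot S m := by linarith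
          exact_mod_cast this
      · have p := p3 (by omega) (by omega)
        have : (2 * wtot S m + 1 : ℤ) ≤ m * htot S m := by linarith
        exact_mod_cast this
  obtain ⟨q1, q2, q3⟩ := hmain
  obtain ⟨H, hH⟩ : ∃ H, H = htot S m := ⟨_, rfl⟩
  rw [← hH] at hbig q1 q2 q3 ⊢
  rcases Nat.lt_or_ge (H + 2) m with c1 | c1
  · have : H + 3 ≤ m := c1
    have := sqA m H this
    omega
  · rcases Nat.lt_or_ge (m + 2) H with c2 | c2
    · have : m + 3 ≤ H := c2
      have := sqA H m this
      rw [mul_comm H m, add_comm H m] at this
      omega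
    · rcases Nat.lt_or_ge m 8 with c3 | c3
      · have hm7 : m = 7 := by omega
        have q := q3 c1 c2 hm7
        subst hm7
        have hH8 : H = 8 ∨ H = 9 := by omega
        rcases hH8 with rfl | rfl <;> omega
      · have q := q2 c1 c2 c3
        have := sqB m H
        omega

end H14EW
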