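import Mathlib

set_option autoImplicit false

namespace Pool.Agent.H14.OneDel

/-- The element with first position `i` and second position `j` is deleted; the two orders
then match the first position `u` with the second position `v`. -/
def rel (i j u v : ℕ) : Prop :=
  (i < u ∧ j < v ∧ u = v) ∨ (i < u ∧ v < j ∧ u = v + 1) ∨
  (u < i ∧ j < v ∧ v = u + 1) ∨ (u < i ∧ v < j ∧ u = v)

/-- An alternating word of length five. -/
def Path (n : ℕ) (f : ℕ → ℕ) (p q : ℕ) : Prop :=
  ∃ i1 i2 i3 i4 i5 a1 b1 a2 b2 a3 b3 a4 b4 : ℕ,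
    (i1 < n ∧ i2 < n ∧ i3 < n ∧ i4 < n ∧ i5 < n) ∧
    (a1 < n ∧ b1 < n ∧ a2 < n ∧ b2 < n ∧ a3 < n ∧ b3 < n ∧ a4 < n ∧ b4 < n) ∧
    (rel i1 (f i1) p a1 ∧ rel i1 (f i1) q b1) ∧
    (rel i2 (f i2) a2 a1 ∧ rel i2 (f i2) b2 b1) ∧
    (rel i3 (f i3) a2 a3 ∧ rel i3 (f i3) b2 b3) ∧
    (rel i4 (f i4) a4 a3 ∧ rel i4 (f i4) b4 b3) ∧
    (rel i5 (f i5) a4 p ∧ rel i5 (f i5) b4 q)

theorem Path.symm {n : ℕ} {f : ℕ → ℕ} {p q : ℕ} (h : Path n f p q) : Path n f q p := by
  obtain ⟨i1, i2, i3, i4, i5, a1, b1, a2, b2, a3, b3, a4, b4, hi, ha, h1, h2, h3, h4, h5⟩ := h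
  exact ⟨i1, i2, i3, i4, i5, b1, a1, b2, a2, b3, a3, b4, a4, hi,
    ⟨ha.2.1, ha.1, ha.2.2.2.1, ha.2.2.1, ha.2.2.2.2.2.1, ha.2.2.2.2.1, ha.2.2.2.2.2.2.2,
      ha.2.2.2.2.2.2.1⟩, ⟨h1.2, h1.1⟩, ⟨h2.2, h2.1⟩, ⟨h3.2, h3.1⟩, ⟨h4.2, h4.1⟩, ⟨h5.2, h5.1⟩⟩

theorem path5 {n : ℕ} {f : ℕ → ℕ} {p q : ℕ} (i1 i2 i3 i4 i5 a1 b1 a2 b2 a3 b3 a4 b4 : ℕ)
    (hi : i1 < n ∧ i2 < n ∧ i3 < n ∧ i4 < n ∧ i5 < n)
    (ha : a1 < n ∧ b1 < n ∧ a2 < n ∧ b2 < n ∧ a3 < n ∧ b3 < n ∧ a4 < n ∧ b4 < n)
    (h1 : rel i1 (f i1) p a1 ∧ rel i1 (f i1) q b1)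
    (h2 : rel i2 (f i2) a2 a1 ∧ rel i2 (f i2) b2 b1)
    (h3 : rel i3 (f i3) a2 a3 ∧ rel i3 (f i3) b2 b3)
    (h4 : rel i4 (f i4) a4 a3 ∧ rel i4 (f i4) b4 b3)
    (h5 : rel i5 (f i5) a4 p ∧ rel i5 (f i5) b4 q) : Path n f p q :=
  ⟨i1, i2, i3, i4, i5, a1, b1, a2, b2, a3, b3, a4, b4, hi, ha, h1, h2, h3, h4, h5⟩

theorem path3 {n : ℕ} {f : ℕ → ℕ} {p q : ℕ} (i j k a1 b1 a2 b2 : ℕ)
    (hi : i < n ∧ j < n ∧ k < n)
    (ha : a1 < n ∧ b1 < n ∧ a2 < n ∧ b2 < n ∧ p < n ∧ q < n)
    (h1 : rel i (f i) p a1 ∧ rel i (f i) q b1)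
    (h2 : rel j (f j) a2 a1 ∧ rel j (f j) b2 b1)
    (h3 : rel k (f k) a2 p ∧ rel k (f k) b2 q) : Path n f p q :=
  ⟨i, j, k, k, k, a1, b1, a2, b2, p, q, a2, b2, by omega, by omega, h1, h2, h3, h3, h3⟩

theorem path1 {n : ℕ} {f : ℕ → ℕ} {p q : ℕ} (i : ℕ) (hi : i < n) (hp : p < n) (hq : q < n)
    (h : rel i (f i) p p ∧ rel i (f i) q q) : Path n f p q :=
  ⟨i, i, i, i, i, p, q, p, q, p, q, p, q, by omega, by omega, h, h, h, h, h⟩

section
variable {n : ℕ} {f : ℕ → ℕ} {p q : ℕ}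

/-! ### Words -/

theorem P1 {i w j : ℕ} (hn : q < n) (h1 : i < p) (h2 : p ≤ f i) (h3 : f i < q)
    (w1 : p ≤ w) (w2 : w < q) (w3 : p ≤ f w) (w4 : f w < q)
    (j1 : p ≤ j) (j2 : j < q) (j3 : f j < p) : Path n f p q := by
  refine path3 i w j (p-1) q (p-1) q ?_ ?_ ?_ ?_ ?_ <;> (try unfold rel) <;> and_intros <;> omega

theorem P2 {i w j : ℕ} (hn : q < n) (h1 : i ≤ p) (h2 : p < f i) (h3 : f i < q)
    (w1 : w ≤ p) (w3 : f w ≤ p)
    (j1 : p < j) (j2 : j < q) (j3 : f j ≤ p) : Path n f p q := by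
  refine path3 j w i (p+1) q (p+1) q ?_ ?_ ?_ ?_ ?_ <;> (try unfold rel) <;> and_intros <;> omega

theorem W0 {i1 i2 i3 i4 i5 : ℕ} (hn : q < n)
    (a1 : p < i1) (a2 : i1 < q) (a3 : f i1 ≤ p)
    (b1 : q ≤ i2) (b2 : i2 < n) (b3 : f i2 ≤ p)
    (c1 : i3 < p) (c2 : p ≤ f i3) (c3 : f i3 + 1 < q)
    (d1 : p ≤ i4) (d2 : i4 < q) (d3 : q ≤ f i4)
    (e1 : p ≤ i5) (e2 : i5 < q) (e3 : f i5 < p) : Path n f p q := by
  refine path5 i1 i2 i3 i4 i5 (p+1) q p (q-1) (p-1) (q-1) (p-1) q ?_ ?_ ?_ ?_ ?_ ?_ ?_ <;>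
    (try unfold rel) <;> and_intros <;> omega

theorem P1m {i w j : ℕ} (hn : q + 1 < n) (hi : i < n) (h1 : q < i) (h2 : p < f i) (h3 : f i ≤ q)
    (w1 : p < w) (w2 : w ≤ q) (w3 : p < f w) (w4 : f w ≤ q)
    (j1 : p < j) (j2 : j ≤ q) (j3 : q < f j) : Path n f p q := by
  refine path3 i w j p (q+1) p (q+1) ?_ ?_ ?_ ?_ ?_ <;> (try unfold rel) <;> and_intros <;> omega

theorem P2m {i w j : ℕ} (hn : q < n) (hi : i < n) (hw : w < n)
    (h1 : q ≤ i) (h2 : p < f i) (h3 : f i < q)
    (w1 : q ≤ w) (w3 : q ≤ f w)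
    (j1 : p < j) (j2 : j < q) (j3 : q ≤ f j) : Path n f p q := by
  refine path3 j w i p (q-1) p (q-1) ?_ ?_ ?_ ?_ ?_ <;> (try unfold rel) <;> and_intros <;> omega

theorem W0m {i1 i2 i3 i4 i5 : ℕ} (hn : q + 1 < n)
    (a1 : p < i1) (a2 : i1 < q) (a3 : q ≤ f i1)
    (b1 : i2 ≤ p) (b3 : q ≤ f i2)
    (c1 : q < i3) (c0 : i3 < n) (c2 : p + 1 < f i3) (c3 : f i3 ≤ q)
    (d1 : p < i4) (d2 : i4 ≤ q) (d3 : f i4 ≤ p)
    (e1 : p < i5) (e2 : i5 ≤ q) (e3 : q < f i5) : Path n f p q := by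
  refine path5 i1 i2 i3 i4 i5 p (q-1) (p+1) q (p+1) (q+1) p (q+1) ?_ ?_ ?_ ?_ ?_ ?_ ?_ <;>
    (try unfold rel) <;> and_intros <;> omega

theorem C2 {i w j : ℕ} (hn : q < n) (h1 : i ≤ p) (h2 : p < f i) (h3 : f i + 1 < q)
    (w1 : w ≤ p) (w3 : f w ≤ p)
    (j1 : p + 1 < j) (j2 : j < q) (j3 : q ≤ f j) : Path n f p q := by
  refine path5 j i w j i p (q-1) (p+1) (q-1) (p+1) (q-1) (p+1) q ?_ ?_ ?_ ?_ ?_ ?_ ?_ <;>
    (try unfold rel) <;> and_intros <;> omega

theorem C1 {i w j : ℕ} (hn : q + 1 < n) (h1 : i < p) (h2 : p ≤ f i) (h3 : f i < q)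
    (w1 : p ≤ w) (w2 : w ≤ q) (w3 : p ≤ f w) (w4 : f w ≤ q)
    (j1 : p < j) (j2 : j ≤ q) (j3 : q < f j) : Path n f p q := by
  refine path5 i j w i j (p-1) q (p-1) (q+1) (p-1) (q+1) p (q+1) ?_ ?_ ?_ ?_ ?_ ?_ ?_ <;>
    (try unfold rel) <;> and_intros <;> omega

theorem T3 {i w j : ℕ} (hn : q < n) (h1 : i ≤ p) (h2 : p < f i) (h3 : f i < q)
    (w1 : w ≤ p) (w3 : q ≤ f w)
    (j1 : p < j) (j2 : j < q) (j3 : q ≤ f j) : Path n f p q := by
  refine path3 j w i p (q-1) (p+1) q ?_ ?_ ?_ ?_ ?_ <;> (try unfold rel) <;> and_intros <;> omega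

theorem C2m {i w j : ℕ} (hn : q < n) (hi : i < n) (hw : w < n)
    (h1 : q ≤ i) (h2 : p + 1 < f i) (h3 : f i < q)
    (w1 : q ≤ w) (w3 : q ≤ f w)
    (j1 : p < j) (j2 : j + 1 < q) (j3 : f j ≤ p) : Path n f p q := by
  refine path5 j i w j i (p+1) q (p+1) (q-1) (p+1) (q-1) p (q-1) ?_ ?_ ?_ ?_ ?_ ?_ ?_ <;>
    (try unfold rel) <;> and_intros <;> omega

theorem C1m {i w j : ℕ} (hn : q + 1 < n) (hi : i < n)
    (h1 : q < i) (h2 : p < f i) (h3 : f i ≤ q)
    (w1 : p ≤ w) (w2 : w ≤ q) (w3 : p ≤ f w) (w4 : f w ≤ q)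
    (j1 : p ≤ j) (j2 : j < q) (j3 : f j < p) : Path n f p q := by
  refine path5 i j w i j p (q+1) (p-1) (q+1) (p-1) (q+1) (p-1) q ?_ ?_ ?_ ?_ ?_ ?_ ?_ <;>
    (try unfold rel) <;> and_intros <;> omega

theorem T3m {i w j : ℕ} (hn : q < n) (hi : i < n) (hw : w < n)
    (h1 : q ≤ i) (h2 : p < f i) (h3 : f i < q)
    (w1 : q ≤ w) (w3 : f w ≤ p)
    (j1 : p < j) (j2 : j < q) (j3 : f j ≤ p) : Path n f p q := by
  refine path3 j w i (p+1) q p (q-1) ?_ ?_ ?_ ?_ ?_ <;> (try unfold rel) <;> and_intros <;> omega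

theorem B1a {i w j : ℕ} (hn : q < n) (hj : j < n) (h1 : i < p) (h2 : q ≤ f i)
    (w1 : p ≤ w) (w2 : w + 1 < q) (w3 : p ≤ f w) (w4 : f w + 1 < q)
    (j1 : q ≤ j) (j3 : f j < p) : Path n f p q := by
  refine path3 i w j (p-1) (q-1) (p-1) (q-1) ?_ ?_ ?_ ?_ ?_ <;> (try unfold rel) <;> and_intros <;> omega

theorem B1b {i w j : ℕ} (hpq : p < q) (hn : q < n) (hj : j < n) (hw : w < n)
    (h1 : i < p) (h2 : q ≤ f i)
    (w1 : q ≤ w) (w3 : q ≤ f w)
    (j1 : q ≤ j) (j3 : f j < p) : Path n f p q := by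
  refine path3 i w j (p-1) (q-1) (p-1) (q-1) ?_ ?_ ?_ ?_ ?_ <;> (try unfold rel) <;> and_intros <;> omega

theorem B2a {i w j : ℕ} (hpq : p < q) (hn : q < n) (hj : j < n)
    (h1 : i ≤ p) (h2 : q < f i)
    (w1 : w ≤ p) (w3 : f w ≤ p)
    (j1 : q < j) (j3 : f j ≤ p) : Path n f p q := by
  refine path3 j w i (p+1) (q+1) (p+1) (q+1) ?_ ?_ ?_ ?_ ?_ <;> (try unfold rel) <;> and_intros <;> omega

theorem B2b {i w j : ℕ} (hpq : p < q) (hn : q < n) (hj : j < n)
    (h1 : i ≤ p) (h2 : q < f i)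
    (w1 : p + 1 < w) (w2 : w ≤ q) (w3 : p + 1 < f w) (w4 : f w ≤ q)
    (j1 : q < j) (j3 : f j ≤ p) : Path n f p q := by
  refine path3 j w i (p+1) (q+1) (p+1) (q+1) ?_ ?_ ?_ ?_ ?_ <;> (try unfold rel) <;> and_intros <;> omega

theorem W1 {i j x z : ℕ} (hpq : p < q) (hn : q < n) (hj : j < n)
    (h1 : i < p) (h2 : q < f i)
    (x1 : p ≤ x) (x2 : x < q) (x3 : q ≤ f x)
    (j1 : q < j) (j3 : f j < p)
    (z1 : z ≤ p) (z2 : p < f z) (z3 : f z ≤ q) : Path n f p q := by
  refine path5 i x j z i (p-1) (q-1) (p-1) q p (q+1) (p+1) (q+1) ?_ ?_ ?_ ?_ ?_ ?_ ?_ <;>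
    (try unfold rel) <;> and_intros <;> omega

theorem W1' {i j z w : ℕ} (hpq : p < q) (hn : q < n) (hj : j < n) (hw : w < n)
    (h1 : i < p) (h2 : q < f i)
    (z1 : p < z) (z2 : z ≤ q) (z3 : f z ≤ p)
    (j1 : q < j) (j3 : f j < p)
    (w1 : q ≤ w) (w2 : p ≤ f w) (w3 : f w < q) : Path n f p q := by
  refine path5 j z i w j (p+1) (q+1) p (q+1) (p-1) q (p-1) (q-1) ?_ ?_ ?_ ?_ ?_ ?_ ?_ <;>
    (try unfold rel) <;> and_intros <;> omega

theorem S1 {i j : ℕ} (hq : q = p + 2) (hn : q < n) (hj : j < n)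
    (h1 : i < p) (h2 : q < f i) (hp : f p = p + 1) (hp1 : f (p + 1) = p)
    (j1 : q < j) (j3 : f j < p) : Path n f p q := by
  refine path5 (p+1) j i p j (p+1) q p (q-1) (p-1) (q-2) (p-1) (q-1) ?_ ?_ ?_ ?_ ?_ ?_ ?_ <;>
    (try unfold rel) <;> and_intros <;> omega

theorem S1m {i j : ℕ} (hq : q = p + 2) (hn : q < n) (hj : j < n)
    (h1 : i < p) (h2 : q < f i) (hp1 : f (p + 1) = q) (hq1 : f q = p + 1)
    (j1 : q < j) (j3 : f j < p) : Path n f p q := by
  refine path5 (p+1) i j q i p (q-1) (p+1) q (p+2) (q+1) (p+1) (q+1) ?_ ?_ ?_ ?_ ?_ ?_ ?_ <;>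
    (try unfold rel) <;> and_intros <;> omega

/-! ### The four cases with a thick middle part -/

/-- Something enters the middle from the left and something leaves it to the left. -/
theorem caseA {g : ℕ → ℕ} (hn : q < n)
    (hg : ∀ j, j < n → g j < n ∧ f (g j) = j)
    {i j : ℕ} (i1 : i < p) (i2 : p < f i) (i3 : f i + 1 < q)
    (j1 : p < j) (j2 : j < q) (j3 : f j < p) : Path n f p q := by
  obtain ⟨g1, g2⟩ := hg p (by omega)
  by_cases c1 : f p < q
  · by_cases c2 : p ≤ f p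
    · exact P1 (w := p) hn i1 (by omega) (by omega) (by omega) (by omega) c2 c1
        (by omega) j2 j3
    · exact P2 (w := p) hn (by omega) i2 (by omega) (by omega) (by omega) j1 j2 (by omega)
  · by_cases c2 : g p < q
    · by_cases c3 : p ≤ g p
      · exact P1 (w := g p) hn i1 (by omega) (by omega) c3 c2 (by omega) (by omega)
          (by omega) j2 j3
      · exact P2 (w := g p) hn (by omega) i2 (by omega) (by omega) (by omega) j1 j2 (by omega)
    · exact W0 (i1 := j) (i2 := g p) (i3 := i) (i4 := p) (i5 := j) hn j1 j2 (by omega)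
        (by omega) g1 (by omega) i1 (by omega) i3 (by omega) (by omega) (by omega)
        (by omega) j2 j3

/-- The mirror image of `caseA`. -/
theorem caseAm {g : ℕ → ℕ}
    (hg : ∀ j, j < n → g j < n ∧ f (g j) = j)
    {i j : ℕ} (i0 : i < n) (i1 : q < i) (i2 : p + 1 < f i) (i3 : f i < q)
    (j1 : p < j) (j2 : j < q) (j3 : q < f j) : Path n f p q := by
  obtain ⟨g1, g2⟩ := hg q (by omega)
  by_cases c1 : p < f q
  · by_cases c2 : f q ≤ q
    · exact P1m (w := q) (by omega) i0 i1 (by omega) (by omega) (by omega) (by omega) c1 c2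
        j1 (by omega) j3
    · exact P2m (w := q) (by omega) i0 (by omega) (by omega) (by omega) i3 (by omega)
        (by omega) j1 j2 (by omega)
  · by_cases c2 : p < g q
    · by_cases c3 : g q ≤ q
      · exact P1m (w := g q) (by omega) i0 i1 (by omega) (by omega) c2 c3 (by omega) (by omega)
          j1 (by omega) j3
      · exact P2m (w := g q) (by omega) i0 (by omega) (by omega) (by omega) i3 (by omega)
          (by omega) j1 j2 (by omega)
    · exact W0m (i1 := j) (i2 := g q) (i3 := i) (i4 := q) (i5 := j) (by omega) j1 j2 (by omega)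
        (by omega) (by omega) i1 i0 i2 (by omega) (by omega) (by omega) (by omega)
        j1 (by omega) j3

/-- Something enters the middle from the left and something leaves it to the right. -/
theorem caseC (hf : ∀ i, i < n → f i < n) (hn : q < n)
    {i j : ℕ} (i1 : i < p) (i2 : p < f i) (i3 : f i + 1 < q)
    (j1 : p + 1 < j) (j2 : j < q) (j3 : q < f j) : Path n f p q := by
  have hj := hf j (by omega)
  by_cases c1 : f p ≤ p
  · exact C2 (w := p) (i := i) (j := j) hn (by omega) i2 i3 (by omega) c1 j1 j2 (by omega)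
  · by_cases c2 : f p ≤ q
    · exact C1 (w := p) (i := i) (j := j) (by omega) i1 (by omega) (by omega) (by omega)
        (by omega) (by omega) c2 (by omega) (by omega) j3
    · exact T3 (w := p) (i := i) (j := j) hn (by omega) i2 (by omega) (by omega) (by omega)
        (by omega) j2 (by omega)

/-- The mirror image of `caseC`. -/
theorem caseCm (hn : q < n)
    {i j : ℕ} (i0 : i < n) (i1 : q < i) (i2 : p + 1 < f i) (i3 : f i < q)
    (j1 : p < j) (j2 : j + 1 < q) (j3 : f j < p) : Path n f p q := by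
  by_cases c1 : q ≤ f q
  · exact C2m (w := q) (i := i) (j := j) hn i0 hn (by omega) i2 i3 (by omega) c1 j1 j2 (by omega)
  · by_cases c2 : p ≤ f q
    · exact C1m (w := q) (i := i) (j := j) (by omega) i0 i1 (by omega) (by omega) (by omega)
        (by omega) c2 (by omega) (by omega) (by omega) j3
    · exact T3m (w := q) (i := i) (j := j) hn i0 hn (by omega) (by omega) i3 (by omega)
        (by omega) j1 (by omega) (by omega)

/-! ### Elements moving from one end to the other -/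

/-- Badness: no element off `p` and `q` fixes both positions. -/
def Bad (n : ℕ) (f : ℕ → ℕ) (p q : ℕ) : Prop :=
  (∀ i, i < p → p ≤ f i) ∧ (∀ i, p < i → i < q → f i ≤ p ∨ q ≤ f i) ∧
  (∀ i, q < i → i < n → f i ≤ q)

theorem caseB {g : ℕ → ℕ} (hf : ∀ i, i < n → f i < n) (hpq : p < q) (hn : q < n)
    (hg : ∀ j, j < n → g j < n ∧ f (g j) = j)
    (hinj : ∀ i j, i < n → j < n → f i = f j → i = j)
    (hb : Bad n f p q)
    {i j : ℕ} (i1 : i < p) (i2 : q < f i) (j0 : j < n) (j1 : q < j) (j2 : f j < p) :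
    Path n f p q := by
  obtain ⟨b1, b2, b3⟩ := hb
  by_contra hno
  -- loops
  have nB1a : ∀ w, p ≤ w → w + 1 < q → p ≤ f w → f w + 1 < q → False := fun w w1 w2 w3 w4 =>
    hno (B1a hn j0 i1 (by omega) w1 w2 w3 w4 (by omega) j2)
  have nB1b : ∀ w, w < n → q ≤ w → q ≤ f w → False := fun w w0 w1 w2 =>
    hno (B1b hpq hn j0 w0 i1 (by omega) w1 w2 (by omega) j2)
  have nB2a : ∀ w, w ≤ p → f w ≤ p → False := fun w w1 w2 =>
    hno (B2a hpq hn j0 (le_of_lt i1) i2 w1 w2 j1 (by omega))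
  have nB2b : ∀ w, p + 1 < w → w ≤ q → p + 1 < f w → f w ≤ q → False := fun w w1 w2 w3 w4 =>
    hno (B2b hpq hn j0 (le_of_lt i1) i2 w1 w2 w3 w4 j1 (by omega))
  obtain ⟨gp1, gp2⟩ := hg p (by omega)
  obtain ⟨gq1, gq2⟩ := hg q (by omega)
  obtain ⟨gr1, gr2⟩ := hg (p + 1) (by omega)
  obtain ⟨gs1, gs2⟩ := hg (q - 1) (by omega)
  -- the images and preimages of the two positions
  have fp1 : p < f p := by
    by_contra h
    exact nB2a p le_rfl (by omega)
  have fp2 : q ≤ f p + 1 := by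
    by_contra h
    exact nB1a p le_rfl (by omega) (by omega) (by omega)
  have hp1 : p < g p := by
    by_contra h
    exact nB2a (g p) (by omega) (by omega)
  have hp2 : q ≤ g p + 1 := by
    by_contra h
    exact nB1a (g p) (by omega) (by omega) (by omega) (by omega)
  have fq1 : f q < q := by
    by_contra h
    exact nB1b q hn le_rfl (by omega)
  have fq2 : f q ≤ p + 1 := by
    by_contra h
    exact nB2b q (by omega) le_rfl (by omega) (by omega)
  have hq1 : g q < q := by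
    by_contra h
    exact nB1b (g q) gq1 (by omega) (by omega)
  have hq2 : g q ≤ p + 1 := by
    by_contra h
    exact nB2b (g q) (by omega) (by omega) (by omega) (by omega)
  by_cases hα : ∃ x, p ≤ x ∧ x < q ∧ q ≤ f x
  · obtain ⟨x, x1, x2, x3⟩ := hα
    have hβ : ∀ z, z ≤ p → p < f z → f z ≤ q → False := fun z z1 z2 z3 =>
      hno (W1 hpq hn j0 i1 i2 x1 x2 x3 j1 j2 z1 z2 z3)
    have e1 : g q = p + 1 := by
      by_contra h
      exact hβ (g q) (by omega) (by omega) (by omega)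
    rw [e1] at gq2
    by_cases hα' : ∃ w, w < n ∧ q ≤ w ∧ p ≤ f w ∧ f w < q
    · obtain ⟨w, w0, w1, w2, w3⟩ := hα'
      have hβ' : ∀ z, p < z → z ≤ q → f z ≤ p → False := fun z z1 z2 z3 =>
        hno (W1' hpq hn j0 w0 i1 i2 z1 z2 z3 j1 j2 w1 w2 w3)
      have e2 : f q = p + 1 := by
        by_contra h
        exact hβ' q hpq le_rfl (by omega)
      by_cases hq3 : q = p + 2
      · exact hno (S1m hq3 hn j0 i1 i2 gq2 e2 j1 j2)
      · have k1 : q < g (q - 1) := by
          by_contra h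
          rcases Nat.lt_or_ge p (g (q - 1)) with h' | h'
          · rcases Nat.lt_or_ge (g (q - 1)) q with h'' | h''
            · have := b2 _ h' h''
              omega
            · have : g (q - 1) = q := by omega
              rw [this] at gs2
              omega
          · exact hβ _ h' (by omega) (by omega)
        have k2 : q < f (q - 1) := by
          have m1 := b2 (q - 1) (by omega) (by omega)
          rcases m1 with m1 | m1
          · exact absurd m1 (fun h => hβ' (q - 1) (by omega) (by omega) h)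
          · rcases Nat.lt_or_ge q (f (q - 1)) with h | h
            · exact h
            · exfalso
              have := hinj (q - 1) (p + 1) (by omega) (by omega) (by omega)
              omega
        exact hno (caseAm (g := g) hg gs1 k1 (by omega) (by omega) (j := q - 1) (by omega)
          (by omega) k2)
    · have hα'' : ∀ w, w < n → q ≤ w → p ≤ f w → f w < q → False := fun w w0 w1 w2 w3 =>
        hα' ⟨w, w0, w1, w2, w3⟩
      rcases Nat.lt_or_ge p (g (p + 1)) with h' | h'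
      · rcases Nat.lt_or_ge (g (p + 1)) q with h'' | h''
        · have := b2 _ h' h''
          omega
        · exact hα'' _ gr1 h'' (by omega) (by omega)
      · exact hβ _ h' (by omega) (by omega)
  · have hα0 : ∀ x, p ≤ x → x < q → q ≤ f x → False := fun x x1 x2 x3 => hα ⟨x, x1, x2, x3⟩
    have e1 : f p + 1 = q := by
      by_contra h
      exact hα0 p le_rfl hpq (by omega)
    by_cases hβ' : ∃ z, p < z ∧ z ≤ q ∧ f z ≤ p
    · obtain ⟨z, z1, z2, z3⟩ := hβ'
      have hα' : ∀ w, w < n → q ≤ w → p ≤ f w → f w < q → False := fun w w0 w1 w2 w3 =>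
        hno (W1' hpq hn j0 w0 i1 i2 z1 z2 z3 j1 j2 w1 w2 w3)
      have e2 : g p + 1 = q := by
        by_contra h
        exact hα' (g p) gp1 (by omega) (by omega) (by omega)
      by_cases hq3 : q = p + 2
      · have e3 : g p = p + 1 := by omega
        rw [e3] at gp2
        exact hno (S1 hq3 hn j0 i1 i2 (by omega) gp2 j1 j2)
      · have k1 : g (p + 1) < p := by
          by_contra h
          rcases Nat.lt_or_ge p (g (p + 1)) with h' | h'
          · rcases Nat.lt_or_ge (g (p + 1)) q with h'' | h''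
            · have := b2 _ h' h''
              omega
            · exact hα' _ gr1 h'' (by omega) (by omega)
          · have : g (p + 1) = p := by omega
            rw [this] at gr2
            omega
        have k2 : f (p + 1) < p := by
          have m1 := b2 (p + 1) (by omega) (by omega)
          rcases m1 with m1 | m1
          · rcases Nat.lt_or_ge (f (p + 1)) p with h | h
            · exact h
            · exfalso
              have := hinj (p + 1) (g p) (by omega) gp1 (by omega)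
              omega
          · exact absurd m1 (fun h => hα0 (p + 1) (by omega) (by omega) h)
        exact hno (caseA (g := g) hn hg k1 (by omega) (by omega) (j := p + 1) (by omega)
          (by omega) k2)
    · have m1 := b2 (p + 1) (by omega) (by omega)
      rcases m1 with m1 | m1
      · exact hβ' ⟨p + 1, by omega, by omega, m1⟩
      · exact hα0 (p + 1) (by omega) (by omega) m1

/-- An injection of an interval into a shorter interval does not exist. -/
theorem pigeon {h : ℕ → ℕ} {a b c d : ℕ} (hlt : d - c < b - a)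
    (hm : ∀ i, a ≤ i → i < b → c ≤ h i ∧ h i < d)
    (hi : ∀ i j, a ≤ i → i < b → a ≤ j → j < b → h i = h j → i = j) : False := by
  have hc : (Finset.Ico c d).card < (Finset.Ico a b).card := by
    rw [Nat.card_Ico, Nat.card_Ico]
    exact hlt
  obtain ⟨x, hx, y, hy, hxy, he⟩ := Finset.exists_ne_map_eq_of_card_lt_of_maps_to hc
    (f := h) (fun i hi => by
      simp only [Finset.coe_Ico, Set.mem_Ico] at hi ⊢
      exact hm i hi.1 hi.2)
  rw [Finset.mem_Ico] at hx hy
  exact hxy (hi x y hx.1 hx.2 hy.1 hy.2 he)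

theorem core {g : ℕ → ℕ} (hN : 19 ≤ n) (hf : ∀ i, i < n → f i < n) (hpq : p < q) (hn : q < n)
    (hg : ∀ j, j < n → g j < n ∧ f (g j) = j)
    (hinj : ∀ i j, i < n → j < n → f i = f j → i = j) : Path n f p q := by
  by_contra hno
  have hb : Bad n f p q := by
    refine ⟨?_, ?_, ?_⟩
    · intro i hi
      by_contra h
      refine hno (path1 i (by omega) (by omega) hn ?_)
      unfold rel
      and_intros <;> omega
    · intro i hi1 hi2
      by_contra h
      refine hno (path1 i (by omega) (by omega) hn ?_)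
      unfold rel
      and_intros <;> omega
    · intro i hi1 hi2
      by_contra h
      refine hno (path1 i (by omega) (by omega) hn ?_)
      unfold rel
      and_intros <;> omega
  have hb' := hb
  obtain ⟨b1, b2, b3⟩ := hb'
  have ginj : ∀ i j, i < n → j < n → g i = g j → i = j := by
    intro i j hi hj h
    rw [← (hg i hi).2, ← (hg j hj).2, h]
  by_cases hw : p + 6 ≤ q
  · -- thick middle
    obtain ⟨u1, u2⟩ := hg (p + 2) (by omega)
    obtain ⟨v1, v2⟩ := hg (p + 3) (by omega)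
    obtain ⟨w1, w2⟩ := hg (p + 4) (by omega)
    have uv : g (p + 2) ≠ g (p + 3) := fun h => by
      have := ginj _ _ (by omega) (by omega) h
      omega
    have uw : g (p + 2) ≠ g (p + 4) := fun h => by
      have := ginj _ _ (by omega) (by omega) h
      omega
    have vw : g (p + 3) ≠ g (p + 4) := fun h => by
      have := ginj _ _ (by omega) (by omega) h
      omega
    have hin : ∃ i, i < n ∧ (i < p ∨ q < i) ∧ p + 1 < f i ∧ f i + 1 < q := by
      have a1 := b2 (g (p + 2))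
      have a2 := b2 (g (p + 3))
      have a3 := b2 (g (p + 4))
      rw [u2] at a1
      rw [v2] at a2
      rw [w2] at a3
      by_cases c1 : g (p + 2) < p ∨ q < g (p + 2)
      · exact ⟨g (p + 2), u1, c1, by omega, by omega⟩
      · by_cases c2 : g (p + 3) < p ∨ q < g (p + 3)
        · exact ⟨g (p + 3), v1, c2, by omega, by omega⟩
        · exact ⟨g (p + 4), w1, by omega, by omega, by omega⟩
    have hout : ∃ j, p + 1 < j ∧ j + 1 < q ∧ (f j < p ∨ q < f j) := by
      have a1 := b2 (p + 2) (by omega) (by omega)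
      have a2 := b2 (p + 3) (by omega) (by omega)
      have a3 := b2 (p + 4) (by omega) (by omega)
      have d1 : f (p + 2) ≠ f (p + 3) := fun h => by
        have := hinj _ _ (by omega) (by omega) h
        omega
      have d2 : f (p + 2) ≠ f (p + 4) := fun h => by
        have := hinj _ _ (by omega) (by omega) h
        omega
      have d3 : f (p + 3) ≠ f (p + 4) := fun h => by
        have := hinj _ _ (by omega) (by omega) h
        omega
      by_cases c1 : f (p + 2) < p ∨ q < f (p + 2)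
      · exact ⟨p + 2, by omega, by omega, c1⟩
      · by_cases c2 : f (p + 3) < p ∨ q < f (p + 3)
        · exact ⟨p + 3, by omega, by omega, c2⟩
        · exact ⟨p + 4, by omega, by omega, by omega⟩
    obtain ⟨i, i0, i1, i2, i3⟩ := hin
    obtain ⟨j, j1, j2, j3⟩ := hout
    rcases i1 with i1 | i1 <;> rcases j3 with j3 | j3
    · exact hno (caseA hn hg i1 (by omega) i3 (by omega) (by omega) j3)
    · exact hno (caseC hf hn i1 (by omega) i3 j1 (by omega) j3)
    · exact hno (caseCm hn i0 i1 i2 (by omega) (by omega) j2 j3)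
    · exact hno (caseAm hg i0 i1 i2 (by omega) (by omega) (by omega) j3)
  · -- thin middle
    have k1 : ∃ i, i < p ∧ q < f i := by
      by_contra h
      push Not at h
      rcases Nat.lt_or_ge (q + 1 - p) p with hc | hc
      · exact pigeon (h := f) (a := 0) (b := p) (c := p) (d := q + 1) (by omega)
          (fun i _ hi => ⟨b1 i hi, by have := h i hi; omega⟩)
          (fun i j _ hi _ hj he => hinj i j (by omega) (by omega) he)
      · refine pigeon (h := g) (a := q + 1) (b := n) (c := p) (d := q + 1) (by omega)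
          (fun i hi1 hi2 => ?_)
          (fun i j _ hi _ hj he => ginj i j hi hj he)
        obtain ⟨e1, e2⟩ := hg i hi2
        constructor
        · by_contra hc'
          have := h (g i) (by omega)
          omega
        · by_contra hc'
          have := b3 (g i) (by omega) e1
          omega
    have k2 : ∃ j, j < n ∧ q < j ∧ f j < p := by
      by_contra h
      push Not at h
      rcases Nat.lt_or_ge (q + 1 - p) p with hc | hc
      · refine pigeon (h := g) (a := 0) (b := p) (c := p) (d := q + 1) (by omega)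
          (fun i _ hi => ?_)
          (fun i j _ hi _ hj he => ginj i j (by omega) (by omega) he)
        obtain ⟨e1, e2⟩ := hg i (by omega)
        constructor
        · by_contra hc'
          have := b1 (g i) (by omega)
          omega
        · by_contra hc'
          have := h (g i) e1 (by omega)
          omega
      · exact pigeon (h := f) (a := q + 1) (b := n) (c := p) (d := q + 1) (by omega)
          (fun i hi1 hi2 => ⟨h i hi2 (by omega), by have := b3 i (by omega) hi2; omega⟩)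
          (fun i j _ hi _ hj he => hinj i j hi hj he)
    obtain ⟨i, i1, i2⟩ := k1
    obtain ⟨j, j0, j1, j2⟩ := k2
    exact hno (caseB hf hpq hn hg hinj hb i1 i2 j0 j1 j2)

end

end Pool.Agent.H14.OneDel
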