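import Pool.Agent.H14.TradeTransfer

set_option autoImplicit false

namespace Pool.Agent.H14

/-- signed version of the core construction -/
theorem core_signed {μ ρ : Type} [Fintype μ] [DecidableEq μ] [Fintype ρ]
    (M : ρ → μ → ℤ) (hM : ∀ r i, M r i = -1 ∨ M r i = 0 ∨ M r i = 1)
    (g : μ → ℝ) (hg1 : ∃ i, g i ≠ 0)
    (hMg : ∀ r, ∑ i, (M r i : ℝ) * g i = 0) (L : ℕ)
    (hL : ∀ a : μ → ℤ, (∀ r, ∑ i, M r i * a i = 0) → (∃ i, a i ≠ 0) → (L : ℤ) ≤ ∑ i, |a i|) :
    ∃ f : (Coord μ ρ → Bool) → Bool, IsSwitching f ∧ ¬ IsWeighted f ∧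
      ∀ j, 1 ≤ j → HasTrade f j → 2 * L ≤ j := by
  classical
  let s : μ → ℤ := fun i => if g i < 0 then -1 else 1
  have hs : ∀ i, s i = -1 ∨ s i = 1 := by
    intro i
    simp only [s]
    split_ifs <;> simp
  apply core (fun r i => M r i * s i) _ (fun i => |g i|) (fun i => abs_nonneg _) _ _ L
  · intro a ha hne
    have h1 := hL (fun i => s i * (a i : ℤ)) (by
      intro r
      rw [← ha r]
      apply Finset.sum_congr rfl
      intro i _
      ring) (by
      obtain ⟨i, hi⟩ := hne
      refine ⟨i, ?_⟩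
      have : (a i : ℤ) ≠ 0 := by exact_mod_cast hi
      rcases hs i with h | h <;> rw [h] <;> simpa using hi)
    have h2 : ∑ i, |s i * (a i : ℤ)| = ∑ i, (a i : ℤ) := by
      apply Finset.sum_congr rfl
      intro i _
      rw [abs_mul]
      rcases hs i with h | h <;> rw [h] <;> simp
    rw [h2] at h1
    exact_mod_cast h1
  · intro r i
    rcases hM r i with h | h | h <;> rcases hs i with h' | h' <;> simp only [h, h'] <;> norm_num
  · obtain ⟨i, hi⟩ := hg1
    exact ⟨i, abs_ne_zero.2 hi⟩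
  · intro r
    rw [← hMg r]
    apply Finset.sum_congr rfl
    intro i _
    simp only [s]
    split_ifs with h
    · rw [abs_of_neg h]
      push_cast
      ring
    · rw [abs_of_nonneg (not_lt.1 h)]
      push_cast
      ring

/-! ### characters of the cube -/

abbrev PP (r : ℕ) : Type := Finset (Fin r)

def chi {r : ℕ} (b x : PP r) : ℤ := ∏ i : Fin r, if i ∈ b ∧ i ∈ x then -1 else 1

theorem chi_val {r : ℕ} (b x : PP r) : chi b x = -1 ∨ chi b x = 1 := by
  unfold chi
  apply Finset.prod_induction _ (fun z : ℤ => z = -1 ∨ z = 1)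
  · rintro a b (h | h) (h' | h') <;> rw [h, h'] <;> simp
  · right; rfl
  · intro i _
    split_ifs <;> simp

theorem chi_symm {r : ℕ} (b x : PP r) : chi b x = chi x b := by
  unfold chi
  apply Finset.prod_congr rfl
  intro i _
  simp only [and_comm]

theorem chi_eq {r : ℕ} (b x : PP r) :
    (chi b x : ℝ) = ∏ i ∈ b, (if i ∈ x then (-1 : ℝ) else 1) := by
  unfold chi
  rw [Int.cast_prod, ← Finset.prod_filter_mul_prod_filter_not Finset.univ (fun i => i ∈ b)]
  have e1 : (∏ i ∈ Finset.univ.filter (fun i => ¬ i ∈ b),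
      (((if i ∈ b ∧ i ∈ x then -1 else 1 : ℤ)) : ℝ)) = 1 := by
    apply Finset.prod_eq_one
    intro i hi
    have := (Finset.mem_filter.1 hi).2
    rw [if_neg (fun h => this h.1)]
    norm_num
  rw [e1, mul_one]
  have e2 : Finset.univ.filter (fun i => i ∈ b) = b := by ext; simp
  rw [e2]
  apply Finset.prod_congr rfl
  intro i hi
  by_cases hx : i ∈ x
  · rw [if_pos ⟨hi, hx⟩, if_pos hx]; norm_num
  · rw [if_neg (fun h => hx h.2), if_neg hx]; norm_num

theorem sum_chi {r : ℕ} (a x : PP r) :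
    ∑ b ∈ a.powerset, (chi b x : ℝ) = if Disjoint x a then 2 ^ a.card else 0 := by
  simp only [chi_eq]
  rw [← Finset.prod_one_add]
  split_ifs with h
  · rw [← Finset.prod_const]
    apply Finset.prod_congr rfl
    intro i hi
    rw [if_neg (fun hx => (Finset.disjoint_left.1 h hx) hi)]
    norm_num
  · rw [Finset.not_disjoint_iff] at h
    obtain ⟨i, hx, ha⟩ := h
    apply Finset.prod_eq_zero ha
    rw [if_pos hx]
    norm_num

theorem orth {r : ℕ} (b c : PP r) :
    ∑ x : PP r, (chi b x : ℝ) * (chi c x : ℝ) = if b = c then 2 ^ r else 0 := by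
  have e : ∀ x : PP r, (chi b x : ℝ) * (chi c x : ℝ) =
      ∏ i ∈ x, ((if i ∈ b then (-1 : ℝ) else 1) * (if i ∈ c then (-1 : ℝ) else 1)) := by
    intro x
    rw [chi_symm b x, chi_symm c x, chi_eq, chi_eq, Finset.prod_mul_distrib]
  simp only [e]
  have hu : (Finset.univ : Finset (PP r)) = (Finset.univ : Finset (Fin r)).powerset := by
    ext; simp
  rw [hu, ← Finset.prod_one_add]
  split_ifs with h
  · subst h
    have : ∀ i ∈ (Finset.univ : Finset (Fin r)), (1 + (if i ∈ b then (-1 : ℝ) else 1) *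
        (if i ∈ b then (-1 : ℝ) else 1)) = 2 := by
      intro i _
      split_ifs <;> norm_num
    rw [Finset.prod_congr rfl this, Finset.prod_const, Finset.card_univ, Fintype.card_fin]
  · have : ∃ i, ¬ (i ∈ b ↔ i ∈ c) := by
      by_contra hcon
      push Not at hcon
      exact h (Finset.ext hcon)
    obtain ⟨i, hi⟩ := this
    apply Finset.prod_eq_zero (Finset.mem_univ i)
    by_cases hb : i ∈ b <;> by_cases hc : i ∈ c
    · exact absurd (iff_of_true hb hc) hi
    · rw [if_pos hb, if_neg hc]; norm_num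
    · rw [if_neg hb, if_pos hc]; norm_num
    · exact absurd (iff_of_false hb hc) hi

/-! ### the recursion -/

section rec
open Classical

noncomputable def YY (cd : ℕ → ℕ) (rel : ℕ → ℕ → Prop) : ℕ → ℝ
  | 0 => 1
  | (j + 1) => 2 ^ (cd (j + 1) + 1) * YY cd rel j -
      ∑ i : Fin (j + 1), if rel i.val (j + 1) then YY cd rel i.val else 0
  decreasing_by
    · omega
    · exact i.isLt

theorem YY_zero (cd : ℕ → ℕ) (rel : ℕ → ℕ → Prop) : YY cd rel 0 = 1 := by
  rw [YY]

theorem YY_succ (cd : ℕ → ℕ) (rel : ℕ → ℕ → Prop) (j : ℕ) :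
    YY cd rel (j + 1) = 2 ^ (cd (j + 1) + 1) * YY cd rel j -
      ∑ i ∈ Finset.range (j + 1), if rel i (j + 1) then YY cd rel i else 0 := by
  rw [YY, Fin.sum_univ_eq_sum_range (fun i => if rel i (j + 1) then YY cd rel i else 0) (j + 1)]

theorem YY_unique (cd : ℕ → ℕ) (rel : ℕ → ℕ → Prop) (n : ℕ) (b : ℕ → ℝ)
    (hb : ∀ j, j + 1 < n → b (j + 1) = 2 ^ (cd (j + 1) + 1) * b j -
      ∑ i ∈ Finset.range (j + 1), if rel i (j + 1) then b i else 0) :
    ∀ j, j < n → b j = b 0 * YY cd rel j := by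
  intro j
  induction j using Nat.strong_induction_on with
  | _ j ih =>
    intro hj
    rcases j with _ | j
    · rw [YY_zero, mul_one]
    · rw [hb j hj, YY_succ, ih j (by omega) (by omega), mul_sub, Finset.mul_sum]
      congr 1
      · ring
      · apply Finset.sum_congr rfl
        intro i hi
        have := Finset.mem_range.1 hi
        rw [ih i (by omega) (by omega)]
        split_ifs <;> ring

theorem YY_growth (cd : ℕ → ℕ) (rel : ℕ → ℕ → Prop) (n : ℕ)
    (hc : ∀ j, j + 1 < n →
      ((Finset.range (j + 1)).filter (fun i => rel i (j + 1))).card + 1 ≤ 2 ^ cd (j + 1)) :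
    ∀ j, j < n → 1 ≤ YY cd rel j ∧ (∀ i, i ≤ j → YY cd rel i ≤ YY cd rel j) ∧
      2 ^ (∑ i ∈ Finset.range j, cd (i + 1)) ≤ YY cd rel j := by
  intro j
  induction j with
  | zero =>
    intro _
    refine ⟨by rw [YY_zero], ?_, ?_⟩
    · intro i hi
      have : i = 0 := by omega
      rw [this]
    · rw [YY_zero]; simp
  | succ j ih =>
    intro hj
    obtain ⟨h1, h2, h3⟩ := ih (by omega)
    have hsum : ∑ i ∈ Finset.range (j + 1), (if rel i (j + 1) then YY cd rel i else 0) ≤
        ((Finset.range (j + 1)).filter (fun i => rel i (j + 1))).card * YY cd rel j := by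
      rw [← Finset.sum_filter, ← nsmul_eq_mul]
      apply Finset.sum_le_card_nsmul
      intro i hi
      have := Finset.mem_range.1 (Finset.mem_filter.1 hi).1
      exact h2 i (by omega)
    have hc' : (((Finset.range (j + 1)).filter (fun i => rel i (j + 1))).card : ℝ) + 1 ≤
        2 ^ cd (j + 1) := by
      exact_mod_cast hc j hj
    have hY0 : 0 < YY cd rel j := by linarith
    have hge : 2 ^ cd (j + 1) * YY cd rel j + YY cd rel j ≤ YY cd rel (j + 1) := by
      rw [YY_succ, pow_succ]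
      have : (((Finset.range (j + 1)).filter (fun i => rel i (j + 1))).card : ℝ) *
          YY cd rel j ≤ (2 ^ cd (j + 1) - 1) * YY cd rel j :=
        mul_le_mul_of_nonneg_right (by linarith) hY0.le
      nlinarith
    have hp : (0 : ℝ) < 2 ^ cd (j + 1) := by positivity
    have hmul : 0 < 2 ^ cd (j + 1) * YY cd rel j := mul_pos hp hY0
    refine ⟨by linarith, ?_, ?_⟩
    · intro i hi
      rcases Nat.lt_or_ge i (j + 1) with h | h
      · have := h2 i (by omega)
        linarith
      · have : i = j + 1 := by omega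
        rw [this]
    · rw [Finset.sum_range_succ, pow_add]
      calc (2 : ℝ) ^ (∑ i ∈ Finset.range j, cd (i + 1)) * 2 ^ cd (j + 1)
          ≤ YY cd rel j * 2 ^ cd (j + 1) := mul_le_mul_of_nonneg_right h3 hp.le
        _ = 2 ^ cd (j + 1) * YY cd rel j := mul_comm _ _
        _ ≤ YY cd rel (j + 1) := by linarith

end rec

/-! ### monotone enumeration -/

theorem exists_enum (r : ℕ) : ∃ e : Fin (2 ^ r) ≃ PP r, ∀ i j, e i ⊂ e j → i < j := by
  classical
  letI : Fintype (LinearExtension (PP r)) := inferInstanceAs (Fintype (PP r))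
  have hcard : Fintype.card (LinearExtension (PP r)) = 2 ^ r := by
    have : Fintype.card (PP r) = 2 ^ r := by simp
    exact this
  let e := Fintype.orderIsoFinOfCardEq (LinearExtension (PP r)) hcard
  let e' : Fin (2 ^ r) ≃ PP r := e.toEquiv
  refine ⟨e', ?_⟩
  intro i j hij
  have h0 : e' i ≤ e' j := Finset.le_iff_subset.2 hij.1
  have h1 := (toLinearExtension : PP r →o LinearExtension (PP r)).monotone h0
  have h2 : i ≤ j := e.le_iff_le.1 h1
  have h3 : i ≠ j := by
    intro h
    rw [h] at hij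
    exact absurd hij (ssubset_irrefl _)
  exact lt_of_le_of_ne h2 h3

theorem sum_card_enum (r : ℕ) : 2 * ∑ b : PP r, b.card = r * 2 ^ r := by
  have h1 : ∑ b : PP r, (bᶜ).card = ∑ b : PP r, b.card :=
    Equiv.sum_comp (Function.Involutive.toPerm (compl : PP r → PP r) compl_involutive)
      (fun b => b.card)
  have h2 : ∑ b : PP r, b.card + ∑ b : PP r, (bᶜ).card = r * 2 ^ r := by
    rw [← Finset.sum_add_distrib]
    have : ∀ b : PP r, b.card + (bᶜ).card = r := by
      intro b
      rw [Finset.card_add_card_compl, Fintype.card_fin]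
    simp only [this, Finset.sum_const, Finset.card_univ, Fintype.card_finset, Fintype.card_fin,
      smul_eq_mul]
    ring
  omega

/-! ### the matrix -/

section matrix
open Classical

variable {r : ℕ} (e : Fin (2 ^ r) ≃ PP r)

/-- variables: `X_x` (`x` in the cube), `y_i`, `y'_i`. -/
abbrev Vars (r : ℕ) : Type := PP r ⊕ (Fin (2 ^ r) ⊕ Fin (2 ^ r))

noncomputable def MM : (Fin (2 ^ r) ⊕ (Fin (2 ^ r) ⊕ Fin (2 ^ r))) → Vars r → ℤ
  | Sum.inl j, Sum.inl x => chi (e j) x
  | Sum.inl j, Sum.inr (Sum.inl i) => if i = j then -1 else 0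
  | Sum.inl _, Sum.inr (Sum.inr _) => 0
  | Sum.inr (Sum.inl _), Sum.inl _ => 0
  | Sum.inr (Sum.inl j), Sum.inr (Sum.inl i) => if i = j then 1 else 0
  | Sum.inr (Sum.inl j), Sum.inr (Sum.inr i) => if i = j then -1 else 0
  | Sum.inr (Sum.inr j), Sum.inl x => if j.val ≠ 0 ∧ Disjoint x (e j) then 1 else 0
  | Sum.inr (Sum.inr j), Sum.inr (Sum.inl i) => if i.val + 1 = j.val then -1 else 0
  | Sum.inr (Sum.inr j), Sum.inr (Sum.inr i) => if i.val + 1 = j.val then -1 else 0

theorem MM_val (k) (v) : MM e k v = -1 ∨ MM e k v = 0 ∨ MM e k v = 1 := by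
  rcases k with j | j | j <;> rcases v with x | i | i <;> simp only [MM]
  · rcases chi_val (e j) x with h | h <;> rw [h] <;> simp
  all_goals first | (split_ifs <;> simp) | simp

theorem row1 (a : Vars r → ℝ) (j : Fin (2 ^ r)) :
    ∑ v, (MM e (Sum.inl j) v : ℝ) * a v =
      (∑ x, (chi (e j) x : ℝ) * a (Sum.inl x)) - a (Sum.inr (Sum.inl j)) := by
  rw [Fintype.sum_sum_type, Fintype.sum_sum_type]
  simp only [MM]
  have h1 : ∑ i : Fin (2 ^ r), (((if i = j then -1 else 0 : ℤ)) : ℝ) * a (Sum.inr (Sum.inl i)) =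
      - a (Sum.inr (Sum.inl j)) := by
    rw [Finset.sum_eq_single j]
    · rw [if_pos rfl]; push_cast; ring
    · intro i _ hi
      rw [if_neg hi]; simp
    · intro h; exact absurd (Finset.mem_univ _) h
  rw [h1]
  simp
  ring

theorem row2 (a : Vars r → ℝ) (j : Fin (2 ^ r)) :
    ∑ v, (MM e (Sum.inr (Sum.inl j)) v : ℝ) * a v =
      a (Sum.inr (Sum.inl j)) - a (Sum.inr (Sum.inr j)) := by
  rw [Fintype.sum_sum_type, Fintype.sum_sum_type]
  simp only [MM]
  have h1 : ∑ i : Fin (2 ^ r), (((if i = j then 1 else 0 : ℤ)) : ℝ) * a (Sum.inr (Sum.inl i)) =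
      a (Sum.inr (Sum.inl j)) := by
    rw [Finset.sum_eq_single j]
    · rw [if_pos rfl]; push_cast; ring
    · intro i _ hi
      rw [if_neg hi]; simp
    · intro h; exact absurd (Finset.mem_univ _) h
  have h2 : ∑ i : Fin (2 ^ r), (((if i = j then -1 else 0 : ℤ)) : ℝ) * a (Sum.inr (Sum.inr i)) =
      - a (Sum.inr (Sum.inr j)) := by
    rw [Finset.sum_eq_single j]
    · rw [if_pos rfl]; push_cast; ring
    · intro i _ hi
      rw [if_neg hi]; simp
    · intro h; exact absurd (Finset.mem_univ _) h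
  rw [h1, h2]
  simp
  ring

theorem row3 (a : Vars r → ℝ) (j : ℕ) (hj : j + 1 < 2 ^ r) :
    ∑ v, (MM e (Sum.inr (Sum.inr ⟨j + 1, hj⟩)) v : ℝ) * a v =
      (∑ x, if Disjoint x (e ⟨j + 1, hj⟩) then a (Sum.inl x) else 0)
        - a (Sum.inr (Sum.inl ⟨j, by omega⟩)) - a (Sum.inr (Sum.inr ⟨j, by omega⟩)) := by
  rw [Fintype.sum_sum_type, Fintype.sum_sum_type]
  simp only [MM]
  have h1 : ∀ F : Fin (2 ^ r) → ℝ, ∑ i : Fin (2 ^ r),
      (((if i.val + 1 = j + 1 then -1 else 0 : ℤ)) : ℝ) * F i = - F ⟨j, by omega⟩ := by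
    intro F
    rw [Finset.sum_eq_single ⟨j, by omega⟩]
    · rw [if_pos rfl]; push_cast; ring
    · intro i _ hi
      rw [if_neg]
      · simp
      · intro h
        apply hi
        apply Fin.ext
        show i.val = j
        omega
    · intro h; exact absurd (Finset.mem_univ _) h
  rw [h1 (fun i => a (Sum.inr (Sum.inl i))), h1 (fun i => a (Sum.inr (Sum.inr i)))]
  have h2 : ∀ x : PP r, (((if j + 1 ≠ 0 ∧ Disjoint x (e ⟨j + 1, hj⟩) then 1 else 0 : ℤ)) : ℝ) *
      a (Sum.inl x) = if Disjoint x (e ⟨j + 1, hj⟩) then a (Sum.inl x) else 0 := by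
    intro x
    by_cases h : Disjoint x (e ⟨j + 1, hj⟩)
    · rw [if_pos ⟨by omega, h⟩, if_pos h]; simp
    · rw [if_neg (fun h' => h h'.2), if_neg h]; simp
  simp only [h2]
  ring

theorem row3_zero (a : Vars r → ℝ) (j : Fin (2 ^ r)) (hj : j.val = 0) :
    ∑ v, (MM e (Sum.inr (Sum.inr j)) v : ℝ) * a v = 0 := by
  rw [Fintype.sum_sum_type, Fintype.sum_sum_type]
  simp [MM, hj]

/-- cardinality and strict inclusion relation, on natural indices -/
noncomputable def cdE (j : ℕ) : ℕ := if h : j < 2 ^ r then (e ⟨j, h⟩).card else 0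

def relE (i j : ℕ) : Prop := ∃ (hi : i < 2 ^ r) (hj : j < 2 ^ r), e ⟨i, hi⟩ ⊂ e ⟨j, hj⟩

theorem walsh (X : PP r → ℝ) (b : Fin (2 ^ r) → ℝ)
    (hb : ∀ i, b i = ∑ x, (chi (e i) x : ℝ) * X x) (j : Fin (2 ^ r)) :
    ∑ i, (if e i ⊆ e j then b i else 0) =
      2 ^ (e j).card * ∑ x, if Disjoint x (e j) then X x else 0 := by
  have h1 : ∑ i, (if e i ⊆ e j then b i else 0) =
      ∑ c : PP r, if c ⊆ e j then ∑ x, (chi c x : ℝ) * X x else 0 := by
    rw [← Equiv.sum_comp e]
    apply Finset.sum_congr rfl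
    intro i _
    rw [hb i]
  rw [h1, ← Finset.sum_filter]
  have h2 : Finset.univ.filter (fun c : PP r => c ⊆ e j) = (e j).powerset := by
    ext c; simp
  rw [h2, Finset.sum_comm, Finset.mul_sum]
  apply Finset.sum_congr rfl
  intro x _
  rw [← Finset.sum_mul, sum_chi]
  split_ifs <;> ring

theorem conv (hmono : ∀ i j, e i ⊂ e j → i < j) (b : ℕ → ℝ) (j : ℕ) (hj : j + 1 < 2 ^ r) :
    ∑ i : Fin (2 ^ r), (if e i ⊆ e ⟨j + 1, hj⟩ then b i.val else 0) =
      b (j + 1) + ∑ i ∈ Finset.range (j + 1), if relE e i (j + 1) then b i else 0 := by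
  have h1 : ∀ i : Fin (2 ^ r), (if e i ⊆ e ⟨j + 1, hj⟩ then b i.val else 0) =
      (if i = ⟨j + 1, hj⟩ then b i.val else 0) + (if relE e i.val (j + 1) then b i.val else 0) := by
    intro i
    have hrel : relE e i.val (j + 1) ↔ e i ⊂ e ⟨j + 1, hj⟩ := by
      constructor
      · rintro ⟨_, _, h⟩; exact h
      · intro h; exact ⟨i.isLt, hj, h⟩
    by_cases hi : i = ⟨j + 1, hj⟩
    · subst hi
      rw [if_pos (Finset.Subset.refl _), if_pos rfl, if_neg, add_zero]
      rw [hrel]
      exact ssubset_irrefl _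
    · rw [if_neg hi, zero_add]
      have hne : e i ≠ e ⟨j + 1, hj⟩ := fun h => hi (e.injective h)
      by_cases hs : e i ⊆ e ⟨j + 1, hj⟩
      · rw [if_pos hs, if_pos (hrel.2 (Finset.ssubset_iff_subset_ne.2 ⟨hs, hne⟩))]
      · rw [if_neg hs, if_neg (fun h => hs (hrel.1 h).1)]
  simp only [h1]
  rw [Finset.sum_add_distrib, Finset.sum_ite_eq' Finset.univ (⟨j + 1, hj⟩ : Fin (2 ^ r))
    (fun i => b i.val), if_pos (Finset.mem_univ _)]
  congr 1
  rw [Fin.sum_univ_eq_sum_range (fun i => if relE e i (j + 1) then b i else 0) (2 ^ r)]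
  symm
  apply Finset.sum_subset
  · intro i hi
    rw [Finset.mem_range] at hi ⊢
    omega
  · intro i _ hi
    rw [if_neg]
    rintro ⟨h1, h2, h3⟩
    apply hi
    have := hmono _ _ h3
    rw [Finset.mem_range]
    exact this

theorem count_rel (hmono : ∀ i j, e i ⊂ e j → i < j) (j : ℕ) (hj : j + 1 < 2 ^ r) :
    ((Finset.range (j + 1)).filter (fun i => relE e i (j + 1))).card + 1 ≤
      2 ^ cdE e (j + 1) := by
  have hcd : cdE e (j + 1) = (e ⟨j + 1, hj⟩).card := by
    unfold cdE
    rw [dif_pos hj]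
  rw [hcd, ← Finset.card_powerset]
  have hself : e ⟨j + 1, hj⟩ ∈ (e ⟨j + 1, hj⟩).powerset := Finset.mem_powerset.2 (Finset.Subset.refl _)
  rw [← Finset.card_erase_add_one hself]
  apply Nat.add_le_add_right
  apply Finset.card_le_card_of_injOn (fun i => if h : i < 2 ^ r then e ⟨i, h⟩ else ∅)
  · intro i hi
    rw [Finset.mem_coe, Finset.mem_filter] at hi
    obtain ⟨_, h1, h2, h3⟩ := hi
    rw [Finset.mem_coe]
    simp only [dif_pos h1]
    rw [Finset.mem_erase, Finset.mem_powerset]
    exact ⟨h3.ne, h3.1⟩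
  · intro i hi i' hi' h
    rw [Finset.mem_coe, Finset.mem_filter] at hi hi'
    obtain ⟨_, h1, _, _⟩ := hi
    obtain ⟨_, h1', _, _⟩ := hi'
    simp only [dif_pos h1, dif_pos h1'] at h
    have := e.injective h
    simpa using this

theorem sum_cd (hmono : ∀ i j, e i ⊂ e j → i < j) :
    2 * ∑ i ∈ Finset.range (2 ^ r - 1), cdE e (i + 1) = r * 2 ^ r := by
  rw [← sum_card_enum r]
  congr 1
  rw [← Equiv.sum_comp e]
  have hpos : 0 < 2 ^ r := by positivity
  have h0 : cdE e 0 = 0 := by
    unfold cdE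
    rw [dif_pos hpos, Finset.card_eq_zero]
    by_contra hne
    obtain ⟨i, hi⟩ := e.surjective ∅
    have h1 : e i ⊂ e ⟨0, hpos⟩ := by
      rw [hi]
      exact Finset.empty_ssubset.2 (Finset.nonempty_iff_ne_empty.2 hne)
    have := hmono _ _ h1
    exact absurd this (by simp [Fin.lt_def])
  have h2 : ∑ i : Fin (2 ^ r), (e i).card = ∑ i ∈ Finset.range (2 ^ r), cdE e i := by
    rw [← Fin.sum_univ_eq_sum_range (fun i => cdE e i) (2 ^ r)]
    apply Finset.sum_congr rfl
    intro i _
    unfold cdE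
    rw [dif_pos i.isLt]
  rw [h2]
  obtain ⟨m, hm⟩ := Nat.exists_eq_succ_of_ne_zero hpos.ne'
  rw [hm, Nat.succ_sub_one, Finset.sum_range_succ', h0, add_zero]

/-- The big construction: on `24 * 2^r` variables, all trades have length at least
`2 * 2^(r 2^(r-1))`. -/
theorem big (r K : ℕ) (hK : 2 * K = r * 2 ^ r) :
    ∃ f : (Fin (24 * 2 ^ r) → Bool) → Bool, IsSwitching f ∧ ¬ IsWeighted f ∧
      ∀ j, 1 ≤ j → HasTrade f j → 2 * 2 ^ K ≤ j := by
  obtain ⟨e, hmono⟩ := exists_enum r
  have hpos : 0 < 2 ^ r := by positivity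
  let Y : ℕ → ℝ := YY (cdE e) (relE e)
  have hcd : ∀ j (h : j < 2 ^ r), cdE e j = (e ⟨j, h⟩).card := by
    intro j h; unfold cdE; rw [dif_pos h]
  let Xs : PP r → ℝ := fun x => (1 / 2 ^ r) * ∑ i : Fin (2 ^ r), (chi (e i) x : ℝ) * Y i.val
  have hXs : ∀ j : Fin (2 ^ r), Y j.val = ∑ x, (chi (e j) x : ℝ) * Xs x := by
    intro j
    have h1 : ∑ x, (chi (e j) x : ℝ) * Xs x = (1 / 2 ^ r) * ∑ i : Fin (2 ^ r), Y i.val *
        ∑ x, (chi (e j) x : ℝ) * (chi (e i) x : ℝ) := by
      simp only [Xs, Finset.mul_sum]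
      rw [Finset.sum_comm]
      apply Finset.sum_congr rfl
      intro i _
      apply Finset.sum_congr rfl
      intro x _
      ring
    rw [h1]
    simp only [orth]
    have h2 : ∑ i : Fin (2 ^ r), Y i.val * (if e j = e i then (2 : ℝ) ^ r else 0) =
        Y j.val * 2 ^ r := by
      rw [Finset.sum_eq_single j]
      · rw [if_pos rfl]
      · intro i _ hi
        rw [if_neg (fun h => hi (e.injective h).symm), mul_zero]
      · intro h; exact absurd (Finset.mem_univ _) h
    rw [h2]
    field_simp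
  let g : Vars r → ℝ := fun v => match v with
    | Sum.inl x => Xs x
    | Sum.inr (Sum.inl i) => Y i.val
    | Sum.inr (Sum.inr i) => Y i.val
  have hgrow := YY_growth (cdE e) (relE e) (2 ^ r) (fun j hj => count_rel e hmono j hj)
  have hKsum : ∑ i ∈ Finset.range (2 ^ r - 1), cdE e (i + 1) = K := by
    have := sum_cd e hmono
    omega
  obtain ⟨f, h1, h2, h3⟩ := core_signed (MM e) (MM_val e) g
    ⟨Sum.inr (Sum.inl ⟨0, hpos⟩), by
      show YY (cdE e) (relE e) 0 ≠ 0
      rw [YY_zero]; norm_num⟩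
    (by
      rintro (j | j | j)
      · rw [row1]
        show (∑ x, (chi (e j) x : ℝ) * Xs x) - Y j.val = 0
        rw [← hXs j]; ring
      · rw [row2]
        show Y j.val - Y j.val = 0
        ring
      · obtain ⟨j, hj⟩ := j
        rcases j with _ | j
        · exact row3_zero e g ⟨0, hj⟩ rfl
        · rw [row3 e g j hj]
          show (∑ x, if Disjoint x (e ⟨j + 1, hj⟩) then Xs x else 0) - Y j - Y j = 0
          have hw := walsh e Xs (fun i => Y i.val) hXs ⟨j + 1, hj⟩
          rw [conv e hmono Y j hj] at hw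
          have hrec : Y (j + 1) = 2 ^ (cdE e (j + 1) + 1) * Y j -
              ∑ i ∈ Finset.range (j + 1), if relE e i (j + 1) then Y i else 0 :=
            YY_succ (cdE e) (relE e) j
          rw [hrec, hcd (j + 1) hj, pow_succ] at hw
          have hp : (0 : ℝ) < 2 ^ (e ⟨j + 1, hj⟩).card := by positivity
          have : (2 : ℝ) ^ (e ⟨j + 1, hj⟩).card * (2 * Y j) = 2 ^ (e ⟨j + 1, hj⟩).card *
              ∑ x, if Disjoint x (e ⟨j + 1, hj⟩) then Xs x else 0 := by
            rw [← hw]; ring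
          have := mul_left_cancel₀ hp.ne' this
          linarith) (2 ^ K)
    (by
      intro a ha hne
      let aR : Vars r → ℝ := fun v => (a v : ℝ)
      have haR : ∀ k, ∑ v, (MM e k v : ℝ) * aR v = 0 := by
        intro k
        have := congrArg (fun z : ℤ => (z : ℝ)) (ha k)
        push_cast at this
        simpa using this
      let b : ℕ → ℝ := fun i => if h : i < 2 ^ r then aR (Sum.inr (Sum.inl ⟨i, h⟩)) else 0
      have hb : ∀ i : Fin (2 ^ r), b i.val = aR (Sum.inr (Sum.inl i)) := by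
        intro i
        simp only [b, dif_pos i.isLt]
      have hb1 : ∀ i : Fin (2 ^ r), b i.val = ∑ x, (chi (e i) x : ℝ) * aR (Sum.inl x) := by
        intro i
        have := haR (Sum.inl i)
        rw [row1] at this
        rw [hb]
        linarith
      have hb2 : ∀ i : Fin (2 ^ r), aR (Sum.inr (Sum.inr i)) = b i.val := by
        intro i
        have := haR (Sum.inr (Sum.inl i))
        rw [row2] at this
        rw [hb]
        linarith
      have hrec : ∀ j, j + 1 < 2 ^ r → b (j + 1) = 2 ^ (cdE e (j + 1) + 1) * b j -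
          ∑ i ∈ Finset.range (j + 1), if relE e i (j + 1) then b i else 0 := by
        intro j hj
        have h3 := haR (Sum.inr (Sum.inr ⟨j + 1, hj⟩))
        rw [row3 e aR j hj] at h3
        rw [hb2, ← hb] at h3
        simp only at h3
        have hw := walsh e (fun x => aR (Sum.inl x)) (fun i => b i.val) hb1 ⟨j + 1, hj⟩
        rw [conv e hmono b j hj] at hw
        have h4 : (∑ x, if Disjoint x (e ⟨j + 1, hj⟩) then aR (Sum.inl x) else 0) = 2 * b j := by
          linarith
        rw [h4] at hw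
        rw [hcd (j + 1) hj, pow_succ]
        linarith
      have huniq := YY_unique (cdE e) (relE e) (2 ^ r) b hrec
      -- b 0 ≠ 0
      have hb0 : b 0 ≠ 0 := by
        intro h0
        have hball : ∀ i : Fin (2 ^ r), b i.val = 0 := by
          intro i
          rw [huniq _ i.isLt, h0, zero_mul]
        have hXall : ∀ x : PP r, aR (Sum.inl x) = 0 := by
          intro x
          have h5 : ∑ i : Fin (2 ^ r), (chi (e i) x : ℝ) * b i.val =
              2 ^ r * aR (Sum.inl x) := by
            simp only [hb1, Finset.mul_sum]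
            rw [Finset.sum_comm]
            have h6 : ∀ z : PP r, ∑ i : Fin (2 ^ r), (chi (e i) x : ℝ) *
                ((chi (e i) z : ℝ) * aR (Sum.inl z)) =
                (if x = z then 2 ^ r else 0) * aR (Sum.inl z) := by
              intro z
              rw [← orth x z, Finset.sum_mul, ← Equiv.sum_comp e]
              apply Finset.sum_congr rfl
              intro i _
              rw [chi_symm x (e i), chi_symm z (e i)]
              ring
            simp only [h6]
            rw [Finset.sum_eq_single x]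
            · rw [if_pos rfl]
            · intro z _ hz
              rw [if_neg (Ne.symm hz), zero_mul]
            · intro h; exact absurd (Finset.mem_univ _) h
          simp only [hball, mul_zero, Finset.sum_const_zero] at h5
          have hp : (0 : ℝ) < 2 ^ r := by positivity
          have := h5.symm
          rcases mul_eq_zero.1 this with h | h
          · exact absurd h hp.ne'
          · exact h
        obtain ⟨v, hv⟩ := hne
        apply hv
        have : aR v = 0 := by
          rcases v with x | i | i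
          · exact hXall x
          · rw [← hb]; exact hball i
          · rw [hb2]; exact hball i
        simpa [aR] using this
      have hlast : 2 ^ r - 1 < 2 ^ r := by omega
      have hlastY := (hgrow (2 ^ r - 1) hlast).2.2
      rw [hKsum] at hlastY
      have hb0' : 1 ≤ |b 0| := by
        have : b 0 = ((a (Sum.inr (Sum.inl ⟨0, hpos⟩)) : ℤ) : ℝ) := hb ⟨0, hpos⟩
        rw [this] at hb0 ⊢
        have h7 : a (Sum.inr (Sum.inl ⟨0, hpos⟩)) ≠ 0 := by
          intro h
          apply hb0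
          rw [h]; simp
        have h8 := Int.one_le_abs h7
        exact_mod_cast h8
      have hbig : (2 : ℝ) ^ K ≤ |b (2 ^ r - 1)| := by
        rw [huniq _ hlast, abs_mul]
        have hYp : 0 ≤ YY (cdE e) (relE e) (2 ^ r - 1) := le_trans (by positivity) hlastY
        rw [abs_of_nonneg hYp]
        calc (2 : ℝ) ^ K ≤ YY (cdE e) (relE e) (2 ^ r - 1) := hlastY
          _ = 1 * YY (cdE e) (relE e) (2 ^ r - 1) := (one_mul _).symm
          _ ≤ |b 0| * YY (cdE e) (relE e) (2 ^ r - 1) := mul_le_mul_of_nonneg_right hb0' hYp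
      have hbl : b (2 ^ r - 1) = ((a (Sum.inr (Sum.inl ⟨2 ^ r - 1, hlast⟩)) : ℤ) : ℝ) :=
        hb ⟨2 ^ r - 1, hlast⟩
      rw [hbl] at hbig
      have hbig' : ((2 ^ K : ℕ) : ℤ) ≤ |a (Sum.inr (Sum.inl ⟨2 ^ r - 1, hlast⟩))| := by
        have : (((2 ^ K : ℕ) : ℤ) : ℝ) ≤ ((|a (Sum.inr (Sum.inl ⟨2 ^ r - 1, hlast⟩))| : ℤ) : ℝ) := by
          push_cast
          exact hbig
        exact_mod_cast this
      refine hbig'.trans ?_
      exact Finset.single_le_sum (f := fun v => |a v|) (fun v _ => abs_nonneg _)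
        (Finset.mem_univ _))
  have hcard : Fintype.card (Coord (Vars r) (Fin (2 ^ r) ⊕ (Fin (2 ^ r) ⊕ Fin (2 ^ r)))) =
      24 * 2 ^ r := by
    simp only [Coord, Vars, Fintype.card_sum, Fintype.card_prod, Fintype.card_fin,
      Fintype.card_bool, Fintype.card_finset]
    ring
  obtain ⟨f', g1, g2, g3⟩ := transfer (24 * 2 ^ r) (le_of_eq hcard) f h1 h2
  exact ⟨f', g1, g2, fun j hj ht => h3 j hj (g3 j ht)⟩

end matrix

end Pool.Agent.H14
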