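import Pool.Agent.H14.TradeDefs

set_option autoImplicit false

namespace Pool.Agent.H14

open Filter Topology

/-! ### isolating weights -/

theorem wsum_add_smul {ι : Type} [Fintype ι] (W U : ι → ℝ) (e : ℝ) (x : ι → Bool) :
    wsum (fun i => W i + e * U i) x = wsum W x + e * wsum U x := by
  unfold wsum
  rw [Finset.mul_sum, ← Finset.sum_add_distrib]
  apply Finset.sum_congr rfl
  intro i _
  split_ifs <;> ring

theorem separate {ι κ : Type} [Fintype ι] [Fintype κ] (vec : κ → ι → Bool)
    (hull : ∀ (x : ι → Bool) (l : κ → ℝ), ∑ v, l v = 1 →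
      (∀ i, ∑ v, l v * (if vec v i = true then 1 else 0) = if x i = true then 1 else 0) →
      ∃ v, x = vec v)
    (x : ι → Bool) (hx : ¬ ∃ v, x = vec v) :
    ∃ (U : ι → ℝ) (u : ℝ), (∀ v, wsum U (vec v) = u) ∧ wsum U x ≠ u := by
  classical
  let hat : (ι → Bool) → (Option ι → ℝ) := fun y o =>
    match o with
    | none => 1
    | some i => if y i = true then 1 else 0
  have hnot : hat x ∉ Submodule.span ℝ (Set.range (fun v => hat (vec v))) := by
    intro hmem
    rw [Submodule.mem_span_range_iff_exists_fun] at hmem
    obtain ⟨l, hl⟩ := hmem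
    apply hx
    apply hull x l
    · have := congrFun hl none
      simp only [Finset.sum_apply, Pi.smul_apply, smul_eq_mul, hat, mul_one] at this
      exact this
    · intro i
      have := congrFun hl (some i)
      simp only [Finset.sum_apply, Pi.smul_apply, smul_eq_mul, hat] at this
      exact this
  obtain ⟨φ, hφx, hφ⟩ := Submodule.exists_dual_map_eq_bot_of_notMem hnot inferInstance
  have hφv : ∀ v, φ (hat (vec v)) = 0 := by
    intro v
    have h1 : φ (hat (vec v)) ∈
        (Submodule.span ℝ (Set.range (fun v => hat (vec v)))).map φ :=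
      Submodule.mem_map_of_mem (Submodule.subset_span ⟨v, rfl⟩)
    rw [hφ] at h1
    simpa using h1
  have hform : ∀ y : ι → Bool, φ (hat y) =
      φ (Pi.single none 1) + wsum (fun i => φ (Pi.single (some i) 1)) y := by
    intro y
    rw [LinearMap.pi_apply_eq_sum_univ φ (hat y), Fintype.sum_option]
    unfold wsum
    have hs : ∀ o : Option ι, (fun j : Option ι => if o = j then (1 : ℝ) else 0) =
        Pi.single o 1 := by
      intro o
      ext j
      simp [Pi.single_apply, eq_comm]
    simp only [hs, hat, smul_eq_mul, one_mul, ite_mul, zero_mul]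
  refine ⟨fun i => φ (Pi.single (some i) 1), - φ (Pi.single none 1), ?_, ?_⟩
  · intro v
    have := hφv v
    rw [hform] at this
    linarith
  · intro h
    apply hφx
    rw [hform, h]
    ring

theorem exists_isolating {ι κ : Type} [Fintype ι] [Fintype κ] (vec : κ → ι → Bool)
    (W0 : ι → ℝ) (q0 : ℝ) (hW0 : ∀ i, 0 < W0 i) (hq0 : ∀ v, wsum W0 (vec v) = q0)
    (hull : ∀ (x : ι → Bool) (l : κ → ℝ), ∑ v, l v = 1 →
      (∀ i, ∑ v, l v * (if vec v i = true then 1 else 0) = if x i = true then 1 else 0) →
      ∃ v, x = vec v) :
    ∃ (W : ι → ℝ) (q : ℝ), (∀ i, 0 < W i) ∧ (∀ v, wsum W (vec v) = q) ∧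
      ∀ x, wsum W x = q → ∃ v, x = vec v := by
  classical
  have key : ∀ s : Finset (ι → Bool), ∃ (W : ι → ℝ) (q : ℝ), (∀ i, 0 < W i) ∧
      (∀ v, wsum W (vec v) = q) ∧ ∀ x ∈ s, (¬ ∃ v, x = vec v) → wsum W x ≠ q := by
    intro s
    induction s using Finset.induction_on with
    | empty => exact ⟨W0, q0, hW0, hq0, by simp⟩
    | insert a s _ ih =>
      obtain ⟨W, q, hW, hq, hs⟩ := ih
      by_cases ha : (¬ ∃ v, a = vec v) ∧ wsum W a = q
      · obtain ⟨ha1, ha2⟩ := ha
        obtain ⟨U, u, hU, hUa⟩ := separate vec hull a ha1
        have ev1 : ∀ i, ∀ᶠ e : ℝ in 𝓝[>] 0, 0 < W i + e * U i := by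
          intro i
          have hc : Continuous (fun e : ℝ => W i + e * U i) := by fun_prop
          have ht : Tendsto (fun e : ℝ => W i + e * U i) (𝓝[>] 0) (𝓝 (W i + 0 * U i)) :=
            (hc.tendsto 0).mono_left nhdsWithin_le_nhds
          apply ht.eventually_const_lt
          have := hW i
          linarith
        have ev2 : ∀ x ∈ s, ∀ᶠ e : ℝ in 𝓝[>] 0, (¬ ∃ v, x = vec v) →
            wsum W x + e * wsum U x ≠ q + e * u := by
          intro x hx
          by_cases hxv : ∃ v, x = vec v
          · exact Eventually.of_forall (fun e h => absurd hxv h)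
          · have hne := hs x hx hxv
            have hc : Continuous (fun e : ℝ => (wsum W x + e * wsum U x) - (q + e * u)) := by
              fun_prop
            have ht : Tendsto (fun e : ℝ => (wsum W x + e * wsum U x) - (q + e * u)) (𝓝[>] 0)
                (𝓝 ((wsum W x + 0 * wsum U x) - (q + 0 * u))) :=
              (hc.tendsto 0).mono_left nhdsWithin_le_nhds
            have h0 : (wsum W x + 0 * wsum U x) - (q + 0 * u) ≠ 0 := by
              intro h
              apply hne
              linarith
            filter_upwards [ht.eventually_ne h0] with e he _ h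
            apply he
            linarith
        have ev3 : ∀ᶠ e : ℝ in 𝓝[>] 0, 0 < e := eventually_mem_nhdsWithin
        have ev1' : ∀ᶠ e : ℝ in 𝓝[>] 0, ∀ i, 0 < W i + e * U i := eventually_all.2 ev1
        have ev2' : ∀ᶠ e : ℝ in 𝓝[>] 0, ∀ x ∈ s, (¬ ∃ v, x = vec v) →
            wsum W x + e * wsum U x ≠ q + e * u := (Finset.eventually_all s).2 ev2
        obtain ⟨e, ⟨he1, he2⟩, he3⟩ := ((ev1'.and ev2').and ev3).exists
        refine ⟨fun i => W i + e * U i, q + e * u, he1, ?_, ?_⟩
        · intro v
          rw [wsum_add_smul, hq, hU]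
        · intro x hx hxv
          rw [wsum_add_smul]
          rw [Finset.mem_insert] at hx
          rcases hx with rfl | hx
          · rw [ha2]
            intro h
            apply hUa
            have : e * wsum U x = e * u := by linarith
            exact mul_left_cancel₀ (ne_of_gt he3) this
          · exact he2 x hx hxv
      · refine ⟨W, q, hW, hq, ?_⟩
        intro x hx hxv
        rw [Finset.mem_insert] at hx
        rcases hx with rfl | hx
        · intro h
          exact ha ⟨hxv, h⟩
        · exact hs x hx hxv
  obtain ⟨W, q, hW, hq, hs⟩ := key Finset.univ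
  refine ⟨W, q, hW, hq, ?_⟩
  intro x hx
  by_contra hxv
  exact hs x (Finset.mem_univ _) hxv hx

theorem wsum_lt {ι : Type} [Fintype ι] (W : ι → ℝ) (hW : ∀ i, 0 < W i) (x y : ι → Bool)
    (hxy : ∀ i, x i = true → y i = true) (hne : x ≠ y) : wsum W x < wsum W y := by
  unfold wsum
  apply Finset.sum_lt_sum
  · intro i _
    by_cases hx : x i = true
    · rw [if_pos hx, if_pos (hxy i hx)]
    · rw [if_neg hx]
      split_ifs
      · exact (hW i).le
      · exact le_refl _
  · obtain ⟨i, hi⟩ := Function.ne_iff.1 hne
    refine ⟨i, Finset.mem_univ _, ?_⟩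
    cases hx : x i
    · have hy : y i = true := by
        cases hy : y i
        · rw [hx, hy] at hi
          exact absurd rfl hi
        · rfl
      rw [hy]
      simpa using hW i
    · have hy := hxy i hx
      rw [hx, hy] at hi
      exact absurd rfl hi

/-! ### the points -/

abbrev Coord (μ ρ : Type) : Type := (μ × Bool × Bool) ⊕ (ρ × Bool × Bool)

section
variable {μ ρ : Type} [Fintype μ] [DecidableEq μ] [Fintype ρ]

/-- the points: `(i, true, p)` is `A_i^p`, `(i, false, p)` is `B_i^p`. -/
def vec (M : ρ → μ → ℤ) : (μ × Bool × Bool) → Coord μ ρ → Bool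
  | (i, s, c), Sum.inl (j, p, q) => decide (i = j) && (if s = true then c == p else c == q)
  | (i, s, c), Sum.inr (r, p, o) => (c == p) && decide (M r i = if s = o then 1 else -1)

theorem sum_inl (M : ρ → μ → ℤ) (l : μ × Bool × Bool → ℝ) (j : μ) (p q : Bool) :
    ∑ v, l v * (if vec M v (Sum.inl (j, p, q)) = true then 1 else 0) =
      l (j, true, p) + l (j, false, q) := by
  rw [Fintype.sum_prod_type]
  rw [Finset.sum_eq_single j]
  · rw [Fintype.sum_prod_type]
    simp only [Fintype.sum_bool, vec]
    cases p <;> cases q <;> simp
  · intro i _ hij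
    simp [vec, hij]
  · intro h
    exact absurd (Finset.mem_univ _) h

theorem sum_inr (M : ρ → μ → ℤ) (l : μ × Bool × Bool → ℝ) (r : ρ) (p o : Bool) :
    ∑ v, l v * (if vec M v (Sum.inr (r, p, o)) = true then 1 else 0) =
      ∑ i, (l (i, true, p) * (if M r i = (if true = o then 1 else -1) then 1 else 0) +
        l (i, false, p) * (if M r i = (if false = o then 1 else -1) then 1 else 0)) := by
  rw [Fintype.sum_prod_type]
  apply Finset.sum_congr rfl
  intro i _
  rw [Fintype.sum_prod_type]
  simp only [Fintype.sum_bool, vec]
  cases p <;> simp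

/-- the hull property. -/
theorem hull (M : ρ → μ → ℤ) (hM : ∀ r i, M r i = -1 ∨ M r i = 0 ∨ M r i = 1)
    (x : Coord μ ρ → Bool) (l : μ × Bool × Bool → ℝ) (hsum : ∑ v, l v = 1)
    (hx : ∀ c, ∑ v, l v * (if vec M v c = true then 1 else 0) = if x c = true then 1 else 0) :
    ∃ v, x = vec M v := by
  classical
  -- pair values
  have hpair : ∀ j p q, l (j, true, p) + l (j, false, q) = 0 ∨
      l (j, true, p) + l (j, false, q) = 1 := by
    intro j p q
    have := hx (Sum.inl (j, p, q))
    rw [sum_inl] at this
    rw [this]
    split_ifs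
    · right; rfl
    · left; rfl
  have hlev : ∀ j, (∑ sc : Bool × Bool, l (j, sc)) =
      (l (j, true, false) + l (j, false, false)) + (l (j, true, true) + l (j, false, true)) := by
    intro j
    rw [Fintype.sum_prod_type]
    simp only [Fintype.sum_bool]
    ring
  have hnn : ∀ j, 0 ≤ ∑ sc : Bool × Bool, l (j, sc) := by
    intro j
    rw [hlev]
    rcases hpair j false false with h1 | h1 <;> rcases hpair j true true with h2 | h2 <;>
      rw [h1, h2] <;> norm_num
  rw [Fintype.sum_prod_type] at hsum
  -- a level with positive sum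
  obtain ⟨j0, hj0⟩ : ∃ j, (∑ sc : Bool × Bool, l (j, sc)) ≠ 0 := by
    by_contra hcon
    push Not at hcon
    rw [Finset.sum_eq_zero (fun j _ => hcon j)] at hsum
    exact absurd hsum (by norm_num)
  have hge1 : 1 ≤ ∑ sc : Bool × Bool, l (j0, sc) := by
    rw [hlev] at hj0 ⊢
    rcases hpair j0 false false with h1 | h1 <;> rcases hpair j0 true true with h2 | h2 <;>
      rw [h1, h2] at hj0 ⊢
    · exact absurd (by norm_num) hj0
    · norm_num
    · norm_num
    · norm_num
  have hsplit := Finset.add_sum_erase Finset.univ (fun j => ∑ sc : Bool × Bool, l (j, sc))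
    (Finset.mem_univ j0)
  rw [hsum] at hsplit
  have hrest_nn : 0 ≤ ∑ j ∈ Finset.univ.erase j0, ∑ sc : Bool × Bool, l (j, sc) :=
    Finset.sum_nonneg (fun j _ => hnn j)
  have hlev0 : (∑ sc : Bool × Bool, l (j0, sc)) = 1 := by linarith
  have hrest0 : ∑ j ∈ Finset.univ.erase j0, ∑ sc : Bool × Bool, l (j, sc) = 0 := by linarith
  have hother : ∀ j, j ≠ j0 → (∑ sc : Bool × Bool, l (j, sc)) = 0 := by
    intro j hj
    exact (Finset.sum_eq_zero_iff_of_nonneg (fun j _ => hnn j)).1 hrest0 j
      (Finset.mem_erase.2 ⟨hj, Finset.mem_univ _⟩)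
  -- structure of the other levels
  have hzero : ∀ j, j ≠ j0 → l (j, true, true) = l (j, true, false) ∧
      l (j, false, true) = - l (j, true, false) ∧ l (j, false, false) = - l (j, true, false) := by
    intro j hj
    have h0 := hother j hj
    rw [hlev] at h0
    rcases hpair j false false with h1 | h1 <;> rcases hpair j true true with h2 | h2 <;>
      rcases hpair j false true with h3 | h3 <;> rcases hpair j true false with h4 | h4 <;>
      first
        | (exfalso; linarith)
        | (refine ⟨?_, ?_, ?_⟩ <;> linarith)
  -- structure of level j0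
  obtain ⟨s0, c0, t0, hs0⟩ : ∃ (s0 c0 : Bool) (t0 : ℝ), ∀ s c : Bool,
      l (j0, s, c) = (if s = true then t0 else -t0) + (if s = s0 ∧ c = c0 then 1 else 0) := by
    have h0 := hlev0
    rw [hlev] at h0
    rcases hpair j0 false false with h1 | h1 <;> rcases hpair j0 true true with h2 | h2 <;>
      rcases hpair j0 false true with h3 | h3 <;> rcases hpair j0 true false with h4 | h4 <;>
      first
        | (exfalso; linarith)
        | (refine ⟨true, false, l (j0, true, true), ?_⟩
           intro s c
           cases s <;> cases c <;> simp <;> linarith)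
        | (refine ⟨true, true, l (j0, true, false), ?_⟩
           intro s c
           cases s <;> cases c <;> simp <;> linarith)
        | (refine ⟨false, true, l (j0, true, false), ?_⟩
           intro s c
           cases s <;> cases c <;> simp <;> linarith)
        | (refine ⟨false, false, l (j0, true, false), ?_⟩
           intro s c
           cases s <;> cases c <;> simp <;> linarith)
  -- common form
  obtain ⟨t, ht⟩ : ∃ t : μ → ℝ, ∀ i (s c : Bool),
      l (i, s, c) = (if s = true then t i else - t i) +
        (if (i, s, c) = (j0, s0, c0) then 1 else 0) := by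
    refine ⟨fun i => if i = j0 then t0 else l (i, true, false), ?_⟩
    intro i s c
    by_cases hi : i = j0
    · subst hi
      rw [hs0 s c]
      simp
    · obtain ⟨z1, z2, z3⟩ := hzero i hi
      simp only [if_neg hi, Prod.mk.injEq, hi, false_and, if_false, add_zero]
      cases s <;> cases c <;> simp [z1, z2, z3]
  -- rows vanish
  have hrow : ∀ r, ∑ i, (M r i : ℝ) * t i = 0 := by
    intro r
    have hval : ∀ o : Bool, (∑ i, (l (i, true, !c0) * (if M r i = (if true = o then 1 else -1)
          then 1 else 0) + l (i, false, !c0) * (if M r i = (if false = o then 1 else -1)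
          then 1 else 0))) = (if o = true then 1 else -1) * ∑ i, (M r i : ℝ) * t i := by
      intro o
      rw [Finset.mul_sum]
      apply Finset.sum_congr rfl
      intro i _
      rw [ht i true (!c0), ht i false (!c0)]
      have hne1 : ¬ ((i, true, !c0) = (j0, s0, c0)) := by
        intro h
        simp only [Prod.mk.injEq] at h
        exact absurd h.2.2 (by cases c0 <;> simp)
      have hne2 : ¬ ((i, false, !c0) = (j0, s0, c0)) := by
        intro h
        simp only [Prod.mk.injEq] at h
        exact absurd h.2.2 (by cases c0 <;> simp)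
      rw [if_neg hne1, if_neg hne2]
      rcases hM r i with h | h | h <;> rw [h] <;> cases o <;> norm_num
    have h1 := hx (Sum.inr (r, !c0, true))
    have h2 := hx (Sum.inr (r, !c0, false))
    rw [sum_inr, hval] at h1 h2
    simp only [if_true, one_mul, Bool.false_eq_true, if_false] at h1 h2
    split_ifs at h1 h2 <;> linarith
  refine ⟨(j0, s0, c0), ?_⟩
  funext c
  have hc := hx c
  have hind : (if vec M (j0, s0, c0) c = true then (1 : ℝ) else 0) =
      if x c = true then 1 else 0 := by
    rw [← hc]
    have hl : ∀ v : μ × Bool × Bool, l v = (if v.2.1 = true then t v.1 else - t v.1) +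
        (if v = (j0, s0, c0) then 1 else 0) := by
      rintro ⟨i, s, c⟩
      exact ht i s c
    have e1 : ∑ v, l v * (if vec M v c = true then 1 else 0) =
        (∑ v : μ × Bool × Bool, (if v.2.1 = true then t v.1 else - t v.1) *
          (if vec M v c = true then 1 else 0)) +
        ∑ v : μ × Bool × Bool, (if v = (j0, s0, c0) then 1 else 0) *
          (if vec M v c = true then 1 else 0) := by
      rw [← Finset.sum_add_distrib]
      apply Finset.sum_congr rfl
      intro v _
      rw [hl v]
      ring
    rw [e1]
    have e2 : (∑ v : μ × Bool × Bool, (if v.2.1 = true then t v.1 else - t v.1) *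
          (if vec M v c = true then 1 else 0)) = 0 := by
      rcases c with ⟨j, p, q⟩ | ⟨r, p, o⟩
      · rw [sum_inl M (fun v => if v.2.1 = true then t v.1 else - t v.1)]
        simp
      · rw [sum_inr M (fun v => if v.2.1 = true then t v.1 else - t v.1)]
        refine Eq.trans ?_ (show (if o = true then (1 : ℝ) else -1) *
          ∑ i, (M r i : ℝ) * t i = 0 by rw [hrow]; ring)
        rw [Finset.mul_sum]
        apply Finset.sum_congr rfl
        intro i _
        rcases hM r i with h | h | h <;> rw [h] <;> cases o <;> norm_num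
    rw [e2, zero_add]
    rw [Finset.sum_eq_single (j0, s0, c0)]
    · simp
    · intro v _ hv
      rw [if_neg hv, zero_mul]
    · intro h
      exact absurd (Finset.mem_univ _) h
  cases hv : vec M (j0, s0, c0) c <;> cases hxc : x c
  · rfl
  · rw [hv, hxc] at hind; norm_num at hind
  · rw [hv, hxc] at hind; norm_num at hind
  · rfl

theorem vec_inr (M : ρ → μ → ℤ) (i : μ) (s c : Bool) (r : ρ) (p o : Bool) :
    vec M (i, s, c) (Sum.inr (r, p, o)) = true ↔ c = p ∧ M r i = (if s = o then 1 else -1) := by
  simp only [vec, Bool.and_eq_true, beq_iff_eq, decide_eq_true_eq]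

/-- initial positive weights, constant on the points -/
theorem init_weights (M : ρ → μ → ℤ) (hM : ∀ r i, M r i = -1 ∨ M r i = 0 ∨ M r i = 1) :
    ∃ (W0 : Coord μ ρ → ℝ) (q0 : ℝ), (∀ c, 0 < W0 c) ∧ ∀ v, wsum W0 (vec M v) = q0 := by
  classical
  let col : μ → ℝ := fun i => ∑ r, |(M r i : ℝ)|
  have hcol : ∀ i, col i ≤ Fintype.card ρ := by
    intro i
    have : col i ≤ ∑ _r : ρ, (1 : ℝ) := by
      apply Finset.sum_le_sum
      intro r _
      rcases hM r i with h | h | h <;> rw [h] <;> norm_num
    simpa using this
  let W0 : Coord μ ρ → ℝ := fun c => match c with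
    | Sum.inl (j, _, _) => ((Fintype.card ρ : ℝ) + 1 - col j) / 2
    | Sum.inr _ => 1
  refine ⟨W0, (Fintype.card ρ : ℝ) + 1, ?_, ?_⟩
  · rintro (⟨j, p, q⟩ | c)
    · show 0 < ((Fintype.card ρ : ℝ) + 1 - col j) / 2
      have := hcol j
      linarith
    · show (0 : ℝ) < 1
      norm_num
  · rintro ⟨i, s, c⟩
    unfold wsum
    rw [Fintype.sum_sum_type]
    have e1 : (∑ a : μ × Bool × Bool, if vec M (i, s, c) (Sum.inl a) = true then W0 (Sum.inl a)
        else 0) = (Fintype.card ρ : ℝ) + 1 - col i := by
      rw [Fintype.sum_prod_type, Finset.sum_eq_single i]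
      · rw [Fintype.sum_prod_type]
        simp only [Fintype.sum_bool, vec]
        cases s <;> cases c <;> simp [W0] <;> ring
      · intro j _ hj
        simp [vec, Ne.symm hj]
      · intro h
        exact absurd (Finset.mem_univ _) h
    have e2 : (∑ a : ρ × Bool × Bool, if vec M (i, s, c) (Sum.inr a) = true then W0 (Sum.inr a)
        else 0) = col i := by
      rw [Fintype.sum_prod_type]
      apply Finset.sum_congr rfl
      intro r _
      rw [Fintype.sum_prod_type]
      simp only [Fintype.sum_bool, vec_inr, W0]
      rcases hM r i with h | h | h <;> simp only [h] <;> cases s <;> cases c <;> norm_num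
    rw [e1, e2]
    ring

theorem vec_side {M : ρ → μ → ℤ} {i j : μ} {p q : Bool}
    (h : vec M (i, true, p) = vec M (j, false, q)) : False := by
  have h1 := congrFun h (Sum.inl (i, p, !q))
  simp [vec] at h1

theorem vec_inj_true {M : ρ → μ → ℤ} {i j : μ} {p q : Bool}
    (h : vec M (i, true, p) = vec M (j, true, q)) : i = j ∧ p = q := by
  have h1 := congrFun h (Sum.inl (i, p, true))
  simp only [vec, decide_true, Bool.true_and, if_true, beq_self_eq_true] at h1
  have h2 := h1.symm
  simp only [Bool.and_eq_true, decide_eq_true_eq, beq_iff_eq] at h2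
  exact ⟨h2.1.symm, h2.2.symm⟩

/-- The main construction: a sign matrix whose nonnegative integral kernel vectors are large gives
a switching function that is not weighted but has only long trades. -/
theorem core (M : ρ → μ → ℤ) (hM : ∀ r i, M r i = -1 ∨ M r i = 0 ∨ M r i = 1)
    (g : μ → ℝ) (hg0 : ∀ i, 0 ≤ g i) (hg1 : ∃ i, g i ≠ 0)
    (hMg : ∀ r, ∑ i, (M r i : ℝ) * g i = 0) (L : ℕ)
    (hL : ∀ a : μ → ℕ, (∀ r, ∑ i, M r i * (a i : ℤ) = 0) → (∃ i, a i ≠ 0) → L ≤ ∑ i, a i) :
    ∃ f : (Coord μ ρ → Bool) → Bool, IsSwitching f ∧ ¬ IsWeighted f ∧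
      ∀ j, 1 ≤ j → HasTrade f j → 2 * L ≤ j := by
  classical
  obtain ⟨W0, q0, hW0, hq0⟩ := init_weights M hM
  obtain ⟨W, q, hW, hq, hiso⟩ := exists_isolating (vec M) W0 q0 hW0 hq0
    (fun x l h1 h2 => hull M hM x l h1 h2)
  let f : (Coord μ ρ → Bool) → Bool := fun x =>
    decide (q < wsum W x ∨ ∃ (i : μ) (p : Bool), x = vec M (i, true, p))
  have hf : ∀ x, f x = true ↔ (q < wsum W x ∨ ∃ (i : μ) (p : Bool), x = vec M (i, true, p)) := by
    intro x; simp [f]
  have hfge : ∀ x, f x = true → q ≤ wsum W x := by
    intro x hx
    rcases (hf x).1 hx with h | ⟨i, p, h⟩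
    · exact h.le
    · rw [h, hq]
  have hffalse : ∀ x, f x = false → wsum W x ≤ q := by
    intro x hx
    by_contra hlt
    push Not at hlt
    rw [(hf x).2 (Or.inl hlt)] at hx
    exact absurd hx (by decide)
  have hfA : ∀ i p, f (vec M (i, true, p)) = true := fun i p => (hf _).2 (Or.inr ⟨i, p, rfl⟩)
  have hfB : ∀ i p, f (vec M (i, false, p)) = false := by
    intro i p
    cases h : f (vec M (i, false, p))
    · rfl
    · exfalso
      rcases (hf _).1 h with h | ⟨i', p', h⟩
      · rw [hq] at h
        exact lt_irrefl _ h
      · exact vec_side h.symm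
  refine ⟨f, ?_, ?_, ?_⟩
  · -- monotone
    intro x y hxy hx
    by_cases hne : x = y
    · rw [← hne]; exact hx
    · rw [hf]
      left
      exact lt_of_le_of_lt (hfge x hx) (wsum_lt W hW x y hxy hne)
  · -- not weighted
    rintro ⟨w, q', hw⟩
    have hA : ∀ i p, q' ≤ wsum w (vec M (i, true, p)) := fun i p => (hw _).1 (hfA i p)
    have hB : ∀ i p, wsum w (vec M (i, false, p)) < q' := by
      intro i p
      by_contra h
      push Not at h
      have := (hw _).2 h
      rw [hfB] at this
      exact absurd this (by decide)
    -- the relation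
    have hrel : ∑ i, g i * (wsum w (vec M (i, true, true)) + wsum w (vec M (i, true, false))) =
        ∑ i, g i * (wsum w (vec M (i, false, true)) + wsum w (vec M (i, false, false))) := by
      have expand : ∀ s : Bool, ∑ i, g i * (wsum w (vec M (i, s, true)) +
          wsum w (vec M (i, s, false))) = ∑ c, w c * ∑ i, g i *
            ((if vec M (i, s, true) c = true then 1 else 0) +
              (if vec M (i, s, false) c = true then 1 else 0)) := by
        intro s
        simp only [Finset.mul_sum]
        rw [Finset.sum_comm]
        apply Finset.sum_congr rfl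
        intro i _
        unfold wsum
        rw [← Finset.sum_add_distrib, Finset.mul_sum]
        apply Finset.sum_congr rfl
        intro c _
        split_ifs <;> ring
      rw [expand true, expand false]
      apply Finset.sum_congr rfl
      intro c _
      congr 1
      rcases c with ⟨j, p, q⟩ | ⟨r, p, o⟩
      · apply Finset.sum_congr rfl
        intro i _
        congr 1
        by_cases hij : i = j
        · subst hij
          cases p <;> cases q <;> simp [vec]
        · simp [vec, hij]
      · have hz : (if o = true then (1 : ℝ) else -1) * ∑ i, (M r i : ℝ) * g i = 0 := by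
          rw [hMg]; ring
        rw [← sub_eq_zero, ← Finset.sum_sub_distrib]
        refine Eq.trans ?_ hz
        rw [Finset.mul_sum]
        apply Finset.sum_congr rfl
        intro i _
        simp only [vec_inr]
        rcases hM r i with h | h | h <;> simp only [h] <;> cases o <;> cases p <;> norm_num
    obtain ⟨i0, hi0⟩ := hg1
    have hi0' : 0 < g i0 := lt_of_le_of_ne (hg0 i0) (Ne.symm hi0)
    have hlt : ∑ i, g i * (wsum w (vec M (i, false, true)) + wsum w (vec M (i, false, false))) <
        ∑ i, g i * (wsum w (vec M (i, true, true)) + wsum w (vec M (i, true, false))) := by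
      apply Finset.sum_lt_sum
      · intro i _
        apply mul_le_mul_of_nonneg_left _ (hg0 i)
        have := hA i true
        have := hA i false
        have := hB i true
        have := hB i false
        linarith
      · refine ⟨i0, Finset.mem_univ _, ?_⟩
        apply mul_lt_mul_of_pos_left _ hi0'
        have := hA i0 true
        have := hA i0 false
        have := hB i0 true
        have := hB i0 false
        linarith
    rw [hrel] at hlt
    exact lt_irrefl _ hlt
  · -- trades are long
    rintro j hj ⟨x, y, hx, hy, hxy⟩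
    have hxyR : ∀ c, (∑ t, if x t c = true then (1 : ℝ) else 0) =
        ∑ t, if y t c = true then (1 : ℝ) else 0 := by
      intro c
      have := hxy c
      have h2 := congrArg (fun z : ℤ => (z : ℝ)) this
      push_cast at h2
      simpa using h2
    have hWsum : ∑ t, wsum W (x t) = ∑ t, wsum W (y t) := by
      have expand : ∀ z : Fin j → (Coord μ ρ → Bool), ∑ t, wsum W (z t) =
          ∑ c, W c * ∑ t, (if z t c = true then (1 : ℝ) else 0) := by
        intro z
        simp only [Finset.mul_sum]
        rw [Finset.sum_comm]
        apply Finset.sum_congr rfl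
        intro t _
        unfold wsum
        apply Finset.sum_congr rfl
        intro c _
        split_ifs <;> ring
      rw [expand x, expand y]
      apply Finset.sum_congr rfl
      intro c _
      rw [hxyR c]
    have hx0 : ∀ t, 0 ≤ wsum W (x t) - q := fun t => sub_nonneg.2 (hfge _ (hx t))
    have hy0 : ∀ t, 0 ≤ q - wsum W (y t) := fun t => sub_nonneg.2 (hffalse _ (hy t))
    have hs : ∑ t, ((wsum W (x t) - q) + (q - wsum W (y t))) = 0 := by
      have : ∀ t : Fin j, (wsum W (x t) - q) + (q - wsum W (y t)) =
        wsum W (x t) - wsum W (y t) := by intro t; ring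
      simp only [this]
      rw [Finset.sum_sub_distrib, hWsum, sub_self]
    have hs' := (Finset.sum_eq_zero_iff_of_nonneg
      (fun t _ => add_nonneg (hx0 t) (hy0 t))).1 hs
    have hxq : ∀ t, wsum W (x t) = q := by
      intro t
      have h1 := hs' t (Finset.mem_univ _)
      have h2 := hx0 t
      have h3 := hy0 t
      linarith
    have hyq : ∀ t, wsum W (y t) = q := by
      intro t
      have h1 := hs' t (Finset.mem_univ _)
      have h2 := hx0 t
      have h3 := hy0 t
      linarith
    have hxA : ∀ t, ∃ v : μ × Bool, x t = vec M (v.1, true, v.2) := by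
      intro t
      obtain ⟨⟨i, s, p⟩, hv⟩ := hiso _ (hxq t)
      cases s
      · have := hx t
        rw [hv, hfB] at this
        exact absurd this (by decide)
      · exact ⟨(i, p), hv⟩
    have hyB : ∀ t, ∃ v : μ × Bool, y t = vec M (v.1, false, v.2) := by
      intro t
      obtain ⟨⟨i, s, p⟩, hv⟩ := hiso _ (hyq t)
      cases s
      · exact ⟨(i, p), hv⟩
      · have := hy t
        rw [hv, hfA] at this
        exact absurd this (by decide)
    choose xi hxi using hxA
    choose yi hyi using hyB
    let a : μ → Bool → ℕ := fun i p => (Finset.univ.filter (fun t => xi t = (i, p))).card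
    let b : μ → Bool → ℕ := fun i p => (Finset.univ.filter (fun t => yi t = (i, p))).card
    have hab : ∀ i p q', a i p = b i q' := by
      intro i p q'
      have := hxy (Sum.inl (i, p, q'))
      have e1 : (∑ t, if x t (Sum.inl (i, p, q')) = true then (1 : ℤ) else 0) = (a i p : ℤ) := by
        rw [← Finset.sum_filter, Finset.sum_const, nsmul_eq_mul, mul_one]
        congr 2
        ext t
        rw [Finset.mem_filter, Finset.mem_filter, hxi t]
        simp only [vec, if_true, Bool.and_eq_true, decide_eq_true_eq, beq_iff_eq,
          Finset.mem_univ, true_and]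
        exact (Prod.ext_iff (x := xi t) (y := (i, p))).symm
      have e2 : (∑ t, if y t (Sum.inl (i, p, q')) = true then (1 : ℤ) else 0) = (b i q' : ℤ) := by
        rw [← Finset.sum_filter, Finset.sum_const, nsmul_eq_mul, mul_one]
        congr 2
        ext t
        rw [Finset.mem_filter, Finset.mem_filter, hyi t]
        simp only [vec, Bool.false_eq_true, if_false, Bool.and_eq_true, decide_eq_true_eq,
          beq_iff_eq, Finset.mem_univ, true_and]
        exact (Prod.ext_iff (x := yi t) (y := (i, q'))).symm
      rw [e1, e2] at this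
      exact_mod_cast this
    -- fibre sums
    have fibx : ∀ F : μ × Bool → ℤ, ∑ t, F (xi t) = ∑ v : μ × Bool, (a v.1 v.2 : ℤ) * F v := by
      intro F
      rw [← Finset.sum_fiberwise Finset.univ xi (fun t => F (xi t))]
      apply Finset.sum_congr rfl
      intro v _
      rw [Finset.sum_congr rfl (fun t ht => by rw [(Finset.mem_filter.1 ht).2] :
        ∀ t ∈ Finset.univ.filter (fun t => xi t = v), F (xi t) = F v)]
      rw [Finset.sum_const, nsmul_eq_mul]
    have fiby : ∀ F : μ × Bool → ℤ, ∑ t, F (yi t) = ∑ v : μ × Bool, (b v.1 v.2 : ℤ) * F v := by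
      intro F
      rw [← Finset.sum_fiberwise Finset.univ yi (fun t => F (yi t))]
      apply Finset.sum_congr rfl
      intro v _
      rw [Finset.sum_congr rfl (fun t ht => by rw [(Finset.mem_filter.1 ht).2] :
        ∀ t ∈ Finset.univ.filter (fun t => yi t = v), F (yi t) = F v)]
      rw [Finset.sum_const, nsmul_eq_mul]
    have hrows : ∀ r, ∑ i, M r i * (a i true : ℤ) = 0 := by
      intro r
      have h1 := hxy (Sum.inr (r, true, true))
      have e1 : (∑ t, if x t (Sum.inr (r, true, true)) = true then (1 : ℤ) else 0) =
          ∑ i, (a i true : ℤ) * (if M r i = 1 then 1 else 0) := by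
        have := fibx (fun v => if v.2 = true ∧ M r v.1 = 1 then 1 else 0)
        rw [Fintype.sum_prod_type] at this
        simp only [Fintype.sum_bool, true_and, Bool.false_eq_true, false_and, if_false, mul_zero,
          add_zero] at this
        rw [← this]
        apply Finset.sum_congr rfl
        intro t _
        rw [hxi t]
        simp only [vec_inr, if_true]
      have e2 : (∑ t, if y t (Sum.inr (r, true, true)) = true then (1 : ℤ) else 0) =
          ∑ i, (b i true : ℤ) * (if M r i = -1 then 1 else 0) := by
        have := fiby (fun v => if v.2 = true ∧ M r v.1 = -1 then 1 else 0)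
        rw [Fintype.sum_prod_type] at this
        simp only [Fintype.sum_bool, true_and, Bool.false_eq_true, false_and, if_false, mul_zero,
          add_zero] at this
        rw [← this]
        apply Finset.sum_congr rfl
        intro t _
        rw [hyi t]
        simp only [vec_inr, Bool.false_eq_true, if_false]
      rw [e1, e2, ← sub_eq_zero, ← Finset.sum_sub_distrib] at h1
      refine Eq.trans ?_ h1
      apply Finset.sum_congr rfl
      intro i _
      rw [← hab i true true]
      rcases hM r i with h | h | h <;> rw [h] <;> norm_num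
    have hlen : (j : ℤ) = ∑ i, ((a i true : ℤ) + (a i false : ℤ)) := by
      have := fibx (fun _ => 1)
      rw [Fintype.sum_prod_type] at this
      simp only [Fintype.sum_bool, mul_one, Finset.sum_const, Finset.card_univ, Fintype.card_fin,
        nsmul_eq_mul] at this
      exact this
    have haf : ∀ i, a i false = a i true := by
      intro i
      rw [hab i false true, hab i true true]
    have hlen2 : j = 2 * ∑ i, a i true := by
      have : (j : ℤ) = 2 * ∑ i, (a i true : ℤ) := by
        rw [hlen, Finset.mul_sum]
        apply Finset.sum_congr rfl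
        intro i _
        rw [haf]
        ring
      exact_mod_cast this
    have hne : ∃ i, a i true ≠ 0 := by
      by_contra h
      push Not at h
      rw [Finset.sum_eq_zero (fun i _ => h i)] at hlen2
      omega
    have := hL (fun i => a i true) hrows hne
    omega

end

end Pool.Agent.H14
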