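import Mathlib

set_option autoImplicit false

namespace Pool.Agent.H14

/-- The weight `∑_i w_i x_i` of the Boolean vector `x`. -/
def wsum {ι : Type} [Fintype ι] (w : ι → ℝ) (x : ι → Bool) : ℝ :=
  ∑ i, if x i = true then w i else 0

/-- Switching function: a monotone Boolean function (`true` is 1, `false` is 0). -/
def IsSwitching {ι : Type} (f : (ι → Bool) → Bool) : Prop :=
  ∀ x y : ι → Bool, (∀ i, x i = true → y i = true) → f x = true → f y = true

/-- Weighted threshold: there are reals `w_i` and `q` with `f x = 1` exactly when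
`∑_i w_i x_i ≥ q`. -/
def IsWeighted {ι : Type} [Fintype ι] (f : (ι → Bool) → Bool) : Prop :=
  ∃ (w : ι → ℝ) (q : ℝ), ∀ x : ι → Bool, f x = true ↔ q ≤ wsum w x

/-- There are `j` true vectors `x^1, …, x^j` and `j` false vectors `y^1, …, y^j` (repetitions
allowed) with `x^1 + … + x^j = y^1 + … + y^j`. -/
def HasTrade {ι : Type} (f : (ι → Bool) → Bool) (j : ℕ) : Prop :=
  ∃ x y : Fin j → (ι → Bool), (∀ t, f (x t) = true) ∧ (∀ t, f (y t) = false) ∧
    ∀ i : ι, (∑ t, if x t i = true then (1 : ℤ) else 0) = ∑ t, if y t i = true then (1 : ℤ) else 0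

end Pool.Agent.H14
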