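import Pool.Agent.H14.TradeCore

set_option autoImplicit false

namespace Pool.Agent.H14

/-- Adding dummy variables. -/
theorem transfer {ι : Type} [Fintype ι] (n : ℕ) (hn : Fintype.card ι ≤ n)
    (f : (ι → Bool) → Bool) (hs : IsSwitching f) (hw : ¬ IsWeighted f) :
    ∃ f' : (Fin n → Bool) → Bool, IsSwitching f' ∧ ¬ IsWeighted f' ∧
      ∀ j, HasTrade f' j → HasTrade f j := by
  classical
  have hcard : Fintype.card ι ≤ Fintype.card (Fin n) := by simpa using hn
  obtain ⟨e⟩ := Function.Embedding.nonempty_of_card_le hcard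
  refine ⟨fun x => f (fun i => x (e i)), ?_, ?_, ?_⟩
  · intro x y hxy hx
    exact hs _ _ (fun i => hxy (e i)) hx
  · rintro ⟨w, q, h⟩
    apply hw
    refine ⟨fun i => w (e i), q, ?_⟩
    intro x
    let x' : Fin n → Bool := fun t => decide (∃ i, e i = t ∧ x i = true)
    have hx' : ∀ i, x' (e i) = x i := by
      intro i
      simp only [x']
      rw [Bool.eq_iff_iff, decide_eq_true_eq]
      constructor
      · rintro ⟨i', h1, h2⟩
        rw [e.injective h1] at h2
        exact h2
      · intro h
        exact ⟨i, rfl, h⟩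
    have h1 := h x'
    simp only [hx'] at h1
    rw [h1]
    have : wsum w x' = wsum (fun i => w (e i)) x := by
      unfold wsum
      have e1 : ∑ i, (if x i = true then w (e i) else 0) =
          ∑ t ∈ Finset.univ.map e, (if x' t = true then w t else 0) := by
        rw [Finset.sum_map]
        apply Finset.sum_congr rfl
        intro i _
        rw [hx']
      rw [e1]
      symm
      apply Finset.sum_subset (Finset.subset_univ _)
      intro t _ ht
      rw [if_neg]
      intro hxt
      simp only [x', decide_eq_true_eq] at hxt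
      obtain ⟨i, hi, _⟩ := hxt
      apply ht
      rw [Finset.mem_map]
      exact ⟨i, Finset.mem_univ _, hi⟩
    rw [this]
  · rintro j ⟨x, y, hx, hy, hxy⟩
    exact ⟨fun t i => x t (e i), fun t i => y t (e i), hx, hy, fun i => hxy (e i)⟩

theorem poly_lt_two_pow (Q : Polynomial ℝ) : ∃ m : ℕ, Q.eval (m : ℝ) < 2 ^ m := by
  have h : Filter.Tendsto (fun m : ℕ => Q.eval (m : ℝ) / 2 ^ m) Filter.atTop (nhds 0) := by
    have e : ∀ m : ℕ, Q.eval (m : ℝ) / 2 ^ m =
        ∑ i ∈ Finset.range (Q.natDegree + 1), Q.coeff i * ((m : ℝ) ^ i / 2 ^ m) := by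
      intro m
      rw [Polynomial.eval_eq_sum_range, Finset.sum_div]
      apply Finset.sum_congr rfl
      intro i _
      ring
    simp only [e]
    have : (0 : ℝ) = ∑ i ∈ Finset.range (Q.natDegree + 1), Q.coeff i * 0 := by simp
    rw [this]
    apply tendsto_finset_sum
    intro i _
    exact (tendsto_pow_const_div_const_pow_of_one_lt i (by norm_num)).const_mul _
  have h2 := h.eventually (gt_mem_nhds (show (0 : ℝ) < 1 by norm_num))
  obtain ⟨m, hm⟩ := h2.exists
  refine ⟨m, ?_⟩
  rwa [div_lt_one (by positivity)] at hm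

end Pool.Agent.H14
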